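import Pool.Agent.Lib.MP_86b0a6_an.Spectral

namespace Pool.Agent.Lib.MP_86b0a6_an

open Set Filter Topology MeasureTheory unitInterval Polynomial
open scoped ENNReal

/-- Flows whose tensor products have cyclic vectors. -/
def Good (Φ : C(ℝ, GG)) : Prop :=
  ∀ (k : ℕ) (t : Fin k → ℝ), (∀ l, 0 < t l) → Function.Injective t →
    ∃ F ∈ HH k, ∀ h ∈ HH k, ∀ ε > 0, ∃ q : ℂ[X], ‖h - aeval (koop fun l => Φ (t l)) q F‖ < ε

theorem residual_good : {Φ : XX | Good Φ.1} ∈ residual XX := by
  have : Fact ((2 : ℝ≥0∞) ≠ ∞) := ⟨by simp⟩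
  have : ∀ k, IsSeparable (PI k) := fun k => isSeparable_of_sigmaFinite _
  have : ∀ k, SecondCountableTopology (LL k) := fun k => inferInstance
  have : ∀ k, SecondCountableTopology (HH k) := fun k =>
    TopologicalSpace.Subtype.secondCountableTopology _
  choose D hDc hDd using fun k => TopologicalSpace.exists_countable_dense (HH k)
  let K : (k : ℕ) → ℕ → Set (Fin k → ℝ) := fun k n =>
    Icc (fun _ => 1 / ((n : ℝ) + 1)) (fun _ => n) ∩
      ⋂ l, ⋂ l', ⋂ (_ : l ≠ l'), {t | 1 / ((n : ℝ) + 1) ≤ |t l - t l'|}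
  have hK : ∀ k n, IsCompact (K k n) := fun k n =>
    isCompact_Icc.inter_right (isClosed_iInter fun l => isClosed_iInter fun l' =>
      isClosed_iInter fun _ => isClosed_le continuous_const (by fun_prop))
  have h1 : ∀ᶠ Φ : XX in residual XX, ∀ k n, ∀ G ∈ D k, ∀ h ∈ D k, ∀ m : ℕ,
      ∀ t ∈ K k n, Req (fun l => Φ.1 (t l)) G h (1 / ((m : ℝ) + 1)) := by
    refine eventually_countable_forall.2 fun k => eventually_countable_forall.2 fun n =>
      (eventually_countable_ball (hDc k)).2 fun G _ => (eventually_countable_ball (hDc k)).2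
        fun h _ => eventually_countable_forall.2 fun m => residual_of_dense_open
          ((isOpen_forall_Req (hK k n) _ _ _).preimage continuous_subtype_val) ?_
    refine dense_iff_inter_open.2 fun U hU hne => ?_
    obtain ⟨V, L, e, hV, rfl, -, he⟩ := XX.exists_vert hU hne
    obtain ⟨Ψ, h1, h2, h3⟩ := spectral e L hV he n G.2 h.2
      (show 0 < 1 / ((m : ℝ) + 1) by positivity)
    refine ⟨⟨Ψ, subset_closure h2⟩, h1, fun t ht => h3 t (fun l => ?_) (fun l => ht.1.2 l) ?_⟩
    · exact lt_of_lt_of_le (by positivity) (ht.1.1 l)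
    · intro l l' hl
      by_contra hne
      have h4 := mem_iInter.1 (mem_iInter.1 (mem_iInter.1 ht.2 l) l') hne
      rw [mem_ofPred_eq, hl, sub_self, abs_zero] at h4
      exact absurd h4 (not_le.2 (by positivity))
  refine h1.mono fun Φ hΦ k t ht0 ht => ?_
  have h2 : ∀ a : ℝ, 0 < a → ∀ᶠ n : ℕ in atTop, 1 / ((n : ℝ) + 1) ≤ a := fun a ha =>
    tendsto_one_div_add_atTop_nhds_zero_nat.eventually (ge_mem_nhds ha)
  obtain ⟨n, ⟨a1, a2⟩, a3⟩ := (((eventually_all.2 fun l => h2 _ (ht0 l)).and
    (eventually_all.2 fun l => tendsto_natCast_atTop_atTop.eventually_ge_atTop (t l))).and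
    (eventually_all.2 fun l => eventually_all.2 fun l' => eventually_all.2 fun h : l ≠ l' =>
      h2 _ (abs_pos.2 (sub_ne_zero.2 (ht.ne h))))).exists
  exact exists_cyclic _ (hDd k) (hDc k) fun G hG h hh m => hΦ k n G hG h hh m t
    ⟨⟨a1, a2⟩, mem_iInter.2 fun l => mem_iInter.2 fun l' => mem_iInter.2 (a3 l l')⟩

/-- Measure preserving automorphisms of the interval. -/
abbrev AA : Type := {T : I ≃ᵐ I // MP T}

/-- The class of an automorphism. -/
noncomputable def jj (T : AA) : GG := mk T.1 T.2

/-- The class of the inverse of an automorphism. -/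
noncomputable def ji (T : AA) : GG := mk T.1.symm T.2.symm

lemma ji_mul_jj (T : AA) : ji T * jj T = 1 := by
  rw [ji, jj, mk_mul_mk]
  exact (mk_eq_iff _ _).2 (Eventually.of_forall fun x => T.1.symm_apply_apply x)

lemma jj_mul_ji (T : AA) : jj T * ji T = 1 := by
  rw [ji, jj, mk_mul_mk]
  exact (mk_eq_iff _ _).2 (Eventually.of_forall fun x => T.1.apply_symm_apply x)

lemma continuous_inv_of {Z : Type*} [TopologicalSpace Z] {u v : Z → GG} (h : ∀ z, v z * u z = 1)
    (hu : Continuous u) : Continuous v := by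
  refine continuous_iff_continuousAt.2 fun z => Metric.tendsto_nhds.2 fun ε hε => ?_
  obtain ⟨δ, hδ, H⟩ := inv_unif (h z) hε
  exact (Metric.tendsto_nhds.1 (hu.tendsto z) δ hδ).mono fun y hy => H _ _ (h y) hy

/-- The image of a function under an automorphism. -/
noncomputable def dd (F : Lp ℝ 1 (volume : Measure I)) (T : AA) : Lp ℝ 1 (volume : Measure I) :=
  Lp.compMeasurePreserving T.1.symm T.2.symm F

lemma dist_dd {A : Set I} (hA : MeasurableSet A) (S T : AA) :
    dist (dd (indicatorConstLp 1 hA (measure_ne_top _ _) 1) S)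
      (dd (indicatorConstLp 1 hA (measure_ne_top _ _) 1) T) =
      volume.real (symmDiff (S.1 '' A) (T.1 '' A)) := by
  simp only [dd, Lp.indicatorConstLp_compMeasurePreserving]
  rw [dist_indicatorConstLp_eq_norm, norm_indicatorConstLp (by simp) (by simp)]
  simp [MeasurableEquiv.preimage_symm]

lemma continuous_dd {Z : Type*} [TopologicalSpace Z] {S : Z → AA}
    (h : Continuous fun z => jj (S z)) (F : Lp ℝ 1 (volume : Measure I)) :
    Continuous fun z => dd F (S z) := by
  have h1 := continuous_inv_of (fun z => ji_mul_jj (S z)) h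
  refine continuous_iff_continuousAt.2 fun z => Metric.tendsto_nhds.2 fun ε hε => ?_
  obtain ⟨δ, hδ, H⟩ := koop_unif (m := (volume : Measure I)) (by simp) F hε
  exact (Metric.tendsto_nhds.1 (h1.tendsto z) δ hδ).mono fun y hy =>
    H _ _ _ _ (by rwa [ji, ji, dist_mk] at hy)

lemma continuous_jj {Z : Type*} [TopologicalSpace Z] {S : Z → AA}
    (h : ∀ (A : Set I) (hA : MeasurableSet A),
      Continuous fun z => dd (indicatorConstLp 1 hA (measure_ne_top _ _) 1) (S z)) :
    Continuous fun z => jj (S z) := by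
  have h1 : ∀ F, Continuous fun z => dd F (S z) := by
    refine Lp.induction (by simp) _ (fun c A hA _ => ?_) (fun f g hf hg _ h1 h2 => ?_) ?_
    · rw [Lp.simpleFunc.coe_indicatorConst]
      have : ∀ z, dd (indicatorConstLp 1 hA (measure_ne_top _ _) c) (S z) =
          c • dd (indicatorConstLp 1 hA (measure_ne_top _ _) 1) (S z) := fun z => by
        have h2 : (indicatorConstLp 1 hA (measure_ne_top volume _) c) =
            c • indicatorConstLp 1 hA (measure_ne_top _ _) 1 := by
          apply Lp.ext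
          filter_upwards [indicatorConstLp_coeFn (p := 1) (hs := hA)
            (hμs := measure_ne_top volume _) (c := c), indicatorConstLp_coeFn (p := 1) (hs := hA)
            (hμs := measure_ne_top volume _) (c := (1 : ℝ)),
            Lp.coeFn_smul c (indicatorConstLp 1 hA (measure_ne_top volume _) (1 : ℝ))]
            with x a1 a2 a3
          rw [a1, a3, Pi.smul_apply, a2]
          by_cases hx : x ∈ A <;> simp [hx]
        rw [h2]
        exact (Lp.compMeasurePreservingₗ ℝ _ (S z).2.symm).map_smul c _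
      simp only [this]
      exact (h A hA).const_smul c
    · simp only [dd, map_add]
      exact h1.add h2
    · refine isClosed_of_closure_subset fun F hF => ?_
      refine continuous_of_uniform_approx_of_continuous fun u hu => ?_
      obtain ⟨ε, hε, H⟩ := Metric.mem_uniformity_dist.1 hu
      obtain ⟨G, hG, hFG⟩ := Metric.mem_closure_iff.1 hF ε hε
      exact ⟨_, hG, fun z => H (by
        rwa [dd, dd, (Lp.isometry_compMeasurePreserving _).dist_eq])⟩
  exact continuous_inv_of (fun z => jj_mul_ji (S z)) (Continuous.subtype_mk (h1 coeL) _)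

/-- The weak topology. -/
@[reducible] def weak : TopologicalSpace AA := TopologicalSpace.generateFrom
  {U : Set AA | ∃ T₀ : AA, ∃ A : Set I, MeasurableSet A ∧ ∃ ε : ℝ, 0 < ε ∧
    U = {S : AA | volume (symmDiff (S.1 '' A) (T₀.1 '' A)) < ENNReal.ofReal ε}}

lemma weak_eq : weak = TopologicalSpace.induced jj inferInstance := by
  have key : ∀ (A : Set I) (hA : MeasurableSet A) (T : AA) (ε : ℝ),
      {S : AA | volume (symmDiff (S.1 '' A) (T.1 '' A)) < ENNReal.ofReal ε} =
      {S : AA | dist (dd (indicatorConstLp 1 hA (measure_ne_top _ _) 1) S)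
        (dd (indicatorConstLp 1 hA (measure_ne_top _ _) 1) T) < ε} := fun A hA T ε => by
    ext S
    simp only [mem_ofPred_eq, dist_dd, measureReal_def]
    exact ENNReal.lt_ofReal_iff_toReal_lt (measure_ne_top _ _)
  apply le_antisymm
  · rw [← continuous_iff_le_induced]
    let _ := weak
    refine continuous_jj (S := id) fun A hA => ?_
    refine continuous_iff_continuousAt.2 fun T => Metric.tendsto_nhds.2 fun ε hε => ?_
    refine IsOpen.mem_nhds (TopologicalSpace.isOpen_generateFrom_of_mem
      ⟨T, A, hA, ε, hε, (key A hA T ε).symm⟩) (by simpa using hε)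
  · refine le_generateFrom ?_
    rintro _ ⟨T, A, hA, ε, -, rfl⟩
    let _ := TopologicalSpace.induced jj inferInstance
    rw [key A hA]
    exact isOpen_lt ((continuous_dd (S := id) continuous_induced_dom _).dist continuous_const)
      continuous_const

lemma exists_jj {u v : GG} (h1 : v * u = 1) (h2 : u * v = 1) : ∃ T : AA, jj T = u := by
  induction u using GG.ind with
  | h f hf =>
    induction v using GG.ind with
    | h g hg =>
      rw [mk_mul_mk, one_def, mk_eq_iff] at h1 h2
      obtain ⟨T, hT, hTf⟩ := exists_equiv_of_ae_inverse hf hg h1 h2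
      exact ⟨⟨T, hT⟩, (mk_eq_iff _ _).2 hTf⟩

lemma IsFlow.exists_jj {Φ : C(ℝ, GG)} (h : IsFlow Φ) (s : ℝ) : ∃ T : AA, jj T = Φ s :=
  Pool.Agent.Lib.MP_86b0a6_an.exists_jj (h.neg_mul s) (by simpa using h.neg_mul (-s))

theorem residual_aut :
    {T : AA | ∃ Φ : C(ℝ, GG), IsFlow Φ ∧ Good Φ ∧ Φ 1 = jj T} ∈ @residual AA weak := by
  rw [weak_eq]
  let _ := TopologicalSpace.induced jj inferInstance
  have hd : DenseRange jj := by
    refine Metric.denseRange_iff.2 fun R r hr => ?_
    obtain ⟨L, e, hL, h, -⟩ := king R one_pos 0 (show 0 < r / 2 by positivity)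
    obtain ⟨T, hT⟩ := (vert_isPer e hL).1.exists_jj 1
    exact ⟨T, by rw [hT, dist_comm]; exact h.trans_lt (by linarith)⟩
  obtain ⟨S, hSo, hSd, hSc, hS⟩ := mem_residual_iff.1 (residual_time_one residual_good)
  have h1 : ∀ᶠ T in residual AA, ∀ O ∈ S, jj T ∈ O := by
    refine (eventually_countable_ball hSc).2 fun O hO => residual_of_dense_open
      ((hSo O hO).preimage continuous_induced_dom) (dense_iff_inter_open.2 fun U hU hne => ?_)
    obtain ⟨V, hV, rfl⟩ := isOpen_induced_iff.1 hU
    obtain ⟨T, hT⟩ := hne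
    exact hd.exists_mem_open (hV.inter (hSo O hO))
      ((hSd O hO).inter_open_nonempty V hV ⟨_, hT⟩)
  refine h1.mono fun T hT => ?_
  obtain ⟨Φ, h2, h3⟩ := hS (mem_sInter.2 hT)
  exact ⟨Φ.1, XX.isFlow Φ, h2, h3⟩

end Pool.Agent.Lib.MP_86b0a6_an
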