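import Mathlib

namespace Pool.Agent.Lib.MP_86b0a6_an

open Set Filter Topology TopologicalSpace

/-- A continuous map with dense range that sends nonempty open sets to somewhere dense sets
sends residual sets to residual sets (up to inseparability). -/
theorem residual_image {X Y : Type*} [PseudoMetricSpace X] [CompleteSpace X]
    [SecondCountableTopology X] [TopologicalSpace Y] [RegularSpace Y] [Nonempty X]
    {f : X → Y} (hf : Continuous f) (hd : DenseRange f)
    (hloc : ∀ U : Set X, IsOpen U → U.Nonempty → (interior (closure (f '' U))).Nonempty)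
    {G : Set X} (hG : G ∈ residual X) :
    {y | ∃ x ∈ G, Inseparable (f x) y} ∈ residual Y := by
  classical
  obtain ⟨S, hSo, hSd, hSc, hSG⟩ := mem_residual_iff.1 hG
  obtain ⟨D, hD⟩ := (hSc.insert univ).exists_eq_range (insert_nonempty _ _)
  have hDo : ∀ n, IsOpen (D n) := fun n => by
    have : D n ∈ insert univ S := hD ▸ mem_range_self n
    rcases this with h | h
    · rw [h]; exact isOpen_univ
    · exact hSo _ h
  have hDd : ∀ n, Dense (D n) := fun n => by
    have : D n ∈ insert univ S := hD ▸ mem_range_self n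
    rcases this with h | h
    · rw [h]; exact dense_univ
    · exact hSd _ h
  set B : Set (Set X) := insert univ (countableBasis X) with hB
  have hBc : B.Countable := (countable_countableBasis X).insert _
  let W : Set X → Set Y := fun U => interior (closure (f '' U))
  let R : ℕ → Set X → Set X → Prop := fun n U V =>
    V ∈ B ∧ closure V ⊆ U ∩ D n ∧ ∀ x ∈ V, ∀ y ∈ V, dist x y ≤ 1 / ((n : ℝ) + 1)
  let O : ℕ → Set X → Set Y := fun n U => (closure (W U))ᶜ ∪ ⋃ (V : Set X) (_ : R n U V), W V
  have hBo : ∀ U ∈ B, IsOpen U := by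
    rintro U (rfl | h)
    · exact isOpen_univ
    · exact isOpen_of_mem_countableBasis h
  have hOo : ∀ n U, IsOpen (O n U) := fun n U =>
    isClosed_closure.isOpen_compl.union
      (isOpen_iUnion fun V => isOpen_iUnion fun _ => isOpen_interior)
  have hOd : ∀ n, ∀ U ∈ B, Dense (O n U) := by
    intro n U hU
    rw [dense_iff_inter_open]
    intro Z hZ hZn
    by_cases h1 : (Z ∩ W U).Nonempty
    · have h2 : (Z ∩ W U ∩ f '' U).Nonempty := by
        obtain ⟨y, hy⟩ := h1
        exact mem_closure_iff.1 (interior_subset hy.2) _ (hZ.inter isOpen_interior) hy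
      obtain ⟨_, ⟨hy1, -⟩, x, hxU, rfl⟩ := h2
      have h3 : IsOpen (f ⁻¹' Z ∩ U) := (hZ.preimage hf).inter (hBo U hU)
      obtain ⟨x', hx'⟩ := (hDd n).inter_open_nonempty _ h3 ⟨x, hy1, hxU⟩
      have h4 : IsOpen (f ⁻¹' Z ∩ U ∩ D n) := h3.inter (hDo n)
      obtain ⟨r, hr, hball⟩ := Metric.nhds_basis_closedBall.mem_iff.1 (h4.mem_nhds hx')
      have hpos : 0 < min r (1 / ((n : ℝ) + 1) / 2) := lt_min hr (by positivity)
      obtain ⟨V, hV, hxV, hVs⟩ := (isBasis_countableBasis X).mem_nhds_iff.1
        (Metric.ball_mem_nhds x' hpos)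
      have hcl : closure V ⊆ f ⁻¹' Z ∩ U ∩ D n := by
        refine (closure_minimal ?_ Metric.isClosed_closedBall).trans hball
        exact hVs.trans (Metric.ball_subset_closedBall.trans
          (Metric.closedBall_subset_closedBall (min_le_left _ _)))
      have hR : R n U V := by
        refine ⟨Or.inr hV, fun z hz => ⟨(hcl hz).1.2, (hcl hz).2⟩, fun a ha b hb => ?_⟩
        have e1 := (Metric.mem_ball.1 (hVs ha)).trans_le (min_le_right _ _)
        have e2 := (Metric.mem_ball.1 (hVs hb)).trans_le (min_le_right _ _)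
        have := dist_triangle_right a b x'
        linarith
      obtain ⟨y, hy⟩ := hloc V (isOpen_of_mem_countableBasis hV) ⟨x', hxV⟩
      obtain ⟨y', hy'1, x'', hx'', rfl⟩ :=
        mem_closure_iff.1 (interior_subset hy) _ isOpen_interior hy
      refine ⟨f x'', (hcl (subset_closure hx'')).1.1, Or.inr ?_⟩
      exact mem_iUnion₂.2 ⟨V, hR, hy'1⟩
    · obtain ⟨y, hy⟩ := hZn
      refine ⟨y, hy, Or.inl fun hc => h1 ?_⟩
      exact mem_closure_iff.1 hc _ hZ hy
  have hres : (⋂ n, ⋂ U ∈ B, O n U) ∈ residual Y := by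
    rw [countable_iInter_mem]
    intro n
    rw [countable_bInter_mem hBc]
    exact fun U hU => residual_of_dense_open (hOo n U) (hOd n U hU)
  refine mem_of_superset hres fun y hy => ?_
  simp only [mem_iInter] at hy
  have step : ∀ n (U : {U : Set X // U ∈ B ∧ y ∈ W U}),
      ∃ V : {U : Set X // U ∈ B ∧ y ∈ W U}, R n U.1 V.1 := by
    intro n U
    rcases hy n U.1 U.2.1 with h | h
    · exact absurd (subset_closure U.2.2) h
    · obtain ⟨V, hR, hV⟩ := mem_iUnion₂.1 h
      exact ⟨⟨V, hR.1, hV⟩, hR⟩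
  choose nxt hnxt using step
  have h0 : y ∈ W univ := by
    simp only [W, image_univ, hd.closure_range, interior_univ, mem_univ]
  let u : ℕ → {U : Set X // U ∈ B ∧ y ∈ W U} := fun n =>
    Nat.rec ⟨univ, Or.inl rfl, h0⟩ (fun n U => nxt n U) n
  have hu : ∀ n, R n (u n).1 (u (n + 1)).1 := fun n => hnxt n (u n)
  have hanti : Antitone fun n => (u n).1 :=
    antitone_nat_of_succ_le fun n z hz => ((hu n).2.1 (subset_closure hz)).1
  have hne : ∀ n, ((u n).1).Nonempty := fun n => by
    have := interior_subset (u n).2.2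
    exact (closure_nonempty_iff.1 ⟨y, this⟩).of_image
  choose x hx using hne
  have hcau : CauchySeq x := by
    rw [Metric.cauchySeq_iff']
    intro ε hε
    obtain ⟨n, hn⟩ := exists_nat_one_div_lt hε
    exact ⟨n + 1, fun m hm => ((hu n).2.2 _ (hanti hm (hx m)) _ (hx (n + 1))).trans_lt hn⟩
  obtain ⟨z, hz⟩ := cauchySeq_tendsto_of_complete hcau
  have hzc : ∀ n, z ∈ closure (u n).1 := fun n =>
    mem_closure_of_tendsto hz (eventually_atTop.2 ⟨n, fun m hm => hanti hm (hx m)⟩)
  have hzu : ∀ n, z ∈ (u n).1 ∩ D n := fun n => (hu n).2.1 (hzc (n + 1))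
  refine ⟨z, hSG fun s hs => ?_, ?_⟩
  · have : s ∈ range D := hD ▸ mem_insert_of_mem _ hs
    obtain ⟨n, rfl⟩ := this
    exact (hzu n).2
  · refine (Specializes.inseparable ?_).symm
    rw [specializes_iff_pure, pure_le_iff]
    intro C hC
    obtain ⟨C', hC', hcl, hsub⟩ := exists_mem_nhds_isClosed_subset hC
    obtain ⟨r, hr, hball⟩ := Metric.mem_nhds_iff.1 (hf.continuousAt.preimage_mem_nhds hC')
    obtain ⟨n, hn⟩ := exists_nat_one_div_lt hr
    refine hsub (closure_minimal ?_ hcl (interior_subset (u (n + 1)).2.2))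
    rintro _ ⟨a, ha, rfl⟩
    exact hball (((hu n).2.2 _ ha _ (hzu (n + 1)).1).trans_lt hn)

end Pool.Agent.Lib.MP_86b0a6_an
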