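import Pool.Agent.Lib.MP_86b0a6_an.Iso

namespace Pool.Agent.Lib.MP_86b0a6_an

open Set Filter Topology MeasureTheory unitInterval
open scoped ENNReal

lemma comp_congr {A B E : Type*} [MeasurableSpace A] [MeasurableSpace B] {μ : Measure A}
    {ν : Measure B} [NormedAddCommGroup E] {p : ℝ≥0∞} {f g : A → B}
    (hf : MeasurePreserving f μ ν) (hg : MeasurePreserving g μ ν) (h : f =ᵐ[μ] g)
    (F : Lp E p ν) : Lp.compMeasurePreserving f hf F = Lp.compMeasurePreserving g hg F := by
  apply Lp.ext
  filter_upwards [Lp.coeFn_compMeasurePreserving F hf, Lp.coeFn_compMeasurePreserving F hg, h]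
    with x h1 h2 h3
  rw [h1, h2, Function.comp_apply, Function.comp_apply, h3]

lemma integrable_dist {B Y : Type*} [MeasurableSpace B] {m : Measure B} [IsFiniteMeasure m]
    [PseudoMetricSpace Y] [CompactSpace Y] [MeasurableSpace Y] [BorelSpace Y]
    [SecondCountableTopology Y] {S T : B → Y} (hS : Measurable S) (hT : Measurable T) :
    Integrable (fun b => dist (S b) (T b)) m := by
  refine Integrable.of_bound (hS.dist hT).aestronglyMeasurable (Metric.diam (univ : Set Y)) ?_
  refine Eventually.of_forall fun b => ?_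
  rw [Real.norm_eq_abs, abs_of_nonneg dist_nonneg]
  exact Metric.dist_le_diam_of_mem isCompact_univ.isBounded (mem_univ _) (mem_univ _)

/-- Uniform continuity of composition operators in the transformation. -/
theorem koop_unif {B Y E : Type*} [MeasurableSpace B] {m : Measure B} [IsProbabilityMeasure m]
    [PseudoMetricSpace Y] [CompactSpace Y] [MeasurableSpace Y] [BorelSpace Y]
    [SecondCountableTopology Y] {ν : Measure Y} [IsProbabilityMeasure ν]
    [NormedAddCommGroup E] [NormedSpace ℝ E] {p : ℝ≥0∞} [hp1 : Fact (1 ≤ p)] (hp : p ≠ ∞)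
    (F : Lp E p ν) {ε : ℝ} (hε : 0 < ε) :
    ∃ δ > 0, ∀ (S T : B → Y) (hS : MeasurePreserving S m ν) (hT : MeasurePreserving T m ν),
      ∫ b, dist (S b) (T b) ∂m < δ →
      dist (Lp.compMeasurePreserving S hS F) (Lp.compMeasurePreserving T hT F) < ε := by
  obtain ⟨G, hG⟩ := (ContinuousMap.toLp_denseRange E ν ℝ hp).exists_dist_lt F
    (show 0 < ε / 4 by positivity)
  obtain ⟨δ1, hδ1, hunif⟩ := Metric.uniformContinuous_iff.1
    (CompactSpace.uniformContinuous_of_continuous G.continuous) (ε / 8) (by positivity)
  obtain ⟨η, hη, hind⟩ := exists_eLpNorm_indicator_le (μ := m) hp (2 * ‖G‖ : ℝ)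
    (ε := ENNReal.ofReal (ε / 8)) (by simpa using hε)
  refine ⟨δ1 * η, by positivity, fun S T hS hT hST => ?_⟩
  set G' := ContinuousMap.toLp p ν ℝ G with hG'
  have h1 : dist (Lp.compMeasurePreserving S hS F) (Lp.compMeasurePreserving S hS G') < ε / 4 := by
    rwa [(Lp.isometry_compMeasurePreserving hS).dist_eq]
  have h2 : dist (Lp.compMeasurePreserving T hT G') (Lp.compMeasurePreserving T hT F) < ε / 4 := by
    rwa [(Lp.isometry_compMeasurePreserving hT).dist_eq, dist_comm]
  have h3 : dist (Lp.compMeasurePreserving S hS G') (Lp.compMeasurePreserving T hT G')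
      ≤ ε / 4 := by
    set A := {b | δ1 ≤ dist (S b) (T b)} with hA
    have hAm : MeasurableSet A :=
      measurableSet_le measurable_const (hS.measurable.dist hT.measurable)
    have hA1 : m A ≤ η := by
      have := mul_meas_ge_le_integral_of_nonneg (μ := m) (f := fun b => dist (S b) (T b))
        (Eventually.of_forall fun b => dist_nonneg)
        (integrable_dist hS.measurable hT.measurable) δ1
      have h4 : m.real A ≤ η := le_of_mul_le_mul_left (this.trans hST.le) hδ1
      rw [← ofReal_measureReal, ← ENNReal.ofReal_coe_nnreal]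
      exact ENNReal.ofReal_le_ofReal h4
    rw [Lp.dist_def]
    refine ENNReal.toReal_le_of_le_ofReal (by positivity) ?_
    have hGae := ContinuousMap.coeFn_toLp (p := p) (𝕜 := ℝ) ν G
    have hb : ∀ᵐ b ∂m, ‖(⇑(Lp.compMeasurePreserving S hS G') -
        ⇑(Lp.compMeasurePreserving T hT G')) b‖ ≤
        ((fun _ => ε / 8) + A.indicator (fun _ => 2 * ‖G‖) : B → ℝ) b := by
      filter_upwards [Lp.coeFn_compMeasurePreserving G' hS, Lp.coeFn_compMeasurePreserving G' hT,
        hS.quasiMeasurePreserving.ae hGae, hT.quasiMeasurePreserving.ae hGae] with b e1 e2 e3 e4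
      rw [Pi.sub_apply, e1, e2, Function.comp_apply, Function.comp_apply, e3, e4, Pi.add_apply]
      by_cases hb : b ∈ A
      · rw [indicator_of_mem hb]
        have := norm_sub_le (G (S b)) (G (T b))
        linarith [G.norm_coe_le_norm (S b), G.norm_coe_le_norm (T b)]
      · rw [indicator_of_notMem hb, add_zero, ← dist_eq_norm]
        exact (hunif (not_le.1 hb)).le
    refine (eLpNorm_mono_ae_real hb).trans ((eLpNorm_add_le aestronglyMeasurable_const
      (aestronglyMeasurable_const.indicator hAm) hp1.out).trans ?_)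
    have e : ENNReal.ofReal (ε / 4) = ENNReal.ofReal (ε / 8) + ENNReal.ofReal (ε / 8) := by
      rw [← ENNReal.ofReal_add (by positivity) (by positivity)]; congr 1; ring
    rw [e]
    refine add_le_add ?_ (hind A hA1)
    refine (eLpNorm_le_of_ae_bound (C := ε / 8) (Eventually.of_forall fun b => ?_)).trans (by simp)
    rw [Real.norm_eq_abs, abs_of_pos (by positivity)]
  have := dist_triangle4 (Lp.compMeasurePreserving S hS F) (Lp.compMeasurePreserving S hS G')
    (Lp.compMeasurePreserving T hT G') (Lp.compMeasurePreserving T hT F)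
  linarith

/-- Measure preserving self-maps of the unit interval. -/
abbrev MP (f : I → I) : Prop := MeasurePreserving f volume volume

lemma memLp_coe : MemLp (fun x : I => (x : ℝ)) 1 volume :=
  MemLp.of_bound measurable_subtype_coe.aestronglyMeasurable 1
    (Eventually.of_forall fun x => by rw [Real.norm_eq_abs, abs_of_nonneg x.2.1]; exact x.2.2)

/-- The coordinate function as an integrable function. -/
noncomputable def coeL : Lp ℝ 1 (volume : Measure I) := memLp_coe.toLp _

lemma coeFn_comp_coeL {B : Type*} [MeasurableSpace B] {m : Measure B} {f : B → I}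
    (hf : MeasurePreserving f m volume) :
    Lp.compMeasurePreserving f hf coeL =ᵐ[m] fun b => (f b : ℝ) :=
  (Lp.coeFn_compMeasurePreserving _ hf).trans
    (hf.quasiMeasurePreserving.ae_eq_comp memLp_coe.coeFn_toLp)

/-- Classes of measure preserving maps, inside the space of integrable functions. -/
def GG : Type :=
  {F : Lp ℝ 1 (volume : Measure I) // ∃ (f : I → I) (hf : MP f),
    Lp.compMeasurePreserving f hf coeL = F}

noncomputable instance : MetricSpace GG := Subtype.metricSpace

instance : SecondCountableTopology GG := by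
  have : Fact ((1 : ℝ≥0∞) ≠ ∞) := ⟨by simp⟩
  exact TopologicalSpace.Subtype.secondCountableTopology _

/-- The class of a measure preserving map. -/
noncomputable def mk (f : I → I) (hf : MP f) : GG := ⟨_, f, hf, rfl⟩

/-- A representative of a class. -/
noncomputable def rep (u : GG) : I → I := u.2.choose

lemma rep_mp (u : GG) : MP (rep u) := u.2.choose_spec.choose

lemma mk_rep (u : GG) : mk (rep u) (rep_mp u) = u := Subtype.ext u.2.choose_spec.choose_spec

lemma dist_comp_coeL {B : Type*} [MeasurableSpace B] {m : Measure B} {f g : B → I}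
    (hf : MeasurePreserving f m volume) (hg : MeasurePreserving g m volume) :
    dist (Lp.compMeasurePreserving f hf coeL) (Lp.compMeasurePreserving g hg coeL) =
      ∫ b, dist (f b) (g b) ∂m := by
  rw [L1.dist_eq_integral_dist]
  refine integral_congr_ae ?_
  filter_upwards [coeFn_comp_coeL hf, coeFn_comp_coeL hg] with b h1 h2
  rw [h1, h2]
  rfl

lemma dist_mk {f g : I → I} (hf : MP f) (hg : MP g) :
    dist (mk f hf) (mk g hg) = ∫ x, dist (f x) (g x) := dist_comp_coeL hf hg

lemma mk_eq_iff {f g : I → I} (hf : MP f) (hg : MP g) : mk f hf = mk g hg ↔ f =ᵐ[volume] g := by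
  constructor
  · intro h
    have h1 : Lp.compMeasurePreserving f hf coeL = Lp.compMeasurePreserving g hg coeL :=
      congrArg Subtype.val h
    have h2 := coeFn_comp_coeL hf
    rw [h1] at h2
    filter_upwards [h2, coeFn_comp_coeL hg] with x e1 e2
    exact Subtype.ext (e1.symm.trans e2)
  · intro h
    exact Subtype.ext (comp_congr hf hg h _)

lemma rep_mk {f : I → I} (hf : MP f) : rep (mk f hf) =ᵐ[volume] f :=
  (mk_eq_iff _ _).1 (mk_rep _)

lemma GG.ind {P : GG → Prop} (h : ∀ f hf, P (mk f hf)) (u : GG) : P u := mk_rep u ▸ h _ _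

noncomputable instance : Mul GG := ⟨fun u v => mk (rep u ∘ rep v) ((rep_mp u).comp (rep_mp v))⟩

noncomputable instance : One GG := ⟨mk id (MeasurePreserving.id _)⟩

lemma one_def : (1 : GG) = mk id (MeasurePreserving.id _) := rfl

lemma mk_mul_mk {f g : I → I} (hf : MP f) (hg : MP g) :
    mk f hf * mk g hg = mk (f ∘ g) (hf.comp hg) := by
  refine (mk_eq_iff _ _).2 ?_
  filter_upwards [rep_mk hg, hg.quasiMeasurePreserving.ae (rep_mk hf)] with x h1 h2
  rw [Function.comp_apply, h1, h2, Function.comp_apply]

noncomputable instance : Monoid GG where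
  mul_assoc u v w := by
    induction u using GG.ind
    induction v using GG.ind
    induction w using GG.ind
    simp only [mk_mul_mk]
    rfl
  one_mul u := by
    induction u using GG.ind
    rw [one_def, mk_mul_mk]
    rfl
  mul_one u := by
    induction u using GG.ind
    rw [one_def, mk_mul_mk]
    rfl

lemma mul_val (u : GG) {g : I → I} (hg : MP g) :
    (u * mk g hg).1 = Lp.compMeasurePreserving g hg u.1 := by
  induction u using GG.ind with
  | h f hf =>
    rw [mk_mul_mk]
    exact Lp.compMeasurePreserving_comp_apply coeL hf hg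

lemma dist_val (u v : GG) : dist u v = dist u.1 v.1 := rfl

lemma dist_mul_right (u v w : GG) : dist (u * w) (v * w) = dist u v := by
  induction w using GG.ind with
  | h g hg =>
    rw [dist_val, mul_val, mul_val, (Lp.isometry_compMeasurePreserving hg).dist_eq]
    rfl

lemma mul_left_unif (u : GG) {ε : ℝ} (hε : 0 < ε) :
    ∃ δ > 0, ∀ v w : GG, dist v w < δ → dist (u * v) (u * w) < ε := by
  obtain ⟨δ, hδ, h⟩ := koop_unif (m := (volume : Measure I)) (by simp) u.1 hε
  refine ⟨δ, hδ, fun v w => ?_⟩
  induction v using GG.ind with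
  | h f hf =>
    induction w using GG.ind with
    | h g hg =>
      intro hd
      rw [dist_val, mul_val, mul_val]
      exact h f g hf hg (by rwa [dist_mk] at hd)

instance : ContinuousMul GG := by
  refine ⟨continuous_prod_of_continuous_lipschitzWith (fun x : GG × GG => x.1 * x.2) 1
    (fun u => ?_) fun w => LipschitzWith.of_dist_le_mul fun u v => by simp [dist_mul_right]⟩
  rw [Metric.continuous_iff]
  intro v ε hε
  obtain ⟨δ, hδ, h⟩ := mul_left_unif u hε
  exact ⟨δ, hδ, fun w hw => h w v hw⟩

lemma dist_le_one (u v : GG) : dist u v ≤ 1 := by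
  induction u using GG.ind with
  | h f hf =>
    induction v using GG.ind with
    | h g hg =>
      rw [dist_mk]
      calc ∫ x, dist (f x) (g x) ≤ ∫ _ : I, (1 : ℝ) :=
            integral_mono (integrable_dist hf.measurable hg.measurable) (integrable_const _)
              fun x => by
                change |(f x : ℝ) - g x| ≤ 1
                rw [abs_le]
                constructor <;> linarith [(f x).2.1, (f x).2.2, (g x).2.1, (g x).2.2]
        _ = 1 := by simp

instance : CompleteSpace GG := by
  refine IsClosed.completeSpace_coe (hs := ?_)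
  rw [← isSeqClosed_iff_isClosed]
  intro F G hF hFG
  choose f hf hfF using hF
  obtain ⟨ns, -, hns⟩ := (tendstoInMeasure_of_tendsto_Lp hFG).exists_seq_tendsto_ae
  let g : I → I := fun x => projIcc 0 1 zero_le_one (G x)
  have hgm : Measurable g :=
    continuous_projIcc.measurable.comp (Lp.stronglyMeasurable G).measurable
  have hall : ∀ᵐ x : I, ∀ n, F n x = f n x :=
    ae_all_iff.2 fun n => hfF n ▸ coeFn_comp_coeL (hf n)
  have hlim : ∀ᵐ x : I, Tendsto (fun i => f (ns i) x) atTop (𝓝 (g x)) ∧ (g x : ℝ) = G x := by
    filter_upwards [hall, hns] with x h1 h2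
    simp only [h1] at h2
    have h3 : G x ∈ Icc (0 : ℝ) 1 :=
      isClosed_Icc.mem_of_tendsto h2 (Eventually.of_forall fun i => (f (ns i) x).2)
    have h4 : (g x : ℝ) = G x := by simp only [g, projIcc_of_mem _ h3]
    exact ⟨tendsto_subtype_rng.2 (h4 ▸ h2), h4⟩
  have hg : MP g := by
    refine ⟨hgm, ext_of_forall_integral_eq_of_IsFiniteMeasure fun φ => ?_⟩
    rw [integral_map hgm.aemeasurable φ.continuous.aestronglyMeasurable]
    have h1 : Tendsto (fun i => ∫ x, φ (f (ns i) x)) atTop (𝓝 (∫ x, φ (g x))) := by
      refine tendsto_integral_of_dominated_convergence (fun _ => ‖φ‖) (fun i => ?_)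
        (integrable_const _) (fun i => Eventually.of_forall fun x => φ.norm_coe_le_norm _) ?_
      · exact (φ.continuous.measurable.comp (hf _).measurable).aestronglyMeasurable
      · exact hlim.mono fun x hx => (φ.continuous.tendsto _).comp hx.1
    have h2 : ∀ i, ∫ x, φ (f (ns i) x) = ∫ x, φ x := fun i => by
      conv_rhs => rw [← (hf (ns i)).map_eq]
      rw [integral_map (hf _).measurable.aemeasurable φ.continuous.aestronglyMeasurable]
    simp only [h2] at h1
    exact tendsto_nhds_unique h1 tendsto_const_nhds
  refine ⟨g, hg, Lp.ext ?_⟩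
  exact (coeFn_comp_coeL hg).trans (hlim.mono fun x hx => hx.2)

/-- Inverses of nearby invertible elements are near. -/
lemma inv_unif {u v : GG} (huv : v * u = 1) {ε : ℝ} (hε : 0 < ε) :
    ∃ δ > 0, ∀ u' v' : GG, v' * u' = 1 → dist u' u < δ → dist v' v < ε := by
  obtain ⟨δ, hδ, h⟩ := mul_left_unif v hε
  refine ⟨δ, hδ, fun u' v' h' hd => ?_⟩
  rw [← dist_mul_right v' v u', h', ← huv, dist_comm]
  exact h _ _ hd

end Pool.Agent.Lib.MP_86b0a6_an
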