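import Pool.Agent.Lib.MP_86b0a6_an.Indep

namespace Pool.Agent.Lib.MP_86b0a6_an

open Set Filter Topology

theorem distinct_shift (k : ℕ) (ι : Type) [Fintype ι] (w R : ℕ) : ∃ N : ℕ, ∀ (D : ℕ) (v : ι → ℝ) (M : ℝ),
    ∀ᶠ Λ : ℝ in atTop, ∀ t : Fin k → ℝ, (∀ l, 0 < t l) → (∀ l, t l ≤ M) → Function.Injective t →
      ∃ Bad : Finset (Fin D), Bad.card ≤ N ∧ ∀ i i' : Fin k → Fin D, Function.Injective i →
        Function.Injective i' → (∀ l, i l ∉ Bad) → (∀ l, i' l ∉ Bad) →
        ∀ m m' : Fin k → ι → ℤ, (∀ l, Mark w (m l)) → (∀ l, Mark w (m' l)) →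
        ∀ n : Fin k → ℤ, (∀ l, |n l| ≤ R) → ∀ z : ℤ,
          ∑ l, ∑ r, m l r * (t l * speed D v Λ (i l) r) -
            ∑ l, ∑ r, m' l r * (t l * speed D v Λ (i' l) r) + ∑ l, t l * n l = z →
            i = i' ∧ m = m' := by
  classical
  let W : Finset ℤ := Finset.Icc (-(2 * w)) (2 * w)
  let Z1 : Finset (Fin k → ℤ) := Fintype.piFinset fun _ => W
  let Z2 : Finset (((Fin k → ι → ℤ) × (Fin k → ℤ)) × ℤ) :=
    ((Fintype.piFinset fun _ => Fintype.piFinset fun _ => W) ×ˢ
      Fintype.piFinset fun _ => Finset.Icc (-(R : ℤ)) R) ×ˢ Finset.Icc (-1) 0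
  refine ⟨(Z1.card + Z2.card) ^ 2, fun D v M => ?_⟩
  filter_upwards [eventually_ge_atTop 1,
    eventually_gt_atTop ((Fintype.card (Option (Fin D × ι)) : ℝ) ^ 2),
    eventually_gt_atTop (2 * (k * (Fintype.card ι * (w * M))))] with Λ hΛ1 hΛ2 hΛ3 t ht0 htM ht
  let e : Option (Fin D × ι) → ℕ := fun s => s.elim 0 fun s => Fintype.equivFin (Fin D × ι) s + 1
  have he : Function.Injective e := by
    rintro (_ | a) (_ | b) h
    · rfl
    · simp [e] at h
    · simp [e] at h
    · simp only [e, Option.elim_some, add_left_inj] at h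
      rw [(Fintype.equivFin _).injective (Fin.ext h)]
  let C : Finset ℝ := Z1.image (fun z => ∑ l, t l * z l) ∪
    Z2.image fun z => Int.fract (∑ l, ∑ r, z.1.1 l r * (t l * v r) + ∑ l, t l * z.1.2 l) + z.2
  obtain ⟨Bad, hB1, hB2, hB3⟩ := lacunary he hΛ1 hΛ2 C
  refine ⟨Bad.eraseNone.image Prod.fst, ?_, fun i i' hi hi' hb hb' m m' hm hm' n hn z hz => ?_⟩
  · refine Finset.card_image_le.trans ((Finset.card_eraseNone_le _).trans (hB1.trans ?_))
    exact Nat.pow_le_pow_left ((Finset.card_union_le _ _).trans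
      (add_le_add Finset.card_image_le Finset.card_image_le)) 2
  set x : ℝ := ∑ l, ∑ r, ((m l r - m' l r : ℤ) : ℝ) * (t l * v r) + ∑ l, t l * n l with hx
  let Y : (Fin k → Fin D) → (Fin k → ι → ℤ) → ℝ := fun i m =>
    ∑ l, ∑ r, m l r * (t l * mu Λ (e (some (i l, r))))
  have hY : ∀ i m, (∀ l, Mark w (m l)) → |Y i m| ≤ k * (Fintype.card ι * (w * M)) / Λ := by
    intro i m hm
    refine (Finset.abs_sum_le_sum_abs _ _).trans ?_
    refine (Finset.sum_le_card_nsmul _ _ (Fintype.card ι * (w * M) / Λ) fun l _ => ?_).trans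
      (by simp [mul_div_assoc])
    refine (Finset.abs_sum_le_sum_abs _ _).trans ?_
    refine (Finset.sum_le_card_nsmul _ _ ((w * M) / Λ) fun r _ => ?_).trans
      (by simp [mul_div_assoc])
    rw [abs_mul, abs_of_pos (mul_pos (ht0 l) (mu_pos hΛ1 _)), mul_div_assoc, div_eq_mul_one_div M]
    have h1 : |(m l r : ℝ)| ≤ w := by exact_mod_cast (hm l).1 r
    have h2 := mu_succ_le hΛ1 (Fintype.equivFin (Fin D × ι) (i l, r))
    exact mul_le_mul h1 (mul_le_mul (htM l) h2 (mu_pos hΛ1 _).le ((ht0 l).le.trans (htM l)))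
      (mul_pos (ht0 l) (mu_pos hΛ1 _)).le (Nat.cast_nonneg _)
  have hz' : x - z + (Y i m - Y i' m') = 0 := by
    rw [← hz, hx]
    simp only [Y, speed, e, Option.elim_some, mul_add, Finset.sum_add_distrib, Int.cast_sub,
      sub_mul, Finset.sum_sub_distrib]
    ring
  have hy1 : |x - z| < 1 := by
    have h1 : x - z = -(Y i m - Y i' m') := by linarith
    have h2 := abs_sub (Y i m) (Y i' m')
    have h3 : 2 * (k * (Fintype.card ι * (w * M)) / Λ) < 1 := by
      rw [← mul_div_assoc, div_lt_one (by linarith)]; exact hΛ3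
    rw [h1, abs_neg]
    linarith [hY i m hm, hY i' m' hm']
  let zz : Fin D × ι → Fin k → ℤ := fun s l =>
    (if i l = s.1 then m l s.2 else 0) - (if i' l = s.1 then m' l s.2 else 0)
  let c : Option (Fin D × ι) → ℝ := fun s => s.elim (x - z) fun s => ∑ l, t l * zz s l
  have hW : ∀ a b : ℤ, |a| ≤ w → |b| ≤ w → a - b ∈ W := fun a b ha hb => by
    rw [abs_le] at ha hb
    exact Finset.mem_Icc.2 ⟨by omega, by omega⟩
  have hYs : ∀ (i : Fin k → Fin D) (m : Fin k → ι → ℤ), Y i m =
      ∑ s : Fin D × ι, (∑ l, t l * ((if i l = s.1 then m l s.2 else 0 : ℤ) : ℝ)) *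
        mu Λ (e (some s)) := by
    intro i m
    simp only [Y, Finset.sum_mul]
    rw [Finset.sum_comm (s := Finset.univ) (t := (Finset.univ : Finset (Fin k)))]
    refine Finset.sum_congr rfl fun l _ => ?_
    rw [Fintype.sum_prod_type, Finset.sum_eq_single (i l)]
    · simp only [if_true]
      exact Finset.sum_congr rfl fun r _ => by ring
    · intro a _ ha
      simp [ha.symm]
    · simp
  have hc0 := hB3 c ?_ ?_ ?_
  · have key : ∀ l l', i' l' = i l → ∀ r, t l * m l r = t l' * m' l' r := by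
      intro l l' h r
      have h1 := hc0 (some (i l, r))
      simp only [c, zz, Option.elim_some, Int.cast_sub, mul_sub, Finset.sum_sub_distrib] at h1
      rw [Finset.sum_eq_single l (fun b _ hb => by simp [hi.ne hb]) (by simp),
        Finset.sum_eq_single l' (fun b _ hb => by simp [← h, hi'.ne hb]) (by simp)] at h1
      simpa [h, sub_eq_zero] using h1
    have key2 : ∀ l, i' l = i l ∧ m l = m' l := by
      intro l
      obtain ⟨r, hr⟩ := (hm l).2
      obtain ⟨l', hl'⟩ : ∃ l', i' l' = i l := by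
        by_contra h
        push Not at h
        have h1 := hc0 (some (i l, r))
        simp only [c, zz, Option.elim_some, h, if_false, sub_zero] at h1
        rw [Finset.sum_eq_single l (fun b _ hb => by simp [hi.ne hb]) (by simp)] at h1
        simp [hr, (ht0 l).ne'] at h1
      obtain ⟨r', hr'⟩ := (hm' l').2
      have h1 := key l l' hl' r
      have h2 := key l l' hl' r'
      rw [hr, Int.cast_one, mul_one] at h1
      rw [hr', Int.cast_one, mul_one] at h2
      have h3 : (0 : ℝ) < m' l' r := by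
        by_contra h
        nlinarith [ht0 l, ht0 l']
      have h4 : (0 : ℝ) < m l r' := by
        by_contra h
        nlinarith [ht0 l, ht0 l']
      have h3' : (1 : ℝ) ≤ m' l' r := by exact_mod_cast h3
      have h4' : (1 : ℝ) ≤ m l r' := by exact_mod_cast h4
      have h5 : l = l' := ht (le_antisymm (by nlinarith [ht0 l]) (by nlinarith [ht0 l']))
      subst h5
      refine ⟨hl', funext fun r => ?_⟩
      exact_mod_cast mul_left_cancel₀ (ht0 l).ne' (key l l hl' r)
    exact ⟨funext fun l => (key2 l).1.symm, funext fun l => (key2 l).2⟩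
  · rintro (_ | s)
    · refine Finset.mem_union_right _ (Finset.mem_image.2
        ⟨((fun l r => m l r - m' l r, n), ⌊x⌋ - z), ?_, ?_⟩)
      · refine Finset.mem_product.2 ⟨Finset.mem_product.2 ⟨Fintype.mem_piFinset.2 fun l =>
          Fintype.mem_piFinset.2 fun r => hW _ _ ((hm l).1 r) ((hm' l).1 r),
          Fintype.mem_piFinset.2 fun l => Finset.mem_Icc.2 (abs_le.1 (hn l))⟩, ?_⟩
        rw [abs_lt] at hy1
        have h1 : z - 1 ≤ ⌊x⌋ := Int.le_floor.2 (by push_cast; linarith)
        have h2 : ⌊x⌋ < z + 1 := Int.floor_lt.2 (by push_cast; linarith)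
        exact Finset.mem_Icc.2 ⟨by simp only; omega, by simp only; omega⟩
      · simp only [c, Option.elim_none, ← hx, Int.fract]
        push_cast
        ring
    · refine Finset.mem_union_left _ (Finset.mem_image.2 ⟨zz s, ?_, rfl⟩)
      refine Fintype.mem_piFinset.2 fun l => hW _ _ ?_ ?_
      · split_ifs
        exacts [(hm l).1 _, by simp]
      · split_ifs
        exacts [(hm' l).1 _, by simp]
  · rintro (_ | s) hs
    · exact absurd rfl (hB2 _ hs)
    · have h1 : s.1 ∈ Bad.eraseNone.image Prod.fst :=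
        Finset.mem_image.2 ⟨s, Finset.mem_eraseNone.2 hs, rfl⟩
      have h2 : ∀ l, i l ≠ s.1 := fun l h => hb l (h ▸ h1)
      have h3 : ∀ l, i' l ≠ s.1 := fun l h => hb' l (h ▸ h1)
      simp [c, zz, h2, h3]
  · rw [Fintype.sum_option, ← hz', hYs, hYs, ← Finset.sum_sub_distrib]
    simp only [c, zz, e, Option.elim_none, Option.elim_some, mu_zero, mul_one, Int.cast_sub,
      mul_sub, Finset.sum_sub_distrib, sub_mul]

end Pool.Agent.Lib.MP_86b0a6_an
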