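import Pool.Agent.Lib.MP_86b0a6_an.Torus

namespace Pool.Agent.Lib.MP_86b0a6_an

open Set Filter Topology MeasureTheory Polynomial

lemma ph_add (a b : ℝ) : ph (a + b) = ph a * ph b := by
  simp only [ph, Complex.ofReal_add, add_mul, Complex.exp_add]

lemma ph_zero : ph 0 = 1 := by simp [ph]

lemma norm_ph (a : ℝ) : ‖ph a‖ = 1 := by
  rw [ph, show (a : ℂ) * (2 * Real.pi * Complex.I) = ((a * (2 * Real.pi) : ℝ) : ℂ) * Complex.I by
    push_cast; ring]
  exact Complex.norm_exp_ofReal_mul_I _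

lemma ph_int (z : ℤ) : ph z = 1 := by
  rw [ph]
  exact_mod_cast Complex.exp_int_mul_two_pi_mul_I z

lemma continuous_ph : Continuous ph := by
  unfold ph
  fun_prop

lemma norm_ph_sub_one (a : ℝ) : ‖ph a - 1‖ ≤ 8 * |a| := by
  rw [ph, show (a : ℂ) * (2 * Real.pi * Complex.I) = Complex.I * ((a * (2 * Real.pi) : ℝ) : ℂ) by
    push_cast; ring]
  refine Real.norm_exp_I_mul_ofReal_sub_one_le.trans ?_
  rw [Real.norm_eq_abs, abs_mul, abs_of_pos (by positivity : (0 : ℝ) < 2 * Real.pi)]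
  nlinarith [Real.pi_le_four, abs_nonneg a]

/-- A trigonometric kernel concentrated near zero. -/
lemma exists_kernel {δ η : ℝ} (hδ : 0 < δ) (hη : 0 < η) : ∃ (A : Finset ℤ) (w : ℤ → ℂ),
    ∀ {E : Type} [NormedAddCommGroup E] [NormedSpace ℂ E] [CompleteSpace E] (f : ℝ → E)
      (z : E) (R r : ℝ), Continuous f → (∀ s, ‖f s‖ ≤ R) → (∀ s, |s| ≤ δ → ‖f s - z‖ ≤ r) →
      ‖(∫ s in (-(1 / 2) : ℝ)..(1 / 2), (∑ n ∈ A, w n * ph (n * s)) • f s) - z‖ ≤ r + η * R := by
  let b : ℝ → ℝ := fun s => max 0 (δ - |s|)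
  have hb : Continuous b := by fun_prop
  have hb0 : ∀ s, 0 ≤ b s := fun s => le_max_left _ _
  have hle : (-(1 / 2) : ℝ) ≤ 1 / 2 := by norm_num
  have hc : 0 < ∫ s in (-(1 / 2) : ℝ)..(1 / 2), b s := by
    refine intervalIntegral.integral_pos (by norm_num) hb.continuousOn (fun s _ => hb0 s)
      ⟨0, by norm_num, ?_⟩
    simp [b, hδ]
  set c := ∫ s in (-(1 / 2) : ℝ)..(1 / 2), b s with hcdef
  let B : C(TT, ℂ) := ⟨fun x => ((max 0 (δ - ‖x‖) / c : ℝ) : ℂ), by fun_prop⟩
  have hB : B ∈ (Submodule.span ℂ (range (@fourier 1))).topologicalClosure := by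
    rw [span_fourier_closure_eq_top]; trivial
  obtain ⟨p, hp, hpB⟩ := Metric.mem_closure_iff.1 hB η hη
  obtain ⟨w, rfl⟩ := (Finsupp.mem_span_range_iff_exists_finsupp).1 hp
  refine ⟨w.support, w, fun {E} _ _ _ f z R r hf hR hr => ?_⟩
  have hK : ∀ s : ℝ, |s| ≤ 1 / 2 →
      ‖(∑ n ∈ w.support, w n * ph (n * s)) - ((b s / c : ℝ) : ℂ)‖ ≤ η := by
    intro s hs
    have h1 := (ContinuousMap.dist_apply_le_dist (f := B)
      (g := w.sum fun i a => a • fourier i) (s : TT)).trans hpB.le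
    rw [dist_comm, dist_eq_norm, Finsupp.sum, ContinuousMap.coe_sum, Finset.sum_apply] at h1
    simp only [ContinuousMap.smul_apply, smul_eq_mul, fourier_coe_ph] at h1
    have h2 : ‖(s : TT)‖ = |s| := (AddCircle.norm_coe_eq_abs_iff (p := 1) one_ne_zero).2
      (by simpa using hs)
    simpa only [B, ContinuousMap.coe_mk, h2] using h1
  have hKc : Continuous fun s : ℝ => ∑ n ∈ w.support, w n * ph (n * s) :=
    continuous_finsetSum _ fun n _ => continuous_const.mul (continuous_ph.comp (by fun_prop))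
  have hbc : Continuous fun s : ℝ => ((b s / c : ℝ) : ℂ) := by fun_prop
  have h1 : ∫ s in (-(1 / 2) : ℝ)..(1 / 2), ((b s / c : ℝ) : ℂ) • z = z := by
    rw [intervalIntegral.integral_smul_const, intervalIntegral.integral_ofReal,
      intervalIntegral.integral_div, div_self hc.ne']
    simp
  have h2 : (∫ s in (-(1 / 2) : ℝ)..(1 / 2), (∑ n ∈ w.support, w n * ph (n * s)) • f s) - z =
      ∫ s in (-(1 / 2) : ℝ)..(1 / 2), (((b s / c : ℝ) : ℂ) • (f s - z) +
        ((∑ n ∈ w.support, w n * ph (n * s)) - ((b s / c : ℝ) : ℂ)) • f s) := by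
    conv_lhs => rw [← h1]
    rw [← intervalIntegral.integral_sub ((hKc.fun_smul hf).intervalIntegrable _ _)
      ((hbc.fun_smul continuous_const).intervalIntegrable _ _)]
    refine intervalIntegral.integral_congr fun s _ => ?_
    simp only [smul_sub, sub_smul]
    abel
  rw [h2]
  have h3 : ∫ s in (-(1 / 2) : ℝ)..(1 / 2), (b s / c * r + η * R) = r + η * R := by
    rw [intervalIntegral.integral_add (by apply Continuous.intervalIntegrable; fun_prop)
      (by apply Continuous.intervalIntegrable; fun_prop), intervalIntegral.integral_mul_const,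
      intervalIntegral.integral_div, div_self hc.ne']
    simp
    norm_num
  rw [← h3]
  refine intervalIntegral.norm_integral_le_of_norm_le hle (Eventually.of_forall fun s hs => ?_)
    (by apply Continuous.intervalIntegrable; fun_prop)
  refine (norm_add_le _ _).trans (add_le_add ?_ ?_)
  · rw [norm_smul, Complex.norm_real, Real.norm_eq_abs, abs_of_nonneg (div_nonneg (hb0 s) hc.le)]
    by_cases h : |s| ≤ δ
    · exact mul_le_mul_of_nonneg_left (hr s h) (div_nonneg (hb0 s) hc.le)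
    · have : b s = 0 := max_eq_left (by linarith [not_le.1 h])
      simp [this]
  · rw [norm_smul]
    exact mul_le_mul (hK s (abs_le.2 ⟨hs.1.le, hs.2⟩)) (hR s) (norm_nonneg _) hη.le

section Smooth

variable {E : Type} [NormedAddCommGroup E] [InnerProductSpace ℂ E] [CompleteSpace E]

/-- A Fourier coefficient along a one parameter family. -/
noncomputable def pc (V : ℝ → E →L[ℂ] E) (μ : ℝ) (x : E) : E :=
  ∫ s in (-(1 / 2) : ℝ)..(1 / 2), ph (-(μ * s)) • V s x

variable {V : ℝ → E →L[ℂ] E}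

omit [CompleteSpace E] in
lemma pc_cont (hc : ∀ x, Continuous fun s => V s x) (μ : ℝ) (x : E) :
    Continuous fun s => ph (-(μ * s)) • V s x :=
  (continuous_ph.comp (by fun_prop)).smul (hc x)

omit [CompleteSpace E] in
lemma norm_pc_le (hn : ∀ s x, ‖V s x‖ = ‖x‖) (μ : ℝ) (x : E) : ‖pc V μ x‖ ≤ ‖x‖ := by
  refine (intervalIntegral.norm_integral_le_of_norm_le_const (C := ‖x‖) fun s _ => ?_).trans_eq ?_
  · rw [norm_smul, norm_ph, hn, one_mul]
  · norm_num

lemma map_pc (hc : ∀ x, Continuous fun s => V s x) (T : E →L[ℂ] E)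
    (hT : ∀ s x, T (V s x) = V s (T x)) (μ : ℝ) (x : E) : T (pc V μ x) = pc V μ (T x) := by
  rw [pc, ← T.intervalIntegral_comp_comm ((pc_cont hc μ x).intervalIntegrable _ _)]
  simp only [map_smul, hT, pc]

lemma pc_sub_smul (hc : ∀ x, Continuous fun s => V s x) (μ : ℝ) (θ : ℂ) (x y : E) :
    pc V μ (x - θ • y) = pc V μ x - θ • pc V μ y := by
  rw [pc, pc, pc, ← intervalIntegral.integral_smul, ← intervalIntegral.integral_sub
    ((pc_cont hc μ x).intervalIntegrable _ _)
    (((pc_cont hc μ y).fun_const_smul θ).intervalIntegrable _ _)]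
  refine intervalIntegral.integral_congr fun s _ => ?_
  simp only [map_sub, map_smul, smul_sub, smul_comm θ]

lemma pc_mem (hc : ∀ x, Continuous fun s => V s x) {K : Submodule ℂ E} (μ : ℝ) {x : E}
    (hx : ∀ s, V s x ∈ Kᗮ) : pc V μ x ∈ Kᗮ := by
  refine (Submodule.mem_orthogonal _ _).2 fun u hu => ?_
  rw [pc, ← innerSL_apply_apply, ← (innerSL ℂ u).intervalIntegral_comp_comm
    ((pc_cont hc μ x).intervalIntegrable _ _)]
  simp only [innerSL_apply_apply, inner_smul_right,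
    (Submodule.mem_orthogonal _ _).1 (hx _) u hu, mul_zero, intervalIntegral.integral_zero]

lemma pc_eigen (hc : ∀ x, Continuous fun s => V s x) (hn : ∀ s x, ‖V s x‖ = ‖x‖)
    (ha : ∀ s t x, V (s + t) x = V s (V t x)) (μ t : ℝ) (x : E) :
    ‖V t (pc V μ x) - ph (μ * t) • pc V μ x‖ ≤ |t| * ‖V 1 x - ph μ • x‖ := by
  set g : ℝ → E := fun s => ph (-(μ * s)) • V s x with hg
  have hgc : Continuous g := pc_cont hc μ x
  have hi : ∀ a b, IntervalIntegrable g volume a b := fun a b => hgc.intervalIntegrable a b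
  have h1 : V t (pc V μ x) = ph (μ * t) • ∫ s in (-(1 / 2) + t)..(1 / 2 + t), g s := by
    rw [pc, ← (V t).intervalIntegral_comp_comm (hi _ _), ← intervalIntegral.integral_comp_add_right,
      ← intervalIntegral.integral_smul]
    refine intervalIntegral.integral_congr fun s _ => ?_
    simp only [hg, map_smul, smul_smul, ← ph_add, ← ha]
    rw [show -(μ * s) = μ * t + -(μ * (s + t)) by ring, add_comm t s]
  have h2 : (∫ s in (-(1 / 2) + t)..(1 / 2 + t), g s) - pc V μ x =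
      ∫ s in (-(1 / 2) : ℝ)..(-(1 / 2) + t), (g (s + 1) - g s) := by
    have hg1 : Continuous fun s => g (s + 1) := hgc.comp (by fun_prop)
    rw [pc, intervalIntegral.integral_interval_sub_interval_comm' (hi _ _) (hi _ _) (hi _ _),
      intervalIntegral.integral_sub (hg1.intervalIntegrable _ _) (hi _ _),
      intervalIntegral.integral_comp_add_right]
    congr 2 <;> ring
  rw [h1, ← smul_sub, norm_smul, norm_ph, one_mul, h2]
  refine (intervalIntegral.norm_integral_le_of_norm_le_const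
    (C := ‖V 1 x - ph μ • x‖) fun s _ => ?_).trans_eq (by rw [add_sub_cancel_left, mul_comm])
  have h3 : g (s + 1) - g s = ph (-(μ * (s + 1))) • V s (V 1 x - ph μ • x) := by
    simp only [hg, map_sub, map_smul, smul_sub, smul_smul, ← ph_add, ← ha]
    congr 3
    ring
  rw [h3, norm_smul, norm_ph, hn, one_mul]

omit [CompleteSpace E] in
lemma aeval_near (q : ℂ[X]) : ∃ L : ℝ, 0 ≤ L ∧ ∀ (W : E →L[ℂ] E), (∀ x, ‖W x‖ = ‖x‖) →
    ∀ (θ : ℂ) (x : E), ‖θ‖ = 1 → ‖aeval W q x - q.eval θ • x‖ ≤ L * ‖W x - θ • x‖ := by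
  refine ⟨∑ n ∈ Finset.range (q.natDegree + 1), ‖q.coeff n‖ * n, by positivity,
    fun W hW θ x hθ => ?_⟩
  have hp : ∀ n : ℕ, ‖(W ^ n) x - θ ^ n • x‖ ≤ n * ‖W x - θ • x‖ := by
    intro n
    induction n with
    | zero => simp
    | succ n ih =>
      have e : (W ^ (n + 1)) x - θ ^ (n + 1) • x =
          W ((W ^ n) x - θ ^ n • x) + θ ^ n • (W x - θ • x) := by
        rw [pow_succ', mul_apply_eq_comp, map_sub, map_smul, smul_sub, smul_smul, pow_succ]
        abel
      rw [e]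
      refine (norm_add_le _ _).trans ?_
      rw [hW, norm_smul, norm_pow, hθ, one_pow]
      rw [Nat.cast_succ]
      linarith
  rw [aeval_eq_sum_range, eval_eq_sum_range, sum_apply, Finset.sum_smul,
    ← Finset.sum_sub_distrib, Finset.sum_mul]
  refine norm_sum_le_of_le _ fun n _ => ?_
  rw [smul_apply, mul_smul, ← smul_sub, norm_smul, mul_assoc]
  exact mul_le_mul_of_nonneg_left (hp n) (norm_nonneg _)

omit [CompleteSpace E] in
lemma norm_sum_orth {σ : Type} (S : Finset σ) (x : σ → E)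
    (ho : ∀ s ∈ S, ∀ s' ∈ S, s ≠ s' → inner ℂ (x s) (x s') = 0) (c : σ → ℂ) :
    ‖∑ s ∈ S, c s • x s‖ ^ 2 = ∑ s ∈ S, ‖c s‖ ^ 2 * ‖x s‖ ^ 2 := by
  classical
  induction S using Finset.induction_on with
  | empty => simp
  | insert a S ha ih =>
    rw [Finset.sum_insert ha, Finset.sum_insert ha, ← ih fun s hs s' hs' =>
      ho s (Finset.mem_insert_of_mem hs) s' (Finset.mem_insert_of_mem hs'), sq,
      norm_add_sq_eq_norm_sq_add_norm_sq_of_inner_eq_zero (𝕜 := ℂ), norm_smul]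
    · ring
    · rw [inner_sum]
      refine Finset.sum_eq_zero fun s hs => ?_
      rw [inner_smul_left, inner_smul_right, ho a (Finset.mem_insert_self _ _) s
        (Finset.mem_insert_of_mem hs) (fun h => ha (h ▸ hs)), mul_zero, mul_zero]

omit [CompleteSpace E] in
lemma norm_sum_mono {σ : Type} (S : Finset σ) (x : σ → E)
    (ho : ∀ s ∈ S, ∀ s' ∈ S, s ≠ s' → inner ℂ (x s) (x s') = 0) (c d : σ → ℂ) {ρ : ℝ}
    (hρ : 0 ≤ ρ) (hd : ∀ s ∈ S, ‖d s‖ ≤ ρ) :
    ‖∑ s ∈ S, (c s * d s) • x s‖ ≤ ρ * ‖∑ s ∈ S, c s • x s‖ := by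
  refine le_of_sq_le_sq ?_ (by positivity)
  rw [mul_pow, norm_sum_orth S x ho, norm_sum_orth S x ho, Finset.mul_sum]
  refine Finset.sum_le_sum fun s hs => ?_
  have h1 : ‖d s‖ ^ 2 ≤ ρ ^ 2 := pow_le_pow_left₀ (norm_nonneg _) (hd s hs) 2
  rw [norm_mul, mul_pow]
  nlinarith [mul_nonneg (sq_nonneg ‖c s‖) (sq_nonneg ‖x s‖)]

end Smooth

end Pool.Agent.Lib.MP_86b0a6_an
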