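import Pool.Agent.Lib.MP_86b0a6_an.EvSmooth

namespace Pool.Agent.Lib.MP_86b0a6_an

open Set Filter Topology MeasureTheory unitInterval Polynomial

variable {k : ℕ}

lemma koop_mul (u v : Fin k → GG) (F : LL k) :
    koop (fun l => u l * v l) F = koop v (koop u F) := by
  have h : (fun l => u l * v l) = fun l => mk (rep (u l) ∘ rep (v l))
      ((rep_mp (u l)).comp (rep_mp (v l))) := rfl
  rw [h, koop_mk, koop_apply, koop_apply, ← Lp.compMeasurePreserving_comp_apply]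
  rfl

lemma norm_koop (u : Fin k → GG) (F : LL k) : ‖koop u F‖ = ‖F‖ :=
  (Lp.compMeasurePreservingₗᵢ ℂ (fun (x : Fin k → I) l => rep (u l) (x l))
    (mp_pi fun l => rep_mp (u l))).norm_map F

lemma koop_mem {u v : Fin k → GG} (h : ∀ l, v l * u l = 1) {F : LL k} (hF : F ∈ HH k) :
    koop u F ∈ HH k := by
  refine mem_HH.2 fun l g hg hi => ?_
  have hm := mp_pi fun l => rep_mp (v l)
  have h1 : koop u (koop v (hg.toLp g)) = hg.toLp g := by
    rw [← koop_mul, show (fun l => v l * u l) = fun _ => 1 from funext h, koop_one]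
  have h2 : koop v (hg.toLp g) = (hg.comp_measurePreserving hm).toLp _ := by
    rw [koop_apply]
    apply Lp.ext
    exact ((Lp.coeFn_compMeasurePreserving _ _).trans
      (hm.quasiMeasurePreserving.ae_eq_comp hg.coeFn_toLp)).trans (MemLp.coeFn_toLp _).symm
  rw [← h1, inner_koop, h2]
  refine mem_HH.1 hF l _ _ fun x y => ?_
  simp only [Function.comp_apply]
  rw [← hi (fun l => rep (v l) (x l)) (rep (v l) y)]
  congr 1
  funext l'
  by_cases h' : l' = l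
  · subst h'; simp
  · simp [Function.update_of_ne h']

lemma IsFlow.rep {Φ : C(ℝ, GG)} (h : IsFlow Φ) : ∃ K : Submodule ℂ (LL k), HH k = Kᗮ ∧
    Rep (fun u : Fin k → ℝ => koop fun l => Φ (u l)) K := by
  refine ⟨_, rfl, fun x => ?_, fun u v x => ?_, fun u x => norm_koop _ x, fun x => ?_,
    fun u x hx => koop_mem (v := fun l => Φ (-u l)) (fun l => h.neg_mul _) hx⟩
  · simp only [Pi.zero_apply, h.zero, koop_one]
  · rw [← koop_mul]
    simp only [Pi.add_apply, ← h.add, add_comm]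
  · exact continuous_koop.comp (continuous_const.prodMk (by fun_prop))

/-- A modulus of continuity of a flow at a vector. -/
def Mod (Φ : C(ℝ, GG)) (G : LL k) (δ ω : ℝ) : Prop :=
  ∀ (l : Fin k) (u : ℝ), |u| ≤ δ →
    ‖koop (fun l' => Φ ((Pi.single l u : Fin k → ℝ) l')) G - G‖ ≤ ω

lemma exists_interp {β ι : Type} (S : Finset β) (B : Finset ι) (θ : β → ι → ℂ) (r : β → ℂ)
    (h : ∀ s ∈ S, ∀ s' ∈ S, ∀ n ∈ B, ∀ n' ∈ B, θ s n = θ s' n' → s = s') :
    ∃ q : ℂ[X], ∀ s ∈ S, ∀ n ∈ B, q.eval (θ s n) = r s := by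
  classical
  let f : ℂ → ℂ := fun z => if hz : ∃ s ∈ S, ∃ n ∈ B, θ s n = z then r hz.choose else 0
  refine ⟨Lagrange.interpolate ((S ×ˢ B).image fun p => θ p.1 p.2) id f, fun s hs n hn => ?_⟩
  have h1 := Lagrange.eval_interpolate_at_node (s := (S ×ˢ B).image fun p => θ p.1 p.2)
    (v := id) f (Function.injective_id.injOn)
    (Finset.mem_image.2 ⟨(s, n), Finset.mem_product.2 ⟨hs, hn⟩, rfl⟩)
  have hz : ∃ s' ∈ S, ∃ n' ∈ B, θ s' n' = θ s n := ⟨s, hs, n, hn, rfl⟩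
  obtain ⟨h2, n', h3, h4⟩ := hz.choose_spec
  refine h1.trans ?_
  simp only [f, dif_pos hz]
  rw [h _ h2 s hs n' h3 n hn h4]

lemma le_sum_sum {β ι : Type} {S : Finset β} {B : Finset ι} (f : β → ι → ℝ)
    (hf : ∀ s n, 0 ≤ f s n) {s : β} {n : ι} (hs : s ∈ S) (hn : n ∈ B) :
    f s n ≤ ∑ s ∈ S, ∑ n ∈ B, f s n :=
  (Finset.single_le_sum (fun n _ => hf s n) hn).trans (Finset.single_le_sum
    (f := fun s => ∑ n ∈ B, f s n) (fun s _ => Finset.sum_nonneg fun n _ => hf s n) hs)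

theorem local_every {δ η ω ε0 ε : ℝ} (hδ : 0 ≤ δ) (hη0 : 0 ≤ η) (hη : η ≤ 1) (hε0 : 0 < ε0)
    {A : Finset ℤ} {w : ℤ → ℂ} {N : ℕ} (hA : ∀ n ∈ A, |n| ≤ N)
    (hker : ∀ (f : ℝ → LL k) (z : LL k) (R r : ℝ), Continuous f → (∀ s, ‖f s‖ ≤ R) →
      (∀ s, |s| ≤ δ → ‖f s - z‖ ≤ r) →
      ‖(∫ s in (-(1 / 2) : ℝ)..(1 / 2), (∑ n ∈ A, w n * ph (n * s)) • f s) - z‖ ≤ r + η * R)
    {G h : LL k} (hε : 2 * ε0 + k * (ω + 2 ^ k * (4 * δ + η) * (‖G‖ + ‖h‖ + 2 * ε0)) ≤ ε)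
    (T0 : GG) (t0 : Fin k → ℝ) {β : Type} (S : Finset β) (x : β → LL k) (lam : β → Fin k → ℝ)
    (ho : ∀ s ∈ S, ∀ s' ∈ S, s ≠ s' → inner ℂ (x s) (x s') = 0) (hx : ∀ s ∈ S, x s ∈ HH k)
    (hl : ∀ s ∈ S, ∀ l, |lam s l| ≤ 1 / 2)
    (he : ∀ s ∈ S, ∀ l, koop (Function.update (fun _ => 1) l T0) (x s) = ph (lam s l) • x s)
    (hsep : ∀ s ∈ S, ∀ s' ∈ S, ∀ n n' : Fin k → ℤ, (∀ l, |n l| ≤ N) → (∀ l, |n' l| ≤ N) →
      ph (∑ l, t0 l * (lam s l + n l)) = ph (∑ l, t0 l * (lam s' l + n' l)) → s = s')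
    {y z : LL k} (hy : y ∈ Submodule.span ℂ (x '' S)) (hz : z ∈ Submodule.span ℂ (x '' S))
    (hyG : ‖G - y‖ < ε0) (hzh : ‖h - z‖ < ε0) :
    ∀ᶠ p : GG × (Fin k → ℝ) in 𝓝 (T0, t0), ∀ Φ : C(ℝ, GG), IsFlow Φ → Φ 1 = p.1 →
      Mod Φ G δ ω → Mod Φ h δ ω → Req (fun l => Φ (p.2 l)) G h ε := by
  classical
  obtain ⟨a0, rfl⟩ := (Submodule.mem_span_image_finset_iff_exists_fun' ℂ).1 hy
  obtain ⟨b, rfl⟩ := (Submodule.mem_span_image_finset_iff_exists_fun' ℂ).1 hz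
  obtain ⟨a, ha1, ha2⟩ : ∃ a : β → ℂ, ‖∑ s ∈ S, a s • x s - G‖ < ε0 ∧ ∀ s ∈ S, a s ≠ 0 := by
    have hc : Continuous fun η : ℂ => ‖∑ s ∈ S, (a0 s + η) • x s - G‖ := by fun_prop
    have hd : Dense ((fun s => -a0 s) '' (S : Set β))ᶜ :=
      (S.finite_toSet.image _).countable.dense_compl ℂ
    obtain ⟨η, hη1, hη2⟩ := hd.inter_open_nonempty _ (isOpen_lt hc continuous_const)
      ⟨0, show _ < ε0 by simpa [norm_sub_rev] using hyG⟩
    exact ⟨_, hη1, fun s hs h => hη2 ⟨s, hs, by linear_combination -h⟩⟩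
  let Bx : Finset (Fin k → ℤ) := Fintype.piFinset fun _ => Finset.Icc (-(N : ℤ)) N
  have hBx : ∀ n, n ∈ Bx ↔ ∀ l, |n l| ≤ N := fun n => by simp [Bx, abs_le]
  let θ : (Fin k → ℝ) → β → (Fin k → ℤ) → ℂ := fun t s n => ph (∑ l, t l * (lam s l + n l))
  obtain ⟨q, hq⟩ := exists_interp S Bx (θ t0) (fun s => b s / a s) fun s hs s' hs' n hn n' hn' =>
    hsep s hs s' hs' n n' ((hBx n).1 hn) ((hBx n').1 hn')
  obtain ⟨L, hL0, hL⟩ := aeval_near (E := LL k) q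
  set C := (∑ m ∈ A, ‖w m‖) ^ k with hC
  let τ : GG → ℝ := fun T => ∑ s ∈ S, ∑ l,
    ‖koop (Function.update (fun _ => 1) l T) (x s) - ph (lam s l) • x s‖
  let γ : (Fin k → ℝ) → ℝ := fun t => ∑ s ∈ S, ∑ n ∈ Bx, ‖θ t s n - θ t0 s n‖
  have hτc : Continuous τ := continuous_finsetSum _ fun s _ => continuous_finsetSum _ fun l _ =>
    ((continuous_koop.comp (continuous_const.prodMk
      (continuous_const.update l continuous_id))).sub continuous_const).norm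
  have hγc : Continuous γ := continuous_finsetSum _ fun s _ => continuous_finsetSum _ fun n _ =>
    ((continuous_ph.comp (by fun_prop)).sub continuous_const).norm
  have hec : Continuous fun p : GG × (Fin k → ℝ) =>
      ∑ s ∈ S, ‖a s‖ * (L * (C * τ p.1 * ∑ l, |p.2 l| + γ p.2 * (C * ‖x s‖))) := by
    fun_prop
  have hτ0 : τ T0 = 0 := Finset.sum_eq_zero fun s hs => Finset.sum_eq_zero fun l _ => by
    rw [he s hs l, sub_self, norm_zero]
  have hγ0 : γ t0 = 0 := by simp [γ]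
  filter_upwards [(isOpen_lt hec continuous_const).mem_nhds
    (show ∑ s ∈ S, ‖a s‖ * (L * (C * τ T0 * ∑ l, |t0 l| + γ t0 * (C * ‖x s‖))) < ε0 by
      simpa [hτ0, hγ0] using hε0)] with p hp Φ hΦ h1 hG hh
  obtain ⟨K, hK, hU⟩ := hΦ.rep (k := k)
  have hs1 : ∀ l : Fin k, (fun l' => Φ ((Pi.single l 1 : Fin k → ℝ) l')) =
      Function.update (fun _ => 1) l p.1 := fun l => funext fun l' => by
    by_cases h' : l' = l
    · subst h'; simp [h1]
    · simp [Function.update_of_ne h', Pi.single_eq_of_ne h', hΦ.zero]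
  obtain ⟨ι, A', nn, X, h2, h3, h4, -, h5, -, h7⟩ := smooth hU (τ := τ p.1) hδ hη0 hη hA hker S x
    lam ho (fun s hs => hK ▸ hx s hs) hl (fun s hs l => by
      simp only [hs1]
      exact le_sum_sum (fun s l =>
        ‖koop (Function.update (fun _ => 1) l p.1) (x s) - ph (lam s l) • x s‖)
        (fun _ _ => norm_nonneg _) hs (Finset.mem_univ l)) p.2 Finset.univ
  simp only [Finset.card_univ, Fintype.card_fin, Finset.univ_sum_single, ← hC] at h4 h5 h7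
  have hk : (0 : ℝ) ≤ k * (2 ^ k * (4 * δ + η)) := by positivity
  have hnG := norm_nonneg G
  have hnh := norm_nonneg h
  refine ⟨∑ s ∈ S, a s • ∑ i ∈ A', X s i, hK ▸ Submodule.sum_mem _ fun s hs =>
    Submodule.smul_mem _ _ (Submodule.sum_mem _ fun i hi => h3 s hs i hi), ?_, q, ?_⟩
  · have b1 := norm_sub_norm_le (∑ s ∈ S, a s • x s) G
    have b2 := mul_le_mul_of_nonneg_left
      (show ‖∑ s ∈ S, a s • x s‖ ≤ ‖G‖ + ‖h‖ + 2 * ε0 by linarith) hk
    linarith [h7 a G ω hG]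
  · rw [norm_sub_rev] at hzh
    have b1 := norm_sub_norm_le (∑ s ∈ S, b s • x s) h
    have b2 := mul_le_mul_of_nonneg_left
      (show ‖∑ s ∈ S, b s • x s‖ ≤ ‖G‖ + ‖h‖ + 2 * ε0 by linarith) hk
    have b3 := h7 b h ω hh
    have b4 : ‖aeval (koop fun l => Φ (p.2 l)) q (∑ s ∈ S, a s • ∑ i ∈ A', X s i) -
        ∑ s ∈ S, b s • ∑ i ∈ A', X s i‖ ≤
        ∑ s ∈ S, ‖a s‖ * (L * (C * τ p.1 * ∑ l, |p.2 l| + γ p.2 * (C * ‖x s‖))) := by
      rw [map_sum, ← Finset.sum_sub_distrib]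
      refine norm_sum_le_of_le _ fun s hs => ?_
      have e : b s = a s * (b s / a s) := (mul_div_cancel₀ _ (ha2 s hs)).symm
      rw [e, mul_smul, map_smul, ← smul_sub, norm_smul, map_sum, Finset.smul_sum,
        ← Finset.sum_sub_distrib]
      refine mul_le_mul_of_nonneg_left ?_ (norm_nonneg _)
      have hγ : 0 ≤ γ p.2 :=
        Finset.sum_nonneg fun _ _ => Finset.sum_nonneg fun _ _ => norm_nonneg _
      calc _ ≤ ∑ i ∈ A', L * (‖koop (fun l => Φ (p.2 l)) (X s i) - θ p.2 s (nn i) • X s i‖ +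
            γ p.2 * ‖X s i‖) := by
            refine norm_sum_le_of_le _ fun i hi => ?_
            have hi' := (hBx _).2 (h2 i hi)
            rw [← hq s hs _ hi']
            refine (hL _ (norm_koop _) _ _ (norm_ph _)).trans
              (mul_le_mul_of_nonneg_left ?_ hL0)
            refine (norm_sub_le_norm_sub_add_norm_sub _ (θ p.2 s (nn i) • X s i) _).trans
              (add_le_add le_rfl ?_)
            rw [← sub_smul, norm_smul]
            refine mul_le_mul_of_nonneg_right ?_ (norm_nonneg _)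
            exact le_sum_sum (fun s n => ‖θ p.2 s n - θ t0 s n‖) (fun _ _ => norm_nonneg _) hs hi'
        _ ≤ _ := by
            rw [← Finset.mul_sum, Finset.sum_add_distrib, ← Finset.mul_sum]
            exact mul_le_mul_of_nonneg_left (add_le_add (h5 s hs)
              (mul_le_mul_of_nonneg_left (h4 s hs) hγ)) hL0
    have b5 := norm_sub_le_norm_sub_add_norm_sub h (∑ s ∈ S, b s • ∑ i ∈ A', X s i)
      (aeval (koop fun l => Φ (p.2 l)) q (∑ s ∈ S, a s • ∑ i ∈ A', X s i))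
    rw [norm_sub_rev] at b3 b4
    have hp' : ∑ s ∈ S, ‖a s‖ * (L * (C * τ p.1 * ∑ l, |p.2 l| + γ p.2 * (C * ‖x s‖))) < ε0 := hp
    linarith

end Pool.Agent.Lib.MP_86b0a6_an
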