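import Pool.Agent.Lib.MP_86b0a6_an.Aut

namespace Pool.Agent.Lib.MP_86b0a6_an

open Set Filter Topology MeasureTheory unitInterval Polynomial
open scoped ENNReal

variable {k : ℕ}

lemma inner_toLp {g : (Fin k → I) → ℂ} (hg : MemLp g 2 (PI k)) {F : LL k} {f : (Fin k → I) → ℂ}
    (hf : F =ᵐ[PI k] f) : inner ℂ (hg.toLp g) F = ∫ x, f x * starRingEnd ℂ (g x) ∂(PI k) := by
  rw [L2.inner_def]
  refine integral_congr_ae ?_
  filter_upwards [hg.coeFn_toLp, hf] with x h1 h2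
  rw [h1, h2, RCLike.inner_apply]

lemma coeFn_koop_pow (S : Fin k → AA) (F : LL k) (n : ℕ) :
    (koop (fun l => jj (S l)) ^ n) F =ᵐ[PI k] fun x => F fun l => (S l).1^[n] (x l) := by
  induction n with
  | zero => exact Eventually.of_forall fun x => rfl
  | succ n ih =>
    rw [pow_succ', mul_apply_eq_comp]
    simp only [jj] at ih ⊢
    rw [koop_mk]
    exact (Lp.coeFn_compMeasurePreserving _ _).trans
      ((mp_pi fun l => (S l).2).quasiMeasurePreserving.ae_eq_comp ih)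

lemma eLpNorm_lt (S : Fin k → AA) (F : LL k) {h : (Fin k → I) → ℂ} (hh : MemLp h 2 (PI k))
    (q : ℂ[X]) {ε : ℝ} (H : ‖hh.toLp h - aeval (koop fun l => jj (S l)) q F‖ < ε) :
    ∃ N : Finset ℤ, ∃ c : ℤ → ℂ, eLpNorm (fun x : Fin k → I => h x - ∑ n ∈ N, c n *
      F (fun i : Fin k => (⇑(((S i).1.toEquiv : Equiv.Perm I) ^ n)) (x i))) 2 (PI k) <
        ENNReal.ofReal ε := by
  refine ⟨(Finset.range (q.natDegree + 1)).map Nat.castEmbedding, fun z => q.coeff z.toNat, ?_⟩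
  rw [Lp.norm_def, ← ENNReal.lt_ofReal_iff_toReal_lt (Lp.eLpNorm_ne_top _)] at H
  refine lt_of_eq_of_lt (eLpNorm_congr_ae ?_) H
  rw [aeval_eq_sum_range, sum_apply]
  filter_upwards [Lp.coeFn_sub (hh.toLp h) (∑ n ∈ Finset.range (q.natDegree + 1),
      (q.coeff n • koop (fun l => jj (S l)) ^ n) F), hh.coeFn_toLp,
    Lp.coeFn_fun_finsetSum (Finset.range (q.natDegree + 1))
      fun n => (q.coeff n • koop (fun l => jj (S l)) ^ n) F,
    ae_all_iff.2 fun n => coeFn_koop_pow S F n,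
    ae_all_iff.2 fun n => Lp.coeFn_smul (q.coeff n) ((koop (fun l => jj (S l)) ^ n) F)]
    with x h1 h2 h3 h4 h5
  rw [h1, Pi.sub_apply, h2, h3, Finset.sum_map]
  congr 1
  refine Finset.sum_congr rfl fun n _ => ?_
  rw [smul_apply, h5, Pi.smul_apply, h4]
  simp only [Nat.castEmbedding_apply, Int.toNat_natCast, zpow_natCast, Equiv.Perm.coe_pow,
    smul_eq_mul]
  rfl

lemma tendsto_symmDiff {S : ℝ → AA} (h : Continuous fun s => jj (S s)) {A : Set I}
    (hA : MeasurableSet A) (t₀ : ℝ) :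
    Tendsto (fun s => volume (symmDiff ((S s).1 '' A) ((S t₀).1 '' A))) (𝓝 t₀) (𝓝 0) := by
  have h1 := tendsto_iff_dist_tendsto_zero.1
    ((continuous_dd h (indicatorConstLp 1 hA (measure_ne_top _ _) 1)).tendsto t₀)
  simp only [dist_dd] at h1
  have h2 := ENNReal.tendsto_ofReal h1
  simpa only [ofReal_measureReal (measure_ne_top _ _), ENNReal.ofReal_zero] using h2

end Pool.Agent.Lib.MP_86b0a6_an
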