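import Pool.Agent.Lib.MP_86b0a6_an.EvSpec
import Pool.Agent.Lib.MP_86b0a6_an.EvLocal
import Pool.Agent.Lib.MP_86b0a6_an.Final

namespace Pool.Agent.Lib.MP_86b0a6_an

open Set Filter Topology MeasureTheory unitInterval Polynomial
open scoped ENNReal

variable {k : ℕ}

lemma Mod.mono {Φ : C(ℝ, GG)} {G : LL k} {δ δ' ω : ℝ} (h : Mod Φ G δ ω) (hδ : δ' ≤ δ) :
    Mod Φ G δ' ω := fun l u hu => h l u (hu.trans hδ)

lemma IsFlow.eventually_mod {Φ : C(ℝ, GG)} (hΦ : IsFlow Φ) (G : LL k) {ω : ℝ} (hω : 0 < ω) :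
    ∀ᶠ j : ℕ in atTop, Mod Φ G (1 / ((j : ℝ) + 1)) ω := by
  have h1 : ∀ᶠ u : ℝ in 𝓝 0, ∀ l : Fin k,
      ‖koop (fun l' => Φ ((Pi.single l u : Fin k → ℝ) l')) G - G‖ < ω := by
    refine eventually_all.2 fun l => ?_
    have hc : Continuous fun u : ℝ =>
        ‖koop (fun l' => Φ ((Pi.single l u : Fin k → ℝ) l')) G - G‖ :=
      ((continuous_koop.comp (continuous_const.prodMk (continuous_pi fun l' =>
        Φ.continuous.comp ((continuous_apply l').comp
          (continuous_single (A := fun _ : Fin k => ℝ) l))))).sub continuous_const).norm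
    exact (isOpen_lt hc continuous_const).mem_nhds (by simp [hΦ.zero, koop_one, hω])
  obtain ⟨d, hd, H⟩ := Metric.eventually_nhds_iff.1 h1
  filter_upwards [tendsto_one_div_add_atTop_nhds_zero_nat.eventually (gt_mem_nhds hd)]
    with j hj l u hu
  exact (H (by rw [Real.dist_eq, sub_zero]; exact hu.trans_lt hj) l).le

lemma exists_params (k : ℕ) {ε d : ℝ} (R : ℝ) (hε : 0 < ε) (hd : 0 < d) :
    ∃ c : ℝ, 0 < c ∧ c ≤ d ∧ c ≤ 1 ∧
      2 * (ε / 8) + k * (ε / (8 * (k + 1)) + 2 ^ k * (4 * c + c) * (R + 2 * (ε / 8))) ≤ ε := by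
  have hc : Continuous fun c : ℝ =>
      2 * (ε / 8) + k * (ε / (8 * (k + 1)) + 2 ^ k * (4 * c + c) * (R + 2 * (ε / 8))) := by
    fun_prop
  have h0 : (k : ℝ) * (ε / (8 * (k + 1))) ≤ ε / 8 := by
    rw [← mul_div_assoc, div_le_div_iff₀ (by positivity) (by positivity)]
    nlinarith
  have h1 : ∀ᶠ c : ℝ in 𝓝 0,
      2 * (ε / 8) + k * (ε / (8 * (k + 1)) + 2 ^ k * (4 * c + c) * (R + 2 * (ε / 8))) < ε :=
    (isOpen_lt hc continuous_const).mem_nhds (by
      simp only [mem_ofPred_eq, mul_zero, add_zero, zero_mul]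
      linarith)
  obtain ⟨c, ⟨⟨h2, h3⟩, h4⟩, h5⟩ := ((((h1.and (ge_mem_nhds hd)).and
    (ge_mem_nhds one_pos)).filter_mono (nhdsWithin_le_nhds (s := Ioi 0))).and
      self_mem_nhdsWithin).exists
  exact ⟨c, h5, h3, h4, h2.le⟩

/-- For a residual set of classes, every flow through the class is good. -/
theorem residual_every :
    {T : GG | ∀ Φ : C(ℝ, GG), IsFlow Φ → Φ 1 = T → Good Φ} ∈ residual GG := by
  have : Fact ((2 : ℝ≥0∞) ≠ ∞) := ⟨by simp⟩
  have : ∀ k, IsSeparable (PI k) := fun k => isSeparable_of_sigmaFinite _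
  have : ∀ k, SecondCountableTopology (LL k) := fun k => inferInstance
  have : ∀ k, SecondCountableTopology (HH k) := fun k =>
    TopologicalSpace.Subtype.secondCountableTopology _
  choose D hDc hDd using fun k => TopologicalSpace.exists_countable_dense (HH k)
  let K : (k : ℕ) → ℕ → Set (Fin k → ℝ) := fun k n =>
    Icc (fun _ => 1 / ((n : ℝ) + 1)) (fun _ => n) ∩
      ⋂ l, ⋂ l', ⋂ (_ : l ≠ l'), {t | 1 / ((n : ℝ) + 1) ≤ |t l - t l'|}
  have hK : ∀ k n, IsCompact (K k n) := fun k n =>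
    isCompact_Icc.inter_right (isClosed_iInter fun l => isClosed_iInter fun l' =>
      isClosed_iInter fun _ => isClosed_le continuous_const (by fun_prop))
  have h1 : ∀ᶠ T : GG in residual GG, ∀ k n, ∀ G ∈ D k, ∀ h ∈ D k, ∀ m j : ℕ,
      ∀ t ∈ K k n, ∀ Φ : C(ℝ, GG), IsFlow Φ → Φ 1 = T →
        Mod Φ (G : LL k) (1 / ((j : ℝ) + 1)) (1 / ((m : ℝ) + 1) / (8 * (k + 1))) →
        Mod Φ (h : LL k) (1 / ((j : ℝ) + 1)) (1 / ((m : ℝ) + 1) / (8 * (k + 1))) →
        Req (fun l => Φ (t l)) G h (1 / ((m : ℝ) + 1)) := by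
    refine eventually_countable_forall.2 fun k => eventually_countable_forall.2 fun n =>
      (eventually_countable_ball (hDc k)).2 fun G _ => (eventually_countable_ball (hDc k)).2
        fun h _ => eventually_countable_forall.2 fun m => eventually_countable_forall.2 fun j =>
          mem_of_superset (residual_of_dense_open isOpen_interior ?_) interior_subset
    refine dense_iff_inter_open.2 fun V hV ⟨R, hR⟩ => ?_
    obtain ⟨r, hr, hrV⟩ := Metric.isOpen_iff.1 hV R hR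
    obtain ⟨L, e, -, hL, -⟩ := king R one_pos 0 (half_pos hr)
    have hm : 0 < 1 / ((m : ℝ) + 1) := by positivity
    obtain ⟨c, hc0, hcj, hc1, hc⟩ := exists_params k (‖(G : LL k)‖ + ‖(h : LL k)‖) hm
      (show 0 < 1 / ((j : ℝ) + 1) by positivity)
    obtain ⟨A, w, hker⟩ := exists_kernel hc0 hc0
    obtain ⟨N, hA⟩ : ∃ N : ℕ, ∀ n ∈ A, |n| ≤ N := ⟨A.sup Int.natAbs, fun n hn => by
      have := Finset.le_sup (f := Int.natAbs) hn
      rw [Int.abs_eq_natAbs]
      exact_mod_cast this⟩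
    have hε0 : 0 < 1 / ((m : ℝ) + 1) / 8 := by positivity
    obtain ⟨Ψ, hΨ, H⟩ := spectral_data e L (U := {Φ | Φ 1 ∈ V}) (hV.preimage (by fun_prop))
      (hrV (hL.trans_lt (half_lt_self hr))) n G.2 h.2 hε0 N
    refine ⟨Ψ 1, hΨ, mem_interior_iff_mem_nhds.2 ?_⟩
    refine (hK k n).eventually_forall_of_forall_eventually fun t ht => ?_
    obtain ⟨β, S, x, lam, a1, a2, a3, a4, a5, ⟨y, hy, hyG⟩, z, hz, hzh⟩ := H t
      (fun l => lt_of_lt_of_le (by positivity) (ht.1.1 l)) (fun l => ht.1.2 l) (by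
        intro l l' hl
        by_contra hne
        have h4 := mem_iInter.1 (mem_iInter.1 (mem_iInter.1 ht.2 l) l') hne
        rw [mem_ofPred_eq, hl, sub_self, abs_zero] at h4
        exact absurd h4 (not_le.2 (by positivity)))
    exact (local_every hc0.le hc0.le hc1 hε0 hA hker hc (Ψ 1) t S x lam a1 a2 a3 a4 a5 hy hz
      hyG hzh).mono fun p hp Φ b1 b2 b3 b4 => hp Φ b1 b2 (b3.mono hcj) (b4.mono hcj)
  refine h1.mono fun T hT Φ hΦ hΦT k t ht0 ht => ?_
  have h2 : ∀ a : ℝ, 0 < a → ∀ᶠ n : ℕ in atTop, 1 / ((n : ℝ) + 1) ≤ a := fun a ha =>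
    tendsto_one_div_add_atTop_nhds_zero_nat.eventually (ge_mem_nhds ha)
  obtain ⟨n, ⟨a1, a2⟩, a3⟩ := (((eventually_all.2 fun l => h2 _ (ht0 l)).and
    (eventually_all.2 fun l => tendsto_natCast_atTop_atTop.eventually_ge_atTop (t l))).and
    (eventually_all.2 fun l => eventually_all.2 fun l' => eventually_all.2 fun h : l ≠ l' =>
      h2 _ (abs_pos.2 (sub_ne_zero.2 (ht.ne h))))).exists
  refine exists_cyclic _ (hDd k) (hDc k) fun G hG h hh m => ?_
  have hω : 0 < 1 / ((m : ℝ) + 1) / (8 * (k + 1)) := by positivity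
  obtain ⟨j, b1, b2⟩ := ((hΦ.eventually_mod (G : LL k) hω).and
    (hΦ.eventually_mod (h : LL k) hω)).exists
  exact hT k n G hG h hh m j t
    ⟨⟨a1, a2⟩, mem_iInter.2 fun l => mem_iInter.2 fun l' => mem_iInter.2 (a3 l l')⟩
    Φ hΦ hΦT b1 b2

end Pool.Agent.Lib.MP_86b0a6_an
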