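import Pool.Agent.Lib.MP_86b0a6_an.EvKer

namespace Pool.Agent.Lib.MP_86b0a6_an

open Set Filter Topology MeasureTheory Polynomial

variable {E : Type} [NormedAddCommGroup E] [InnerProductSpace ℂ E] [CompleteSpace E]

omit [CompleteSpace E] in
lemma pc_finsum {V : ℝ → E →L[ℂ] E} (hc : ∀ x, Continuous fun s => V s x) {ι : Type}
    (A : Finset ι) (μ : ℝ) (X : ι → E) : ∑ a ∈ A, pc V μ (X a) = pc V μ (∑ a ∈ A, X a) := by
  simp only [pc, map_sum, Finset.smul_sum]
  rw [intervalIntegral.integral_finsetSum fun a _ => (pc_cont hc μ (X a)).intervalIntegrable _ _]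

omit [CompleteSpace E] in
lemma pc_sum {V : ℝ → E →L[ℂ] E} (hc : ∀ x, Continuous fun s => V s x) {σ : Type}
    (S : Finset σ) (c : σ → ℂ) (lam : σ → ℝ) (Z : σ → E) (A : Finset ℤ) (w : ℤ → ℂ) :
    ∑ s ∈ S, c s • ∑ m ∈ A, w m • pc V (lam s - m) (Z s) =
      ∫ u in (-(1 / 2) : ℝ)..(1 / 2), (∑ m ∈ A, w m * ph (m * u)) •
        V u (∑ s ∈ S, (c s * ph (-(lam s * u))) • Z s) := by
  have h1 : ∀ s, ∑ m ∈ A, w m • pc V (lam s - m) (Z s) = ∫ u in (-(1 / 2) : ℝ)..(1 / 2),
      ∑ m ∈ A, w m • ph (-((lam s - m) * u)) • V u (Z s) := fun s => by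
    rw [intervalIntegral.integral_finsetSum fun (m : ℤ) _ =>
      ((pc_cont hc (lam s - m) (Z s)).fun_const_smul (w m)).intervalIntegrable _ _]
    simp only [intervalIntegral.integral_smul, pc]
  simp only [h1, ← intervalIntegral.integral_smul]
  rw [← intervalIntegral.integral_finsetSum fun s _ => ((continuous_finsetSum A fun (m : ℤ) _ =>
    (pc_cont hc (lam s - m) (Z s)).fun_const_smul (w m)).fun_const_smul (c s)).intervalIntegrable
      _ _]
  refine intervalIntegral.integral_congr fun u _ => ?_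
  simp only [map_sum, map_smul, Finset.smul_sum]
  refine Finset.sum_congr rfl fun s _ => ?_
  rw [Finset.sum_smul]
  refine Finset.sum_congr rfl fun m _ => ?_
  rw [show -((lam s - m) * u) = m * u + -(lam s * u) by ring, ph_add, smul_smul, smul_smul,
    smul_smul]
  congr 1
  ring

/-- A strongly continuous isometric action of a vector group that preserves `Kᗮ`. -/
structure Rep {k : ℕ} (U : (Fin k → ℝ) → E →L[ℂ] E) (K : Submodule ℂ E) : Prop where
  zero : ∀ x, U 0 x = x
  add : ∀ u v x, U (u + v) x = U u (U v x)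
  norm : ∀ u x, ‖U u x‖ = ‖x‖
  cont : ∀ x, Continuous fun u => U u x
  mem : ∀ u, ∀ x ∈ Kᗮ, U u x ∈ Kᗮ

theorem smooth {k : ℕ} {U : (Fin k → ℝ) → E →L[ℂ] E} {K : Submodule ℂ E} (hU : Rep U K)
    {δ η τ : ℝ} (hδ : 0 ≤ δ) (hη0 : 0 ≤ η) (hη : η ≤ 1) {A : Finset ℤ} {w : ℤ → ℂ} {N : ℕ}
    (hA : ∀ n ∈ A, |n| ≤ N)
    (hker : ∀ (f : ℝ → E) (z : E) (R r : ℝ), Continuous f → (∀ s, ‖f s‖ ≤ R) →
      (∀ s, |s| ≤ δ → ‖f s - z‖ ≤ r) →
      ‖(∫ s in (-(1 / 2) : ℝ)..(1 / 2), (∑ n ∈ A, w n * ph (n * s)) • f s) - z‖ ≤ r + η * R)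
    {σ : Type} (S : Finset σ) (x : σ → E) (lam : σ → Fin k → ℝ)
    (ho : ∀ s ∈ S, ∀ s' ∈ S, s ≠ s' → inner ℂ (x s) (x s') = 0) (hx : ∀ s ∈ S, x s ∈ Kᗮ)
    (hl : ∀ s ∈ S, ∀ l, |lam s l| ≤ 1 / 2)
    (hτ : ∀ s ∈ S, ∀ l, ‖U (Pi.single l 1) (x s) - ph (lam s l) • x s‖ ≤ τ) (t : Fin k → ℝ)
    (B : Finset (Fin k)) :
    ∃ (ι : Type) (A' : Finset ι) (nn : ι → Fin k → ℤ) (X : σ → ι → E),
      (∀ a ∈ A', ∀ l, |nn a l| ≤ N) ∧ (∀ s ∈ S, ∀ a ∈ A', X s a ∈ Kᗮ) ∧
      (∀ s ∈ S, ∑ a ∈ A', ‖X s a‖ ≤ (∑ m ∈ A, ‖w m‖) ^ B.card * ‖x s‖) ∧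
      (∀ s ∈ S, ∀ l, ∑ a ∈ A', ‖U (Pi.single l 1) (X s a) - ph (lam s l) • X s a‖ ≤
        (∑ m ∈ A, ‖w m‖) ^ B.card * τ) ∧
      (∀ s ∈ S, ∑ a ∈ A', ‖U (∑ l ∈ B, Pi.single l (t l)) (X s a) -
        ph (∑ l ∈ B, t l * (lam s l + nn a l)) • X s a‖ ≤
        (∑ m ∈ A, ‖w m‖) ^ B.card * τ * ∑ l ∈ B, |t l|) ∧
      (∀ c : σ → ℂ, ‖∑ s ∈ S, c s • ∑ a ∈ A', X s a‖ ≤ 2 ^ B.card * ‖∑ s ∈ S, c s • x s‖) ∧
      ∀ (c : σ → ℂ) (G : E) (ω : ℝ), (∀ l u, |u| ≤ δ → ‖U (Pi.single l u) G - G‖ ≤ ω) →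
        ‖∑ s ∈ S, c s • ∑ a ∈ A', X s a - G‖ ≤ ‖∑ s ∈ S, c s • x s - G‖ +
          B.card * (ω + 2 ^ k * (4 * δ + η) * ‖∑ s ∈ S, c s • x s‖) := by
  classical
  induction B using Finset.induction_on with
  | empty =>
    refine ⟨Unit, {()}, fun _ _ => 0, fun s _ => x s, by simp, fun s hs _ _ => hx s hs, by simp,
      by simpa using hτ, by simp [hU.zero, ph_zero], by simp, by simp⟩
  | insert l B hlB ih =>
    obtain ⟨ι, A', nn, X, h1, h2, h3, h4, h5, h6, h7⟩ := ih
    set C := ∑ m ∈ A, ‖w m‖ with hC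
    have hC0 : 0 ≤ C := by positivity
    let V : ℝ → E →L[ℂ] E := fun u => U (Pi.single l u)
    have hVc : ∀ y, Continuous fun u => V u y := fun y =>
      (hU.cont y).comp (continuous_single (A := fun _ : Fin k => ℝ) l)
    have hVn : ∀ u y, ‖V u y‖ = ‖y‖ := fun u y => hU.norm _ y
    have hVa : ∀ u v y, V (u + v) y = V u (V v y) := fun u v y => by
      simp only [V, Pi.single_add, hU.add]
    have hcomm : ∀ v u y, U v (V u y) = V u (U v y) := fun v u y => by
      simp only [V, ← hU.add, add_comm]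
    have hdef : ∀ v (θ : ℂ) μ y (c : ℂ), ‖U v (c • pc V μ y) - θ • c • pc V μ y‖ ≤
        ‖c‖ * ‖U v y - θ • y‖ := fun v θ μ y c => by
      rw [map_smul, smul_comm θ, ← smul_sub, norm_smul, map_pc hVc (U v) (hcomm v),
        ← pc_sub_smul hVc]
      exact mul_le_mul_of_nonneg_left (norm_pc_le hVn _ _) (norm_nonneg _)
    have hY : ∀ c : σ → ℂ, ∑ s ∈ S, c s • ∑ a ∈ A' ×ˢ A, w a.2 • pc V (lam s l - a.2) (X s a.1) =
        ∫ u in (-(1 / 2) : ℝ)..(1 / 2), (∑ m ∈ A, w m * ph (m * u)) •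
          V u (∑ s ∈ S, (c s * ph (-(lam s l * u))) • ∑ a ∈ A', X s a) := fun c => by
      rw [← pc_sum hVc S c (fun s => lam s l)]
      refine Finset.sum_congr rfl fun s _ => ?_
      rw [Finset.sum_product_right]
      simp only [← Finset.smul_sum, pc_finsum hVc]
    have hf : ∀ c : σ → ℂ, Continuous fun u =>
        V u (∑ s ∈ S, (c s * ph (-(lam s l * u))) • ∑ a ∈ A', X s a) := fun c => by
      simp only [map_sum, map_smul]
      exact continuous_finsetSum _ fun s _ => (continuous_const.mul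
        (continuous_ph.comp (by fun_prop))).smul (continuous_finsetSum _ fun a _ => hVc _)
    have hR : ∀ (c : σ → ℂ) u, ‖V u (∑ s ∈ S, (c s * ph (-(lam s l * u))) • ∑ a ∈ A', X s a)‖ ≤
        2 ^ B.card * ‖∑ s ∈ S, c s • x s‖ := fun c u => by
      rw [hVn]
      refine (h6 _).trans (mul_le_mul_of_nonneg_left ?_ (by positivity))
      exact (norm_sum_mono S x ho c _ zero_le_one fun s _ => (norm_ph _).le).trans_eq (one_mul _)
    rw [Finset.card_insert_of_notMem hlB]
    refine ⟨ι × ℤ, A' ×ˢ A, fun a => Function.update (nn a.1) l (-a.2),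
      fun s a => w a.2 • pc V (lam s l - a.2) (X s a.1), fun a ha l' => ?_, fun s hs a ha => ?_,
      fun s hs => ?_, fun s hs l' => ?_, fun s hs => ?_, fun c => ?_, fun c G ω hG => ?_⟩
    · by_cases h : l' = l
      · subst h
        simpa using hA _ (Finset.mem_product.1 ha).2
      · simpa [Function.update_of_ne h] using h1 _ (Finset.mem_product.1 ha).1 l'
    · exact Submodule.smul_mem _ _ (pc_mem hVc _ fun u =>
        hU.mem _ _ (h2 s hs _ (Finset.mem_product.1 ha).1))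
    · calc _ ≤ ∑ a ∈ A' ×ˢ A, ‖w a.2‖ * ‖X s a.1‖ := Finset.sum_le_sum fun a _ => by
            rw [norm_smul]
            exact mul_le_mul_of_nonneg_left (norm_pc_le hVn _ _) (norm_nonneg _)
        _ = C * ∑ a ∈ A', ‖X s a‖ := by rw [Finset.sum_product_right, Finset.sum_mul_sum]
        _ ≤ _ := by
            rw [pow_succ', mul_assoc]
            exact mul_le_mul_of_nonneg_left (h3 s hs) hC0
    · calc _ ≤ ∑ a ∈ A' ×ˢ A, ‖w a.2‖ * ‖U (Pi.single l' 1) (X s a.1) - ph (lam s l') • X s a.1‖ :=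
            Finset.sum_le_sum fun a _ => hdef _ _ _ _ _
        _ = C * ∑ a ∈ A', ‖U (Pi.single l' 1) (X s a) - ph (lam s l') • X s a‖ := by
            rw [Finset.sum_product_right, Finset.sum_mul_sum]
        _ ≤ _ := by
            rw [pow_succ', mul_assoc]
            exact mul_le_mul_of_nonneg_left (h4 s hs l') hC0
    · calc _ ≤ ∑ a ∈ A' ×ˢ A, ‖w a.2‖ * (‖U (∑ l ∈ B, Pi.single l (t l)) (X s a.1) -
              ph (∑ l ∈ B, t l * (lam s l + nn a.1 l)) • X s a.1‖ +
              |t l| * ‖U (Pi.single l 1) (X s a.1) - ph (lam s l) • X s a.1‖) := by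
            refine Finset.sum_le_sum fun a _ => ?_
            have e1 : ∑ l' ∈ B, t l' * (lam s l' + (Function.update (nn a.1) l (-a.2) l' : ℤ)) =
                ∑ l' ∈ B, t l' * (lam s l' + nn a.1 l') := Finset.sum_congr rfl fun l' hl' => by
              rw [Function.update_of_ne fun h : l' = l => hlB (h ▸ hl')]
            beta_reduce
            rw [Finset.sum_insert hlB, Finset.sum_insert hlB, e1, Function.update_self, hU.add,
              ph_add]
            set θ := ph (∑ l ∈ B, t l * (lam s l + nn a.1 l))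
            set Z := w a.2 • pc V (lam s l - a.2) (X s a.1) with hZ
            have e2 : U (Pi.single l (t l)) (U (∑ l ∈ B, Pi.single l (t l)) Z) -
                (ph (t l * (lam s l + ((-a.2 : ℤ) : ℝ))) * θ) • Z =
                V (t l) (U (∑ l ∈ B, Pi.single l (t l)) Z - θ • Z) +
                  θ • (V (t l) Z - ph ((lam s l - a.2) * t l) • Z) := by
              rw [map_sub, map_smul (V (t l)) θ Z, smul_sub, smul_smul θ, mul_comm θ,
                show t l * (lam s l + ((-a.2 : ℤ) : ℝ)) = (lam s l - a.2) * t l by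
                  push_cast; ring]
              simp only [V]
              abel
            rw [e2, mul_add]
            refine (norm_add_le _ _).trans (add_le_add ?_ ?_)
            · rw [hVn]
              exact hdef _ _ _ _ _
            · rw [norm_smul, norm_ph, one_mul, hZ, map_smul, smul_comm _ (w a.2), ← smul_sub,
                norm_smul]
              refine mul_le_mul_of_nonneg_left ((pc_eigen hVc hVn hVa _ _ _).trans_eq ?_)
                (norm_nonneg _)
              rw [show lam s l - a.2 = lam s l + ((-a.2 : ℤ) : ℝ) by push_cast; ring, ph_add,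
                ph_int, mul_one]
        _ = C * (∑ a ∈ A', ‖U (∑ l ∈ B, Pi.single l (t l)) (X s a) -
              ph (∑ l ∈ B, t l * (lam s l + nn a l)) • X s a‖ +
              |t l| * ∑ a ∈ A', ‖U (Pi.single l 1) (X s a) - ph (lam s l) • X s a‖) := by
            rw [Finset.sum_product_right, Finset.mul_sum A', ← Finset.sum_add_distrib,
              Finset.sum_mul_sum]
        _ ≤ _ := by
            rw [pow_succ', mul_assoc, mul_assoc, Finset.sum_insert hlB]
            refine mul_le_mul_of_nonneg_left ?_ hC0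
            have := mul_le_mul_of_nonneg_left (h4 s hs l) (abs_nonneg (t l))
            linarith [h5 s hs]
    · rw [hY]
      have := hker _ 0 _ _ (hf c) (hR c) fun u _ => by simpa using hR c u
      rw [sub_zero] at this
      refine this.trans ?_
      have h0 : 0 ≤ 2 ^ B.card * ‖∑ s ∈ S, c s • x s‖ := by positivity
      rw [pow_succ]
      nlinarith
    · rw [hY]
      have hB : (2 : ℝ) ^ B.card ≤ 2 ^ k :=
        pow_le_pow_right₀ one_le_two ((Finset.card_le_univ B).trans_eq (Fintype.card_fin k))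
      have hν := norm_nonneg (∑ s ∈ S, c s • x s)
      refine (hker _ G _ (2 ^ B.card * (4 * δ * ‖∑ s ∈ S, c s • x s‖) +
        ‖∑ s ∈ S, c s • ∑ a ∈ A', X s a - G‖ + ω) (hf c) (hR c) fun u hu => ?_).trans ?_
      · have e : V u (∑ s ∈ S, (c s * ph (-(lam s l * u))) • ∑ a ∈ A', X s a) - G =
            V u (∑ s ∈ S, (c s * (ph (-(lam s l * u)) - 1)) • ∑ a ∈ A', X s a) +
              V u (∑ s ∈ S, c s • ∑ a ∈ A', X s a - G) + (V u G - G) := by
          simp only [mul_sub, mul_one, sub_smul, Finset.sum_sub_distrib, map_sub]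
          abel
        rw [e]
        refine norm_add₃_le.trans (add_le_add (add_le_add ?_ (hVn _ _).le) (hG l u hu))
        rw [hVn]
        refine (h6 _).trans (mul_le_mul_of_nonneg_left ?_ (by positivity))
        refine norm_sum_mono S x ho c _ (by positivity) fun s hs => (norm_ph_sub_one _).trans ?_
        rw [abs_neg, abs_mul]
        nlinarith [hl s hs l, abs_nonneg u, abs_nonneg (lam s l)]
      · have h8 := h7 c G ω hG
        have h9 := mul_le_mul_of_nonneg_right hB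
          (show 0 ≤ (4 * δ + η) * ‖∑ s ∈ S, c s • x s‖ by positivity)
        push_cast
        linarith

end Pool.Agent.Lib.MP_86b0a6_an
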