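import Pool.Agent.Lib.MP_86b0a6_an.Spectral
import Pool.Agent.Lib.MP_86b0a6_an.EvKer
import Pool.Agent.Lib.MP_86b0a6_an.EvIndep

namespace Pool.Agent.Lib.MP_86b0a6_an

open Set Filter Topology MeasureTheory unitInterval
open scoped ENNReal

lemma inner_eq_zero_of_eigen {E : Type*} [NormedAddCommGroup E] [InnerProductSpace ℂ E]
    {W : E → E} (hW : ∀ x y, inner ℂ (W x) (W y) = inner ℂ x y) {x y : E} {a b : ℝ}
    (hx : W x = ph a • x) (hy : W y = ph b • y) (hab : ph a ≠ ph b) : inner ℂ x y = 0 := by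
  have h := hW x y
  rw [hx, hy, inner_smul_left, inner_smul_right] at h
  have h1 : ph a * starRingEnd ℂ (ph a) = 1 := by
    rw [Complex.mul_conj, Complex.normSq_eq_norm_sq, norm_ph]
    simp
  have h2 : (ph a - ph b) * inner ℂ x y = 0 := by
    linear_combination (-ph a) * h + (ph b * inner ℂ x y) * h1
  exact (mul_eq_zero.1 h2).resolve_left (sub_ne_zero.2 hab)

lemma koop_update_tens {k : ℕ} {f : Fin k → L1'} {l : Fin k} {u : GG} {θ : ℂ}
    (hu : K1 u (f l) = θ • f l) :
    koop (Function.update (fun _ => 1) l u) (tens volume f) = θ • tens volume f := by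
  rw [koop_tens]
  have : (fun l' => K1 (Function.update (fun _ => (1 : GG)) l u l') (f l')) =
      Function.update f l (θ • f l) := by
    funext l'
    by_cases h : l' = l
    · subst h; simp [hu]
    · simp [Function.update_of_ne h, K1_one]
  rw [this, MultilinearMap.map_update_smul, Function.update_eq_self]

theorem spectral_data (e : Iso (tm (Fin 2)) (volume : Measure I)) (L : ℕ) {U : Set C(ℝ, GG)}
    (hU : IsOpen U) (heU : vert e L ∈ U) {k : ℕ} (M : ℝ) {G h : LL k} (hG : G ∈ HH k)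
    (hh : h ∈ HH k) {ε : ℝ} (hε : 0 < ε) (N0 : ℕ) :
    ∃ Ψ ∈ U, ∀ t : Fin k → ℝ, (∀ l, 0 < t l) → (∀ l, t l ≤ M) → Function.Injective t →
      ∃ (β : Type) (S : Finset β) (x : β → LL k) (lam : β → Fin k → ℝ),
        (∀ s ∈ S, ∀ s' ∈ S, s ≠ s' → inner ℂ (x s) (x s') = 0) ∧ (∀ s ∈ S, x s ∈ HH k) ∧
        (∀ s ∈ S, ∀ l, |lam s l| ≤ 1 / 2) ∧
        (∀ s ∈ S, ∀ l, koop (Function.update (fun _ => 1) l (Ψ 1)) (x s) = ph (lam s l) • x s) ∧
        (∀ s ∈ S, ∀ s' ∈ S, ∀ n n' : Fin k → ℤ, (∀ l, |n l| ≤ N0) → (∀ l, |n' l| ≤ N0) →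
          ph (∑ l, t l * (lam s l + n l)) = ph (∑ l, t l * (lam s' l + n' l)) → s = s') ∧
        (∃ y ∈ Submodule.span ℂ (x '' S), ‖G - y‖ < ε) ∧
        ∃ z ∈ Submodule.span ℂ (x '' S), ‖h - z‖ < ε := by
  classical
  obtain ⟨J1, hJ1, δ1, hδ1, H1⟩ := near_base e hG hε
  obtain ⟨J2, hJ2, δ2, hδ2, H2⟩ := near_base e hh hε
  have hJ : ∀ j ∈ J1 ∪ J2, ∀ l, j l ≠ 0 := fun j hj =>
    (Finset.mem_union.1 hj).elim (hJ1 j) (hJ2 j)
  set J := J1 ∪ J2
  set δ' := min δ1 δ2 with hδ'
  have hδ'0 : 0 < δ' := by positivity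
  obtain ⟨δ, hδ0, hδ1', hδ⟩ : ∃ δ : ℝ, 0 < δ ∧ δ ≤ 1 ∧ (1 + k * 2 ^ (k - 1)) * δ ≤ δ' / 2 := by
    refine ⟨min 1 (δ' / 2 / (1 + k * 2 ^ (k - 1))), by positivity, min_le_left _ _, ?_⟩
    rw [← le_div_iff₀' (by positivity)]
    exact min_le_right _ _
  obtain ⟨v, hv⟩ := exists_generic
  obtain ⟨A, hA, hA1⟩ := exists_marker_set
  have hu : ∀ j : Fin 2 → ℤ, ‖uu hA (chi j v)‖ ≤ 1 := fun j =>
    norm_le_one_of_ae ((coeFn_uu hA _).mono fun x hx => by
      rw [hx]; simp only; split_ifs <;> simp [norm_chi])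
  obtain ⟨P, hP⟩ := ((eventually_all_finset J).2 fun j hj => eventually_all.2 fun l =>
    marker_approx (j l) (hu (j l))
      (by rw [inner_uu]; exact mul_ne_zero (sub_ne_zero.2 (hv _ (hJ j hj l))) hA1) hδ0).exists
  obtain ⟨w, hw⟩ := ((eventually_all_finset J).2 fun j hj => eventually_all.2 fun l =>
    hP j hj l).exists
  choose! f' hf' hf'' using hw
  obtain ⟨N, hN⟩ := distinct_shift k (Fin 2 ⊕ Fin P) w
    (2 * (N0 + (Fintype.card (Fin 2 ⊕ Fin P) * (w * 2) + 1)))
  obtain ⟨D, hD⟩ := good_mass k N (show 0 < δ ^ 2 by positivity)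
  obtain ⟨η1, hη1, hnear⟩ := near_of_intertwine (hU.mem_nhds heU)
  obtain ⟨η2, hη2, hkoop⟩ : ∃ η > 0, ∀ q : GG, dist q 1 < η → ∀ j ∈ J,
      ‖tens volume (fun l => xx e (j l)) -
        koop (fun _ => q) (tens volume fun l => xx e (j l))‖ < δ' / 2 := by
    refine Metric.eventually_nhds_iff.1 ((eventually_all_finset J).2 fun j _ => ?_)
    have hc : Continuous fun q : GG => ‖tens volume (fun l => xx e (j l)) -
        koop (fun _ : Fin k => q) (tens volume fun l => xx e (j l))‖ :=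
      (continuous_const.sub (continuous_koop.comp
        (continuous_const.prodMk (continuous_pi fun _ => continuous_id)))).norm
    exact (isOpen_lt hc continuous_const).mem_nhds (by simpa [koop_one] using hδ'0)
  have hp0 : MeasurePreserving (pp A v P ∘ Prod.snd) (bm D (Fin 2 ⊕ Fin P)) (tm (Fin 2)) :=
    (mp_pp hA v P).comp measurePreserving_snd
  have hp := e.mp.comp hp0
  obtain ⟨g, hg⟩ := exists_iso_near hp (show 0 < min η1 η2 / 2 by positivity)
  have hqm := hp.comp g.mp_inv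
  set q := mk _ hqm with hq
  have hq1 : dist q 1 < min η1 η2 := by
    rw [hq, one_def, dist_mk]
    calc _ ≤ ∫ _ : I, min η1 η2 / 2 := by
          refine integral_mono_of_nonneg (Eventually.of_forall fun _ => dist_nonneg)
            (integrable_const _) (g.right.mono fun x hx => ?_)
          have := hg (g.invFun x)
          rw [hx, abs_sub_comm] at this
          exact this
      _ < _ := by
          rw [integral_const, probReal_univ, one_smul]
          exact half_lt_self (by positivity)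
  let v0 : Fin 2 ⊕ Fin P → ℝ := Sum.elim ![0, 1 / (L : ℝ)] 0
  have h0 : (fibAct D _).flow g (fun _ => v0) ∈ U := by
    refine hnear q _ (hq1.trans_le (min_le_left _ _)) fun t => ?_
    simp only [hq, vert, Act.flow_apply, Act.T, conj, mk_mul_mk]
    refine (mk_eq_iff _ _).2 ?_
    filter_upwards [(((fibAct D _).mp (t • fun _ => v0)).comp g.mp_inv).quasiMeasurePreserving.ae
      g.left, (hp0.comp g.mp_inv).quasiMeasurePreserving.ae e.left] with x h1 h2
    simp only [Function.comp_apply] at h1 h2 ⊢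
    have h3 : (t • fun _ : Fin (D + 1) => v0) (g.invFun x).1 =
        Sum.elim (t • ![0, 1 / (L : ℝ)]) 0 := by
      funext r
      cases r <;> simp only [v0, Pi.smul_apply, Sum.elim_inl, Sum.elim_inr, Pi.zero_apply,
        smul_zero]
    rw [h1, h2, fibAct_apply, ← pp_tr, h3]
  obtain ⟨Λ, hΛU, hΛ, hΛ1⟩ := (tendsto_natCast_atTop_atTop.eventually
    (((((fibAct D _).continuous_flow g).tendsto _).comp
      (tendsto_speed (D + 1) v0)).eventually (hU.mem_nhds h0) |>.and
        ((hN (D + 1) v0 M).and (eventually_ge_atTop 1)))).exists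
  refine ⟨(fibAct D _).flow g (speed (D + 1) v0 Λ), hΛU, fun t ht0 htM ht => ?_⟩
  · obtain ⟨Bad, hB, hdist⟩ := hΛ t ht0 htM ht
    let S := goodIdx k Bad ×ˢ Fintype.piFinset fun _ : Fin k => markF (Fin 2 ⊕ Fin P) w
    have hS : ∀ s ∈ S, (Function.Injective s.1 ∧ ∀ l, s.1 l ∉ Bad) ∧ ∀ l, Mark w (s.2 l) :=
      fun s hs => ⟨mem_goodIdx.1 (Finset.mem_product.1 hs).1,
        fun l => mem_markF.1 (Fintype.mem_piFinset.1 (Finset.mem_product.1 hs).2 l)⟩
    have key : ∀ j ∈ J, ∃ z ∈ Submodule.span ℂ (Psi g '' S),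
        ‖tens volume (fun l => xx e (j l)) - z‖ < δ' := by
      intro j hj
      obtain ⟨y, hy, h1⟩ := cut g (f := fun l => ff (j l) (uu hA (chi (j l) v)) P)
        (fun l => (coeFn_ff hA v P (j l)).mono fun ω hω => by rw [hω, norm_chi])
        hδ0.le hδ1' (fun l => (hf'' j hj l).le) (hf' j hj) _ (hD Bad hB)
      have h2 := hkoop q (hq1.trans_le (min_le_right _ _)) j hj
      have h3 : ∀ l, K1 q (xx e (j l)) = emb g (ff (j l) (uu hA (chi (j l) v)) P) := fun l => by
        rw [hq, K1_mk]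
        apply Lp.ext
        filter_upwards [Lp.coeFn_compMeasurePreserving (xx e (j l)) hqm,
          hqm.quasiMeasurePreserving.ae (coeFn_xx e (j l)), coeFn_emb g (coeFn_ff hA v P (j l)),
          (hp0.comp g.mp_inv).quasiMeasurePreserving.ae e.left] with x a1 a2 a3 a4
        rw [a1, a3, Function.comp_apply, a2]
        simp only [Function.comp_apply] at a4 ⊢
        rw [a4]
      rw [koop_tens] at h2
      simp only [h3] at h2
      have h4 := norm_sub_le_norm_sub_add_norm_sub (tens volume fun l => xx e (j l))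
        (tens volume fun l => emb g (ff (j l) (uu hA (chi (j l) v)) P)) y
      exact ⟨y, hy, by linarith⟩
    obtain ⟨y, hy, hy'⟩ := H1 _ fun j hj => (key j (Finset.mem_union_left _ hj)).imp
      fun z hz => ⟨hz.1, hz.2.trans_le (min_le_left _ _)⟩
    obtain ⟨z, hz, hz'⟩ := H2 _ fun j hj => (key j (Finset.mem_union_right _ hj)).imp
      fun z hz => ⟨hz.1, hz.2.trans_le (min_le_right _ _)⟩
    let la : (Fin k → Fin (D + 1)) × (Fin k → Fin 2 ⊕ Fin P → ℤ) → Fin k → ℝ := fun s l =>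
      ∑ r, s.2 l r * speed (D + 1) v0 Λ (s.1 l) r
    have hla : ∀ (s : (Fin k → Fin (D + 1)) × (Fin k → Fin 2 ⊕ Fin P → ℤ)),
        ∑ l, ∑ r, s.2 l r * (t l * speed (D + 1) v0 Λ (s.1 l) r) = ∑ l, t l * la s l :=
      fun s => Finset.sum_congr rfl fun l _ => by
        rw [Finset.mul_sum]
        exact Finset.sum_congr rfl fun r _ => by ring
    have hv0 : ∀ r, |v0 r| ≤ 1 := by
      rintro (r | r)
      · fin_cases r
        · simp [v0]
        · simpa [v0] using Nat.cast_inv_le_one L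
      · simp [v0]
    have hrd : ∀ s ∈ S, ∀ l,
        |round (la s l)| ≤ ((Fintype.card (Fin 2 ⊕ Fin P) * (w * 2) + 1 : ℕ) : ℤ) := by
      intro s hs l
      have h1 : |la s l| ≤ Fintype.card (Fin 2 ⊕ Fin P) * (w * 2) := by
        refine (Finset.abs_sum_le_sum_abs _ _).trans ?_
        refine (Finset.sum_le_card_nsmul _ _ ((w : ℝ) * 2) fun r _ => ?_).trans (by simp)
        have h2 : |(s.2 l r : ℝ)| ≤ w := by exact_mod_cast ((hS s hs).2 l).1 r
        have h3 := mu_anti hΛ1 (Nat.zero_le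
          (Fintype.equivFin (Fin (D + 1) × (Fin 2 ⊕ Fin P)) (s.1 l, r) + 1))
        have h4 := mu_pos hΛ1 (Fintype.equivFin (Fin (D + 1) × (Fin 2 ⊕ Fin P)) (s.1 l, r) + 1)
        rw [mu_zero] at h3
        have h5 := abs_le.1 (hv0 r)
        rw [abs_mul]
        refine mul_le_mul h2 (abs_le.2 ⟨?_, ?_⟩) (abs_nonneg _) (Nat.cast_nonneg _)
        · rw [speed]; linarith [h5.1]
        · rw [speed]; linarith [h5.2]
      have h2 := abs_le.1 (abs_sub_round (la s l))
      have h3 := abs_le.1 h1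
      have h4 : |(round (la s l) : ℝ)| ≤ Fintype.card (Fin 2 ⊕ Fin P) * (w * 2) + 1 :=
        abs_le.2 ⟨by linarith [h2.2, h3.1], by linarith [h2.1, h3.2]⟩
      exact_mod_cast h4
    have hsep : ∀ s ∈ S, ∀ s' ∈ S, ∀ n : Fin k → ℤ,
        (∀ l, |n l| ≤ ((2 * (N0 + (Fintype.card (Fin 2 ⊕ Fin P) * (w * 2) + 1)) : ℕ) : ℤ)) →
        ∀ z : ℤ, ∑ l, t l * la s l - ∑ l, t l * la s' l + ∑ l, t l * n l = z → s = s' := by
      intro s hs s' hs' n hn z hz
      obtain ⟨a, b⟩ := hdist _ _ (hS s hs).1.1 (hS s' hs').1.1 (hS s hs).1.2 (hS s' hs').1.2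
        _ _ (hS s hs).2 (hS s' hs').2 n hn z (by rw [hla, hla]; exact hz)
      exact Prod.ext a b
    refine ⟨_, S, Psi g, fun s l => la s l - round (la s l), fun s hs s' hs' hne => ?_,
      fun s hs => tens_mem_HH fun l => psi_eigen g _ ((hS s hs).2 l),
      fun s _ l => abs_sub_round _, fun s _ l => ?_, fun s hs s' hs' n n' hn hn' hss => ?_,
      ⟨y, hy, hy'⟩, z, hz, hz'⟩
    · have h1 : ∀ s, koop (fun l => (fibAct D _).flow g (speed (D + 1) v0 Λ) (t l)) (Psi g s) =
          ph (∑ l, t l * la s l) • Psi g s := fun s => by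
        rw [← hla]
        simp only [Psi, koop_tens, Act.flow_apply, K1_psi]
        rw [MultilinearMap.map_smul_univ, ph_sum]
        rfl
      refine inner_eq_zero_of_eigen (inner_koop _) (h1 s) (h1 s') fun hss => hne ?_
      obtain ⟨n, hn⟩ := ph_eq hss
      exact hsep s hs s' hs' 0 (fun l => by simp only [Pi.zero_apply, abs_zero]; positivity) n
        (by simpa using hn)
    · have h1 : K1 ((fibAct D _).flow g (speed (D + 1) v0 Λ) 1) (psi g (s.1 l) (s.2 l)) =
          ph (la s l - round (la s l)) • psi g (s.1 l) (s.2 l) := by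
        rw [Act.flow_apply, one_smul, K1_psi, show la s l - round (la s l) =
          la s l + ((-round (la s l) : ℤ) : ℝ) by push_cast; ring, ph_add, ph_int, mul_one]
      exact koop_update_tens h1
    · obtain ⟨m, hm⟩ := ph_eq hss
      refine hsep s hs s' hs' (fun l => n l - n' l - round (la s l) + round (la s' l))
        (fun l => ?_) m ?_
      · have a1 := abs_le.1 (hn l)
        have a2 := abs_le.1 (hn' l)
        have a3 := abs_le.1 (hrd s hs l)
        have a4 := abs_le.1 (hrd s' hs' l)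
        push_cast at a3 a4 ⊢
        exact abs_le.2 ⟨by linarith, by linarith⟩
      · rw [← hm, ← Finset.sum_sub_distrib, ← Finset.sum_sub_distrib, ← Finset.sum_add_distrib]
        refine Finset.sum_congr rfl fun l _ => ?_
        push_cast
        ring

end Pool.Agent.Lib.MP_86b0a6_an
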