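import Pool.Agent.Lib.MP_86b0a6_an.Torus

namespace Pool.Agent.Lib.MP_86b0a6_an

open Set Filter Topology MeasureTheory unitInterval
open scoped ENNReal

/-- Uniform measure on a finite set. -/
noncomputable abbrev um (D : ℕ) : Measure (Fin (D + 1)) := ProbabilityTheory.uniformOn univ

/-- Product of the uniform measure and of Haar measure. -/
noncomputable abbrev bm (D : ℕ) (ι : Type) [Fintype ι] : Measure (Fin (D + 1) × (ι → TT)) :=
  (um D).prod (tm ι)

open Classical in
/-- Injective index families that avoid a set. -/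
noncomputable def goodIdx (k : ℕ) {D : ℕ} (Bad : Finset (Fin D)) : Finset (Fin k → Fin D) :=
  Finset.univ.filter fun i => Function.Injective i ∧ ∀ l, i l ∉ Bad

lemma mem_goodIdx {k D : ℕ} {Bad : Finset (Fin D)} {i : Fin k → Fin D} :
    i ∈ goodIdx k Bad ↔ Function.Injective i ∧ ∀ l, i l ∉ Bad := by
  simp [goodIdx]

lemma good_mass (k N : ℕ) {δ : ℝ} (hδ : 0 < δ) : ∃ D : ℕ, ∀ Bad : Finset (Fin (D + 1)),
    Bad.card ≤ N → (Measure.pi fun _ : Fin k => um D).real (goodIdx k Bad : Set _)ᶜ ≤ δ := by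
  obtain ⟨D0, hD0⟩ := exists_nat_gt (k * (N + k) / δ)
  obtain ⟨D, hD⟩ : ∃ D, D = D0 + N + k := ⟨_, rfl⟩
  refine ⟨D, fun Bad hB => ?_⟩
  have hD1 : (0 : ℝ) < D + 1 := by positivity
  have h1 : (D + 1 - N - k) ^ k ≤ (goodIdx k Bad).card := by
    have h2 : Fintype.card (Fin k ↪ {a // a ∉ Bad}) ≤ (goodIdx k Bad).card := by
      refine Finset.card_le_card_of_injOn (fun e l => (e l).1)
        (fun e _ => Finset.mem_coe.2 (mem_goodIdx.2
          ⟨Subtype.val_injective.comp e.injective, fun l => (e l).2⟩)) fun e _ e' _ h => ?_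
      ext l
      exact congrArg Fin.val (congrFun h l)
    refine le_trans ?_ h2
    rw [Fintype.card_embedding_eq, Fintype.card_fin]
    refine le_trans (Nat.pow_le_pow_left ?_ k) (Nat.pow_sub_le_descFactorial _ k)
    rw [Fintype.card_subtype_compl, Fintype.card_fin, Fintype.card_coe]
    omega
  have h2 : (Measure.pi fun _ : Fin k => um D).real (goodIdx k Bad : Set _) =
      (goodIdx k Bad).card * (1 / ((D : ℝ) + 1)) ^ k := by
    rw [← sum_measureReal_singleton, ← nsmul_eq_mul, ← Finset.sum_const]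
    refine Finset.sum_congr rfl fun i _ => ?_
    simp [measureReal_def, ProbabilityTheory.uniformOn_univ, ENNReal.toReal_add]
  rw [measureReal_compl (Finset.measurableSet _), probReal_univ, h2]
  have h3 : ((D + 1 - N - k : ℕ) : ℝ) = D + 1 - (N + k) := by
    rw [show D + 1 - N - k = D0 + 1 by omega, hD]; push_cast; ring
  have h4 : ((D : ℝ) + 1 - (N + k)) ^ k ≤ (goodIdx k Bad).card := by
    rw [← h3]; exact_mod_cast h1
  have h5 := one_add_mul_le_pow (a := -((N + k) / ((D : ℝ) + 1))) (by
    have : ((N : ℝ) + k) / (D + 1) ≤ 1 := by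
      rw [div_le_one hD1, hD]; push_cast; linarith [Nat.cast_nonneg (α := ℝ) D0]
    linarith) k
  have h6 : (1 + -((N + k) / ((D : ℝ) + 1))) ^ k =
      ((D : ℝ) + 1 - (N + k)) ^ k * (1 / ((D : ℝ) + 1)) ^ k := by
    rw [← mul_pow]; congr 1; field_simp; ring
  have h7 := mul_le_mul_of_nonneg_right h4 (show 0 ≤ (1 / ((D : ℝ) + 1)) ^ k by positivity)
  have h8 : k * ((N + k) / ((D : ℝ) + 1)) ≤ δ := by
    rw [div_lt_iff₀ hδ] at hD0
    rw [← mul_div_assoc, div_le_iff₀ hD1, hD]
    push_cast
    nlinarith [Nat.cast_nonneg (α := ℝ) N, Nat.cast_nonneg (α := ℝ) k]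
  linarith

variable {D : ℕ} {ι : Type} [Fintype ι]

instance : (bm D ι).InnerRegularCompactLTTop := by
  have := Measure.Regular.of_sigmaCompactSpace_of_isLocallyFiniteMeasure (bm D ι)
  infer_instance

/-- Translations of a finite union of tori. -/
noncomputable def fibAct (D : ℕ) (ι : Type) [Fintype ι] :
    Act (Fin (D + 1) → ι → ℝ) (Fin (D + 1) × (ι → TT)) (bm D ι) where
  tr x := ⟨fun b => (b.1, (torAct ι).tr (x b.1) b.2),
    continuous_prod_of_discrete_left.2 fun a =>
      continuous_const.prodMk ((torAct ι).tr (x a)).continuous⟩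
  cont := ContinuousMap.continuous_of_continuous_uncurry _ (by
    have h1 : Continuous fun z : (Fin (D + 1) → ι → ℝ) × Fin (D + 1) => z.1 z.2 :=
      continuous_prod_of_discrete_right.2 fun a => continuous_apply a
    have h2 : Continuous fun z : (Fin (D + 1) → ι → ℝ) × (Fin (D + 1) × (ι → TT)) =>
        (torAct ι).tr (z.1 z.2.1) :=
      (torAct ι).cont.comp (h1.comp (continuous_fst.prodMk continuous_snd.fst))
    exact continuous_snd.fst.prodMk (h2.eval continuous_snd.snd))
  mp x := (MeasurePreserving.id (um D)).skew_product (g := fun a => (torAct ι).tr (x a))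
    (measurable_from_prod_countable_right fun a => ((torAct ι).mp (x a)).measurable)
    (Eventually.of_forall fun a => ((torAct ι).mp (x a)).map_eq)
  zero b := Prod.ext rfl ((torAct ι).zero _)
  add x y b := Prod.ext rfl ((torAct ι).add _ _ _)

lemma fibAct_apply (x : Fin (D + 1) → ι → ℝ) (b : Fin (D + 1) × (ι → TT)) :
    (fibAct D ι).tr x b = (b.1, (torAct ι).tr (x b.1) b.2) := rfl

/-- Functions on the torus transported to the interval. -/
noncomputable def emb (g : Iso (bm D ι) (volume : Measure I)) : Lp ℂ 2 (tm ι) →ₗᵢ[ℂ] L1' :=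
  Lp.compMeasurePreservingₗᵢ ℂ (Prod.snd ∘ g.invFun) (measurePreserving_snd.comp g.mp_inv)

lemma coeFn_emb (g : Iso (bm D ι) (volume : Measure I)) {f : Lp ℂ 2 (tm ι)} {f' : (ι → TT) → ℂ}
    (h : f =ᵐ[tm ι] f') : emb g f =ᵐ[volume] fun x => f' (g.invFun x).2 :=
  (Lp.coeFn_compMeasurePreserving _ (measurePreserving_snd.comp g.mp_inv)).trans
    ((measurePreserving_snd.comp g.mp_inv).quasiMeasurePreserving.ae_eq_comp h)

lemma measurableSet_cs (g : Iso (bm D ι) (volume : Measure I)) (a : Fin (D + 1)) :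
    MeasurableSet {x : I | (g.invFun x).1 = a} :=
  (measurable_fst.comp g.mp_inv.measurable) (measurableSet_singleton a)

/-- Eigenfunctions. -/
noncomputable def psi (g : Iso (bm D ι) (volume : Measure I)) (a : Fin (D + 1)) (m : ι → ℤ) :
    L1' := indL (measurableSet_cs g a) (emb g (ee m))

lemma coeFn_psi (g : Iso (bm D ι) (volume : Measure I)) (a : Fin (D + 1)) (m : ι → ℤ) :
    psi g a m =ᵐ[volume] fun x => if (g.invFun x).1 = a then chi m (g.invFun x).2 else 0 := by
  filter_upwards [coeFn_indL (measurableSet_cs g a) (emb g (ee m)), coeFn_emb g (coeFn_ee m)]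
    with x h1 h2
  rw [psi, h1, indicator_apply, h2]
  rfl

lemma K1_psi (g : Iso (bm D ι) (volume : Measure I)) (x : Fin (D + 1) → ι → ℝ) (a : Fin (D + 1))
    (m : ι → ℤ) : K1 ((fibAct D ι).T g x) (psi g a m) = ph (∑ r, m r * x a r) • psi g a m := by
  rw [Act.T, conj, K1_mk]
  apply Lp.ext
  have hT := g.mp.comp (((fibAct D ι).mp x).comp g.mp_inv)
  filter_upwards [Lp.coeFn_compMeasurePreserving (psi g a m) hT,
    hT.quasiMeasurePreserving.ae (coeFn_psi g a m), coeFn_psi g a m,
    Lp.coeFn_smul (ph (∑ r, m r * x a r)) (psi g a m),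
    (((fibAct D ι).mp x).comp g.mp_inv).quasiMeasurePreserving.ae g.left] with y h1 h2 h3 h4 h5
  rw [h1, h4, Pi.smul_apply, h3, Function.comp_apply, h2]
  simp only [Function.comp_apply] at h5 ⊢
  rw [h5, fibAct_apply]
  split_ifs with h
  · simp only at h
    rw [h, ← chi_coe, smul_eq_mul, ← chi_add, add_comm (fun r => ((x a r : ℝ) : TT))]
    rfl
  · simp

lemma psi_eigen (g : Iso (bm D ι) (volume : Measure I)) (a : Fin (D + 1)) {w : ℕ} {m : ι → ℤ}
    (hm : Mark w m) : ∃ (u : GG) (θ : ℂ), θ ≠ 1 ∧ K1 u (psi g a m) = θ • psi g a m := by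
  classical
  obtain ⟨r, hr⟩ := hm.2
  refine ⟨_, _, fun h => ?_, K1_psi g (fun _ => Pi.single r (1 / 2)) a m⟩
  rw [Finset.sum_eq_single r (fun b _ hb => by simp [hb]) (by simp),
    show (1 : ℂ) = ph 0 by simp [ph]] at h
  obtain ⟨z, hz⟩ := ph_eq h
  simp only [hr, Int.cast_one, Pi.single_eq_same, one_mul, sub_zero] at hz
  have h1 : (1 : ℝ) = 2 * z := by linarith
  have h2 : (1 : ℤ) = 2 * z := by exact_mod_cast h1
  omega

open Classical in
/-- The finite set of marked vectors. -/
noncomputable def markF (ι : Type) [Fintype ι] (w : ℕ) : Finset (ι → ℤ) :=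
  (Fintype.piFinset fun _ => Finset.Icc (-(w : ℤ)) w).filter fun m => ∃ r, m r = 1

lemma mem_markF {w : ℕ} {m : ι → ℤ} : m ∈ markF ι w ↔ Mark w m := by
  simp [markF, Mark, abs_le]

variable {k : ℕ}

/-- Tensor products of eigenfunctions. -/
noncomputable def Psi (g : Iso (bm D ι) (volume : Measure I))
    (s : (Fin k → Fin (D + 1)) × (Fin k → ι → ℤ)) : LL k :=
  tens volume fun l => psi g (s.1 l) (s.2 l)

theorem cut (g : Iso (bm D ι) (volume : Measure I)) {w : ℕ} {f f' : Fin k → Lp ℂ 2 (tm ι)}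
    (hf : ∀ l, ∀ᵐ ω ∂(tm ι), ‖f l ω‖ ≤ 1) {δ : ℝ} (hδ : 0 ≤ δ) (hδ1 : δ ≤ 1)
    (hff : ∀ l, ‖f l - f' l‖ ≤ δ) (hf' : ∀ l, f' l ∈ Submodule.span ℂ (ee '' {m | Mark w m}))
    (S : Finset (Fin k → Fin (D + 1)))
    (hS : (Measure.pi fun _ : Fin k => um D).real (S : Set _)ᶜ ≤ δ ^ 2) :
    ∃ y ∈ Submodule.span ℂ (Psi g '' (S ×ˢ Fintype.piFinset fun _ : Fin k => markF ι w : Finset _)),
      ‖tens volume (fun l => emb g (f l)) - y‖ ≤ (1 + k * 2 ^ (k - 1)) * δ := by
  classical
  have hc : MeasurePreserving (fun (x : Fin k → I) l => (g.invFun (x l)).1) (PI k)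
      (Measure.pi fun _ => um D) :=
    measurePreserving_pi _ _ fun _ => measurePreserving_fst.comp g.mp_inv
  have hE : MeasurableSet ((fun (x : Fin k → I) l => (g.invFun (x l)).1) ⁻¹' S) :=
    hc.measurable (Finset.measurableSet _)
  refine ⟨indL hE (tens volume fun l => emb g (f' l)), ?_, ?_⟩
  · have h1 : indL hE (tens volume fun l => emb g (f' l)) =
        ∑ i ∈ S, tens volume fun l => indL (measurableSet_cs g (i l)) (emb g (f' l)) := by
      apply Lp.ext
      filter_upwards [coeFn_indL hE (tens volume fun l => emb g (f' l)),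
        coeFn_tens fun l => emb g (f' l), Lp.coeFn_finsetSum S
          fun i => tens volume fun l => indL (measurableSet_cs g (i l)) (emb g (f' l)),
        ae_all_iff.2 fun i : Fin k → Fin (D + 1) =>
          coeFn_tens' fun l => coeFn_indL (measurableSet_cs g (i l)) (emb g (f' l))]
        with x h1 h2 h3 h4
      rw [h1, h3, indicator_apply, h2, Finset.sum_apply]
      simp only [h4, indicator_apply, mem_ofPred_eq, Finset.prod_ite_zero, Finset.mem_univ,
        true_imp_iff, mem_preimage, Finset.mem_coe]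
      simp only [← funext_iff, Finset.sum_ite_eq]
    rw [h1]
    refine Submodule.sum_mem _ fun i hi => ?_
    refine Submodule.span_mono ?_ (tens_mem_span
      (S := fun l => psi g (i l) '' {m | Mark w m}) fun l => ?_)
    · rintro _ ⟨u, hu, rfl⟩
      choose m hm hm' using hu
      refine ⟨(i, m), Finset.mem_coe.2 (Finset.mem_product.2
        ⟨hi, Fintype.mem_piFinset.2 fun l => mem_markF.2 (hm l)⟩), ?_⟩
      simp only [Psi, hm']
    · have := Submodule.mem_map_of_mem
        (f := (indL (measurableSet_cs g (i l))).comp (emb g).toLinearMap) (hf' l)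
      rw [Submodule.map_span, ← image_comp] at this
      exact this
  · have h1 : ‖tens volume (fun l => emb g (f l)) - indL hE (tens volume fun l => emb g (f l))‖
        ≤ δ := by
      refine le_of_sq_le_sq ((norm_sub_indL_le hE _ ?_).trans ?_) hδ
      · filter_upwards [coeFn_tens' fun l => coeFn_emb g (EventuallyEq.refl _ (f l)),
          ae_pi fun l => (measurePreserving_snd.comp g.mp_inv).quasiMeasurePreserving.ae (hf l)]
          with x h1 h2
        rw [h1, norm_prod]
        exact Finset.prod_le_one (fun _ _ => norm_nonneg _) fun l _ => h2 l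
      · rwa [← preimage_compl, hc.measureReal_preimage
          (Finset.measurableSet _).compl.nullMeasurableSet]
    have h2 := norm_tens_sub_le (f := fun l => emb g (f l)) (g := fun l => emb g (f' l)) hδ hδ1
      (fun l => by rw [LinearIsometry.norm_map]; exact norm_le_one_of_ae (hf l))
      fun l => by rw [← map_sub, LinearIsometry.norm_map]; exact hff l
    have h3 := norm_indL_le hE (tens volume (fun l => emb g (f l)) -
      tens volume fun l => emb g (f' l))
    rw [map_sub] at h3
    rw [Fintype.card_fin] at h2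
    linarith [norm_sub_le_norm_sub_add_norm_sub (tens volume fun l => emb g (f l))
      (indL hE (tens volume fun l => emb g (f l))) (indL hE (tens volume fun l => emb g (f' l)))]

end Pool.Agent.Lib.MP_86b0a6_an
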