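import Pool.Agent.Lib.MP_86b0a6_an.End

namespace Pool.Agent.Lib.MP_86b0a6_an

open Set Filter Topology MeasureTheory unitInterval
open scoped ENNReal

/-- Continuous one parameter groups of classes. -/
structure IsFlow (Φ : C(ℝ, GG)) : Prop where
  zero : Φ 0 = 1
  add : ∀ s t, Φ (s + t) = Φ s * Φ t

lemma isClosed_isFlow : IsClosed {Φ : C(ℝ, GG) | IsFlow Φ} := by
  have : {Φ : C(ℝ, GG) | IsFlow Φ} =
      {Φ | Φ 0 = 1} ∩ ⋂ s, ⋂ t, {Φ : C(ℝ, GG) | Φ (s + t) = Φ s * Φ t} := by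
    ext Φ
    simp only [mem_ofPred_eq, mem_inter_iff, mem_iInter]
    exact ⟨fun h => ⟨h.1, h.2⟩, fun h => ⟨h.1, h.2⟩⟩
  rw [this]
  exact (isClosed_eq (by fun_prop) continuous_const).inter
    (isClosed_iInter fun s => isClosed_iInter fun t => isClosed_eq (by fun_prop) (by fun_prop))

lemma IsFlow.nat_mul {Φ : C(ℝ, GG)} (h : IsFlow Φ) (s : ℝ) (n : ℕ) : Φ (n * s) = Φ s ^ n := by
  induction n with
  | zero => simpa using h.zero
  | succ n ih => rw [pow_succ, ← ih, ← h.add]; congr 1; push_cast; ring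

lemma IsFlow.neg_mul {Φ : C(ℝ, GG)} (h : IsFlow Φ) (s : ℝ) : Φ (-s) * Φ s = 1 := by
  rw [← h.add, neg_add_cancel, h.zero]

lemma IsFlow.int_mul_near {Φ : C(ℝ, GG)} (h : IsFlow Φ) (s : ℝ) (i : ℤ) {ε : ℝ} (hε : 0 < ε) :
    ∃ δ > 0, ∀ Ψ : C(ℝ, GG), IsFlow Ψ → dist (Ψ s) (Φ s) < δ → dist (Ψ (i * s)) (Φ (i * s)) < ε := by
  have hn : ∀ (n : ℕ) (ε : ℝ), 0 < ε → ∃ δ > 0, ∀ Ψ : C(ℝ, GG), IsFlow Ψ → dist (Ψ s) (Φ s) < δ →
      dist (Ψ (n * s)) (Φ (n * s)) < ε := fun n ε hε => by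
    obtain ⟨δ, hδ, H⟩ := Metric.continuous_iff.1 (continuous_pow (M := GG) n) (Φ s) ε hε
    exact ⟨δ, hδ, fun Ψ hΨ hd => by rw [hΨ.nat_mul, h.nat_mul]; exact H _ hd⟩
  obtain ⟨n, rfl | rfl⟩ := Int.eq_nat_or_neg i
  · simpa using hn n ε hε
  · obtain ⟨δ, hδ, H⟩ := inv_unif (h.neg_mul (n * s)) hε
    obtain ⟨δ', hδ', H'⟩ := hn n δ hδ
    refine ⟨δ', hδ', fun Ψ hΨ hd => ?_⟩
    simpa using H _ _ (hΨ.neg_mul (n * s)) (H' Ψ hΨ hd)

lemma exists_of_mem_nhds {Φ : C(ℝ, GG)} {U : Set C(ℝ, GG)} (hU : U ∈ 𝓝 Φ) :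
    ∃ (T : ℝ) (ε : ℝ), 0 < ε ∧
      ∀ Ψ : C(ℝ, GG), (∀ t ∈ Icc (-T) T, dist (Ψ t) (Φ t) ≤ ε) → Ψ ∈ U := by
  obtain ⟨V, hV, hVU⟩ := UniformSpace.mem_nhds_iff.1 hU
  obtain ⟨K, W, hK, hW, hKW⟩ := (ContinuousMap.mem_compactConvergence_entourage_iff V).1 hV
  obtain ⟨ε, hε, hεW⟩ := Metric.mem_uniformity_dist.1 hW
  obtain ⟨T, hT⟩ := hK.isBounded.subset_closedBall 0
  refine ⟨T, ε / 2, by positivity, fun Ψ hΨ => hVU (hKW fun t ht => hεW ?_)⟩
  have := hT ht
  rw [Real.closedBall_eq_Icc, zero_sub, zero_add] at this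
  rw [dist_comm]
  linarith [hΨ t this]

/-- Periodic flows. -/
def IsPer (Φ : C(ℝ, GG)) : Prop := IsFlow Φ ∧ ∃ p > 0, Φ p = 1

/-- A flow that is almost conjugate to a given one is near it. -/
lemma near_of_intertwine {Φ : C(ℝ, GG)} {U : Set C(ℝ, GG)} (hU : U ∈ 𝓝 Φ) :
    ∃ δ > 0, ∀ (q : GG) (Ψ : C(ℝ, GG)), dist q 1 < δ → (∀ t, q * Ψ t = Φ t * q) → Ψ ∈ U := by
  obtain ⟨T, ε, hε, H⟩ := exists_of_mem_nhds hU
  have h1 : ∀ᶠ q : GG in 𝓝 1, ∀ t ∈ Icc (-T) T, dist (Φ t * q) (Φ t) < ε / 2 := by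
    refine isCompact_Icc.eventually_forall_of_forall_eventually fun t _ => ?_
    have hc : Continuous fun z : GG × ℝ => dist (Φ z.2 * z.1) (Φ z.2) := by fun_prop
    exact (isOpen_lt hc continuous_const).mem_nhds (by simpa using hε)
  obtain ⟨δ, hδ, h2⟩ := Metric.eventually_nhds_iff.1 h1
  refine ⟨min δ (ε / 2), by positivity, fun q Ψ hq hΨ => H Ψ fun t ht => ?_⟩
  have h3 := h2 (hq.trans_le (min_le_left _ _)) t ht
  have h4 : dist (Ψ t) (q * Ψ t) < ε / 2 := by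
    conv_lhs => rw [← one_mul (Ψ t), ← mul_assoc, mul_one, dist_mul_right, dist_comm]
    exact hq.trans_le (min_le_right _ _)
  rw [hΨ] at h4
  linarith [dist_triangle (Ψ t) (Φ t * q) (Φ t)]

/-- Comparison of two flows through a small time step. -/
theorem core_step {Φ : C(ℝ, GG)} (hΦ : IsFlow Φ) {k j : ℕ} (hk : 0 < k) (T : ℝ) {ε : ℝ}
    (hε : 0 < ε) (hj : Φ j = Φ (1 / k)) (h1 : ∀ τ ∈ Icc (0 : ℝ) (1 / k), dist (Φ τ) 1 ≤ ε) :
    ∃ δ > 0, ∃ η > 0, ∀ R : GG, dist R (Φ 1) < δ → ∀ Ψ : C(ℝ, GG), IsFlow Ψ →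
      dist (Ψ (1 / k)) (R ^ j) ≤ dist R (R ^ (k * j)) + η →
      (∀ τ ∈ Icc (0 : ℝ) (1 / k), dist (Ψ τ) 1 ≤ dist (R ^ j) 1 + dist R (R ^ (k * j)) + η) →
      ∀ t ∈ Icc (-T) T, dist (Ψ t) (Φ t) ≤ 4 * ε := by
  have hk' : (0 : ℝ) < k := by exact_mod_cast hk
  choose d hd hd' using fun i : ℤ => hΦ.int_mul_near (1 / k) i hε
  have h2 : ∀ᶠ δ in 𝓝[>] (0 : ℝ), ∀ i ∈ Finset.Icc ⌊-(k * T)⌋ ⌊k * T⌋, δ < d i :=
    (eventually_all_finset _).2 fun i _ => nhdsWithin_le_nhds (gt_mem_nhds (hd i))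
  obtain ⟨δ1, ⟨hδ1, hδε⟩, hδ0⟩ := ((h2.and (nhdsWithin_le_nhds (gt_mem_nhds hε))).and
    self_mem_nhdsWithin).exists
  have hδ0 : 0 < δ1 := hδ0
  have e1 : Φ 1 ^ j = Φ (1 / k) := by rw [← hΦ.nat_mul, mul_one, hj]
  have e2 : Φ 1 ^ (k * j) = Φ 1 := by
    rw [mul_comm, pow_mul, e1, ← hΦ.nat_mul, mul_one_div_cancel hk'.ne']
  have hc : Continuous fun R : GG => dist (R ^ j) (Φ (1 / k)) + dist R (R ^ (k * j)) := by
    fun_prop
  obtain ⟨δ, hδ, H⟩ := Metric.eventually_nhds_iff.1 ((isOpen_lt hc continuous_const).mem_nhds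
    (show dist (Φ 1 ^ j) (Φ (1 / k)) + dist (Φ 1) (Φ 1 ^ (k * j)) < δ1 / 2 by
      rw [e1, e2]; simpa using hδ0))
  refine ⟨δ, hδ, δ1 / 2, by positivity, fun R hR Ψ hΨ ha hb t ht => ?_⟩
  have hR' : dist (R ^ j) (Φ (1 / k)) + dist R (R ^ (k * j)) < δ1 / 2 := H hR
  have h3 : dist (Ψ (1 / k)) (Φ (1 / k)) < δ1 := by
    linarith [dist_triangle (Ψ (1 / k)) (R ^ j) (Φ (1 / k))]
  set i := ⌊k * t⌋ with hi
  have hi1 : i ∈ Finset.Icc ⌊-(k * T)⌋ ⌊k * T⌋ :=
    Finset.mem_Icc.2 ⟨Int.floor_mono (by nlinarith [ht.1]), Int.floor_mono (by nlinarith [ht.2])⟩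
  have h4 := hd' i Ψ hΨ (h3.trans (hδ1 i hi1))
  set τ := t - i * (1 / k) with hτ
  have hτ1 : τ ∈ Icc (0 : ℝ) (1 / k) := by
    have a1 := Int.floor_le (k * t)
    have a2 := Int.lt_floor_add_one (k * t)
    have : τ = (k * t - i) / k := by rw [hτ]; field_simp
    rw [this]
    exact ⟨div_nonneg (by linarith) hk'.le, div_le_div_of_nonneg_right (by linarith) hk'.le⟩
  have ht' : t = τ + i * (1 / k) := by rw [hτ]; ring
  have h5 := hb τ hτ1
  have h6 := h1 τ hτ1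
  have h7 := h1 (1 / k) ⟨by positivity, le_rfl⟩
  have h8 := dist_triangle (R ^ j) (Φ (1 / k)) 1
  have h9 := dist_triangle4 (Ψ τ * Ψ (i * (1 / k))) (1 * Ψ (i * (1 / k))) (1 * Φ (i * (1 / k)))
    (Φ τ * Φ (i * (1 / k)))
  rw [dist_mul_right, dist_mul_right, one_mul, one_mul, ← hΨ.add, ← hΦ.add, ← ht',
    dist_comm 1] at h9
  linarith

lemma integral_mp {A B : Type*} [MeasurableSpace A] [MeasurableSpace B] {μ : Measure A}
    {ν : Measure B} {f : A → B} (hf : MeasurePreserving f μ ν) {φ : B → ℝ} (hφ : Measurable φ) :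
    ∫ b, φ b ∂ν = ∫ a, φ (f a) ∂μ := by
  rw [← hf.map_eq, integral_map hf.measurable.aemeasurable hφ.aestronglyMeasurable]

section Conj

variable {B : Type*} [MeasurableSpace B] {m : Measure B}

/-- Transport of a measure preserving map along an isomorphism. -/
noncomputable def conj (e : Iso m (volume : Measure I)) (A : B → B)
    (hA : MeasurePreserving A m m) : GG :=
  mk (e.toFun ∘ A ∘ e.invFun) (e.mp.comp (hA.comp e.mp_inv))

lemma dist_conj_mk (e : Iso m (volume : Measure I)) {A : B → B} (hA : MeasurePreserving A m m)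
    {f : I → I} (hf : MP f) :
    dist (conj e A hA) (mk f hf) = ∫ b, dist (e.toFun (A b)) (f (e.toFun b)) ∂m := by
  rw [conj, dist_mk,
    integral_mp e.mp ((e.mp.comp (hA.comp e.mp_inv)).measurable.dist hf.measurable)]
  refine integral_congr_ae (e.left.mono fun b hb => ?_)
  simp only [Function.comp_apply, hb]

end Conj

/-- A continuous measure preserving action of a vector group. -/
structure Act (V B : Type*) [AddCommGroup V] [TopologicalSpace V] [TopologicalSpace B]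
    [MeasurableSpace B] (m : Measure B) where
  tr : V → C(B, B)
  cont : Continuous tr
  mp : ∀ x, MeasurePreserving (tr x) m m
  zero : ∀ b, tr 0 b = b
  add : ∀ x y b, tr (x + y) b = tr x (tr y b)

section Act

variable {V B : Type*} [NormedAddCommGroup V] [TopologicalSpace B]
  [MeasurableSpace B] {m : Measure B}

/-- The transported action. -/
noncomputable def Act.T (a : Act V B m) (e : Iso m (volume : Measure I)) (x : V) : GG :=
  conj e (a.tr x) (a.mp x)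

lemma Act.T_eq_one (a : Act V B m) (e : Iso m (volume : Measure I)) {x : V}
    (h : ∀ b, a.tr x b = b) : a.T e x = 1 := by
  refine (mk_eq_iff _ _).2 (e.right.mono fun y hy => ?_)
  simp only [Function.comp_apply, h, hy, id]

lemma Act.T_add (a : Act V B m) (e : Iso m (volume : Measure I)) (x y : V) :
    a.T e (x + y) = a.T e x * a.T e y := by
  simp only [Act.T, conj, mk_mul_mk]
  refine (mk_eq_iff _ _).2 ?_
  filter_upwards [((a.mp y).comp e.mp_inv).quasiMeasurePreserving.ae e.left] with z hz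
  simp only [Function.comp_apply] at hz ⊢
  rw [hz, a.add]

variable [BorelSpace B] [R1Space B] [m.InnerRegularCompactLTTop] [IsLocallyFiniteMeasure m]

lemma Act.continuous_T (a : Act V B m) (e : Iso m (volume : Measure I)) :
    Continuous (a.T e) := by
  refine Continuous.subtype_mk (f := fun x => Lp.compMeasurePreserving _
    (e.mp.comp ((a.mp x).comp e.mp_inv)) coeL) ?_ _
  have : ∀ x, Lp.compMeasurePreserving _ (e.mp.comp ((a.mp x).comp e.mp_inv)) coeL =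
      Lp.compMeasurePreserving _ e.mp_inv (Lp.compMeasurePreserving _ (a.mp x)
        (Lp.compMeasurePreserving _ e.mp coeL)) := fun x => by
    rw [Lp.compMeasurePreserving_comp_apply coeL e.mp ((a.mp x).comp e.mp_inv),
      Lp.compMeasurePreserving_comp_apply _ (a.mp x) e.mp_inv]
  simp only [this]
  exact (Lp.isometry_compMeasurePreserving e.mp_inv).continuous.comp
    (continuous_const.compMeasurePreservingLp a.cont a.mp (by simp))

variable [NormedSpace ℝ V]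

/-- The flow in a given direction. -/
noncomputable def Act.flow (a : Act V B m) (e : Iso m (volume : Measure I)) (v : V) : C(ℝ, GG) :=
  ⟨fun t => a.T e (t • v), (a.continuous_T e).comp (by fun_prop)⟩

lemma Act.flow_apply (a : Act V B m) (e : Iso m (volume : Measure I)) (v : V) (t : ℝ) :
    a.flow e v t = a.T e (t • v) := rfl

lemma Act.isFlow (a : Act V B m) (e : Iso m (volume : Measure I)) (v : V) :
    IsFlow (a.flow e v) :=
  ⟨a.T_eq_one e fun b => by rw [zero_smul, a.zero],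
    fun s t => by simp only [Act.flow_apply, add_smul, a.T_add]⟩

lemma Act.continuous_flow (a : Act V B m) (e : Iso m (volume : Measure I)) :
    Continuous (a.flow e) :=
  ContinuousMap.continuous_of_continuous_uncurry _
    ((a.continuous_T e).comp (show Continuous fun z : V × ℝ => z.2 • z.1 by fun_prop))

end Act

end Pool.Agent.Lib.MP_86b0a6_an
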