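import Mathlib

namespace Pool.Agent.Lib.MP_86b0a6_an

open Set Filter Topology

/-- A very lacunary sequence. -/
noncomputable def mu (Λ : ℝ) (b : ℕ) : ℝ := (Λ ^ (2 ^ b - 1))⁻¹

lemma mu_pos {Λ : ℝ} (h : 1 ≤ Λ) (b : ℕ) : 0 < mu Λ b := by
  unfold mu; positivity

lemma mu_zero (Λ : ℝ) : mu Λ 0 = 1 := by simp [mu]

lemma mu_anti {Λ : ℝ} (h : 1 ≤ Λ) {a b : ℕ} (hab : a ≤ b) : mu Λ b ≤ mu Λ a :=
  inv_anti₀ (by positivity) (pow_le_pow_right₀ h
    (Nat.sub_le_sub_right (Nat.pow_le_pow_right two_pos hab) 1))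

lemma mu_succ {Λ : ℝ} (h : 1 ≤ Λ) (b : ℕ) : mu Λ (b + 1) * Λ = mu Λ b * mu Λ b := by
  have h1 : 2 ^ (b + 1) - 1 = (2 ^ b - 1) + (2 ^ b - 1) + 1 := by
    have := Nat.one_le_two_pow (n := b)
    rw [pow_succ]; omega
  unfold mu
  rw [h1, pow_succ, pow_add]
  field_simp

lemma mu_succ_le {Λ : ℝ} (h : 1 ≤ Λ) (b : ℕ) : mu Λ (b + 1) ≤ 1 / Λ := by
  rw [le_div_iff₀ (by linarith), mu_succ h]
  have h1 := mu_anti h (Nat.zero_le b)
  rw [mu_zero] at h1
  nlinarith [mu_pos h b]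

theorem lacunary {σ : Type*} [Fintype σ] {e : σ → ℕ} (he : Function.Injective e) {Λ : ℝ}
    (hΛ1 : 1 ≤ Λ) (hΛ : (Fintype.card σ : ℝ) ^ 2 < Λ) (C : Finset ℝ) :
    ∃ Bad : Finset σ, Bad.card ≤ C.card ^ 2 ∧ (∀ s ∈ Bad, e s ≠ 0) ∧
      ∀ c : σ → ℝ, (∀ s, c s ∈ C) → (∀ s ∈ Bad, c s = 0) → ∑ s, c s * mu Λ (e s) = 0 →
        ∀ s, c s = 0 := by
  classical
  set n : ℝ := (Fintype.card σ : ℝ) with hn
  let P : ℝ × ℝ → σ → Prop := fun z s => z.1 ≠ 0 ∧ z.2 ≠ 0 ∧ ∃ s', e s' < e s ∧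
    |z.1| * mu Λ (e s) ≤ n * (|z.2| * mu Λ (e s')) ∧
    |z.2| * mu Λ (e s') ≤ n * (|z.1| * mu Λ (e s))
  have hn0 : 0 ≤ n := Nat.cast_nonneg _
  have hP : ∀ z s₁ s₂, P z s₁ → P z s₂ → ¬ e s₁ < e s₂ := by
    rintro z s₁ s₂ ⟨hx, hy, a, -, ha, -⟩ ⟨-, -, b, hb, -, hb'⟩ hlt
    obtain ⟨d, hd⟩ : ∃ d, e s₂ = d + 1 := ⟨e s₂ - 1, by omega⟩
    have h1 := mu_anti hΛ1 (show e s₁ ≤ d by omega)
    have h2 := mu_anti hΛ1 (show e b ≤ d by omega)
    have h3 := mu_anti hΛ1 (Nat.zero_le (e a))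
    have h4 := mu_succ hΛ1 d
    rw [mu_zero] at h3
    rw [hd] at hb'
    have hx' := abs_pos.2 hx
    have hy' := abs_pos.2 hy
    have p1 := mu_pos hΛ1 d
    have p2 := mu_pos hΛ1 (d + 1)
    have h5 : |z.1| * mu Λ d ≤ n * |z.2| :=
      (mul_le_mul_of_nonneg_left h1 hx'.le).trans (ha.trans
        (mul_le_mul_of_nonneg_left (mul_le_of_le_one_right hy'.le h3) hn0))
    have h6 : |z.2| * mu Λ d ≤ n * (|z.1| * mu Λ (d + 1)) :=
      (mul_le_mul_of_nonneg_left h2 hy'.le).trans hb'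
    have h7 := mul_le_mul h5 h6 (by positivity) (by positivity)
    have h8 : (|z.1| * |z.2| * mu Λ (d + 1)) * Λ ≤ (|z.1| * |z.2| * mu Λ (d + 1)) * n ^ 2 := by
      calc _ = |z.1| * |z.2| * (mu Λ (d + 1) * Λ) := by ring
        _ = |z.1| * mu Λ d * (|z.2| * mu Λ d) := by rw [h4]; ring
        _ ≤ _ := h7
        _ = _ := by ring
    exact absurd (le_of_mul_le_mul_left h8 (by positivity)) (not_le.2 hΛ)
  refine ⟨(C ×ˢ C).biUnion fun z => Finset.univ.filter (P z), ?_, ?_, fun c hc hb hs => ?_⟩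
  · refine (Finset.card_biUnion_le_card_mul _ _ 1 fun z _ => ?_).trans (by simp [sq])
    refine Finset.card_le_one.2 fun a ha b hb => he ?_
    have ha := (Finset.mem_filter.1 ha).2
    have hb := (Finset.mem_filter.1 hb).2
    exact le_antisymm (not_lt.1 (hP z b a hb ha)) (not_lt.1 (hP z a b ha hb))
  · intro s hs
    obtain ⟨z, -, hz⟩ := Finset.mem_biUnion.1 hs
    obtain ⟨-, -, s', h, -⟩ := (Finset.mem_filter.1 hz).2
    omega
  · by_contra hne
    push Not at hne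
    obtain ⟨s0, hs0⟩ := hne
    let x : σ → ℝ := fun s => |c s| * mu Λ (e s)
    have hx0 : ∀ s, 0 ≤ x s := fun s => mul_nonneg (abs_nonneg _) (mu_pos hΛ1 _).le
    obtain ⟨a, -, ha⟩ := Finset.exists_max_image Finset.univ x ⟨s0, Finset.mem_univ _⟩
    have hxa : 0 < x a :=
      (mul_pos (abs_pos.2 hs0) (mu_pos hΛ1 _)).trans_le (ha s0 (Finset.mem_univ _))
    have hn1 : 1 ≤ n := by
      have : Nonempty σ := ⟨a⟩
      rw [hn]; exact_mod_cast Fintype.card_pos
    have h1 : x a ≤ ∑ s ∈ Finset.univ.erase a, x s := by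
      rw [← Finset.add_sum_erase _ _ (Finset.mem_univ a), add_eq_zero_iff_eq_neg] at hs
      have h2 : x a = |c a * mu Λ (e a)| := by rw [abs_mul, abs_of_pos (mu_pos hΛ1 _)]
      rw [h2, hs, abs_neg]
      refine (Finset.abs_sum_le_sum_abs _ _).trans (le_of_eq (Finset.sum_congr rfl fun s _ => ?_))
      rw [abs_mul, abs_of_pos (mu_pos hΛ1 _)]
    obtain ⟨b, hba, hb'⟩ : ∃ b, b ≠ a ∧ x a ≤ n * x b := by
      by_contra h
      push Not at h
      have h2 : ∑ s ∈ Finset.univ.erase a, n * x s ≤ ∑ _s ∈ Finset.univ.erase a, x a :=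
        Finset.sum_le_sum fun s hs => (h s (Finset.ne_of_mem_erase hs)).le
      rw [← Finset.mul_sum, Finset.sum_const, Finset.card_erase_of_mem (Finset.mem_univ a),
        Finset.card_univ, nsmul_eq_mul, Nat.cast_pred (Fintype.card_pos_iff.2 ⟨a⟩), ← hn] at h2
      nlinarith
    have hxb : 0 < x b := by
      by_contra h
      nlinarith [hx0 b]
    have hba' : x b ≤ n * x a := (ha b (Finset.mem_univ _)).trans (by nlinarith)
    have hca : c a ≠ 0 := fun h => by simp [x, h] at hxa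
    have hcb : c b ≠ 0 := fun h => by simp [x, h] at hxb
    rcases lt_or_gt_of_ne (he.ne hba) with h | h
    · exact hca (hb a (Finset.mem_biUnion.2 ⟨(c a, c b), Finset.mem_product.2 ⟨hc a, hc b⟩,
        Finset.mem_filter.2 ⟨Finset.mem_univ _, hca, hcb, b, h, hb', hba'⟩⟩))
    · exact hcb (hb b (Finset.mem_biUnion.2 ⟨(c b, c a), Finset.mem_product.2 ⟨hc b, hc a⟩,
        Finset.mem_filter.2 ⟨Finset.mem_univ _, hcb, hca, a, h, hba', hb'⟩⟩))

/-- Bounded integer vectors with an entry equal to one. -/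
def Mark {ι : Type*} (w : ℕ) (m : ι → ℤ) : Prop := (∀ r, |m r| ≤ w) ∧ ∃ r, m r = 1

/-- Perturbed rotation speeds. -/
noncomputable def speed {ι : Type} [Fintype ι] (D : ℕ) (v : ι → ℝ) (Λ : ℝ) (a : Fin D) (r : ι) :
    ℝ := v r + mu Λ (Fintype.equivFin (Fin D × ι) (a, r) + 1)

theorem distinct (k : ℕ) (ι : Type) [Fintype ι] (w : ℕ) : ∃ N : ℕ, ∀ (D : ℕ) (v : ι → ℝ) (M : ℝ),
    ∀ᶠ Λ : ℝ in atTop, ∀ t : Fin k → ℝ, (∀ l, 0 < t l) → (∀ l, t l ≤ M) → Function.Injective t →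
      ∃ Bad : Finset (Fin D), Bad.card ≤ N ∧ ∀ i i' : Fin k → Fin D, Function.Injective i →
        Function.Injective i' → (∀ l, i l ∉ Bad) → (∀ l, i' l ∉ Bad) →
        ∀ m m' : Fin k → ι → ℤ, (∀ l, Mark w (m l)) → (∀ l, Mark w (m' l)) → ∀ z : ℤ,
          ∑ l, ∑ r, m l r * (t l * speed D v Λ (i l) r) -
            ∑ l, ∑ r, m' l r * (t l * speed D v Λ (i' l) r) = z → i = i' ∧ m = m' := by
  classical
  let W : Finset ℤ := Finset.Icc (-(2 * w)) (2 * w)
  let Z1 : Finset (Fin k → ℤ) := Fintype.piFinset fun _ => W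
  let Z2 : Finset ((Fin k → ι → ℤ) × ℤ) :=
    (Fintype.piFinset fun _ => Fintype.piFinset fun _ => W) ×ˢ Finset.Icc (-1) 0
  refine ⟨(Z1.card + Z2.card) ^ 2, fun D v M => ?_⟩
  filter_upwards [eventually_ge_atTop 1,
    eventually_gt_atTop ((Fintype.card (Option (Fin D × ι)) : ℝ) ^ 2),
    eventually_gt_atTop (2 * (k * (Fintype.card ι * (w * M))))] with Λ hΛ1 hΛ2 hΛ3 t ht0 htM ht
  let e : Option (Fin D × ι) → ℕ := fun s => s.elim 0 fun s => Fintype.equivFin (Fin D × ι) s + 1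
  have he : Function.Injective e := by
    rintro (_ | a) (_ | b) h
    · rfl
    · simp [e] at h
    · simp [e] at h
    · simp only [e, Option.elim_some, add_left_inj] at h
      rw [(Fintype.equivFin _).injective (Fin.ext h)]
  let C : Finset ℝ := Z1.image (fun z => ∑ l, t l * z l) ∪
    Z2.image fun z => Int.fract (∑ l, ∑ r, z.1 l r * (t l * v r)) + z.2
  obtain ⟨Bad, hB1, hB2, hB3⟩ := lacunary he hΛ1 hΛ2 C
  refine ⟨Bad.eraseNone.image Prod.fst, ?_, fun i i' hi hi' hb hb' m m' hm hm' z hz => ?_⟩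
  · refine Finset.card_image_le.trans ((Finset.card_eraseNone_le _).trans (hB1.trans ?_))
    exact Nat.pow_le_pow_left ((Finset.card_union_le _ _).trans
      (add_le_add Finset.card_image_le Finset.card_image_le)) 2
  set x : ℝ := ∑ l, ∑ r, ((m l r - m' l r : ℤ) : ℝ) * (t l * v r) with hx
  let Y : (Fin k → Fin D) → (Fin k → ι → ℤ) → ℝ := fun i m =>
    ∑ l, ∑ r, m l r * (t l * mu Λ (e (some (i l, r))))
  have hY : ∀ i m, (∀ l, Mark w (m l)) → |Y i m| ≤ k * (Fintype.card ι * (w * M)) / Λ := by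
    intro i m hm
    refine (Finset.abs_sum_le_sum_abs _ _).trans ?_
    refine (Finset.sum_le_card_nsmul _ _ (Fintype.card ι * (w * M) / Λ) fun l _ => ?_).trans
      (by simp [mul_div_assoc])
    refine (Finset.abs_sum_le_sum_abs _ _).trans ?_
    refine (Finset.sum_le_card_nsmul _ _ ((w * M) / Λ) fun r _ => ?_).trans
      (by simp [mul_div_assoc])
    rw [abs_mul, abs_of_pos (mul_pos (ht0 l) (mu_pos hΛ1 _)), mul_div_assoc, div_eq_mul_one_div M]
    have h1 : |(m l r : ℝ)| ≤ w := by exact_mod_cast (hm l).1 r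
    have h2 := mu_succ_le hΛ1 (Fintype.equivFin (Fin D × ι) (i l, r))
    exact mul_le_mul h1 (mul_le_mul (htM l) h2 (mu_pos hΛ1 _).le ((ht0 l).le.trans (htM l)))
      (mul_pos (ht0 l) (mu_pos hΛ1 _)).le (Nat.cast_nonneg _)
  have hz' : x - z + (Y i m - Y i' m') = 0 := by
    rw [← hz, hx]
    simp only [Y, speed, e, Option.elim_some, mul_add, Finset.sum_add_distrib, Int.cast_sub,
      sub_mul, Finset.sum_sub_distrib]
    ring
  have hy1 : |x - z| < 1 := by
    have h1 : x - z = -(Y i m - Y i' m') := by linarith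
    have h2 := abs_sub (Y i m) (Y i' m')
    have h3 : 2 * (k * (Fintype.card ι * (w * M)) / Λ) < 1 := by
      rw [← mul_div_assoc, div_lt_one (by linarith)]; exact hΛ3
    rw [h1, abs_neg]
    linarith [hY i m hm, hY i' m' hm']
  let zz : Fin D × ι → Fin k → ℤ := fun s l =>
    (if i l = s.1 then m l s.2 else 0) - (if i' l = s.1 then m' l s.2 else 0)
  let c : Option (Fin D × ι) → ℝ := fun s => s.elim (x - z) fun s => ∑ l, t l * zz s l
  have hW : ∀ a b : ℤ, |a| ≤ w → |b| ≤ w → a - b ∈ W := fun a b ha hb => by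
    rw [abs_le] at ha hb
    exact Finset.mem_Icc.2 ⟨by omega, by omega⟩
  have hYs : ∀ (i : Fin k → Fin D) (m : Fin k → ι → ℤ), Y i m =
      ∑ s : Fin D × ι, (∑ l, t l * ((if i l = s.1 then m l s.2 else 0 : ℤ) : ℝ)) *
        mu Λ (e (some s)) := by
    intro i m
    simp only [Y, Finset.sum_mul]
    rw [Finset.sum_comm (s := Finset.univ) (t := (Finset.univ : Finset (Fin k)))]
    refine Finset.sum_congr rfl fun l _ => ?_
    rw [Fintype.sum_prod_type, Finset.sum_eq_single (i l)]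
    · simp only [if_true]
      exact Finset.sum_congr rfl fun r _ => by ring
    · intro a _ ha
      simp [ha.symm]
    · simp
  have hc0 := hB3 c ?_ ?_ ?_
  · have key : ∀ l l', i' l' = i l → ∀ r, t l * m l r = t l' * m' l' r := by
      intro l l' h r
      have h1 := hc0 (some (i l, r))
      simp only [c, zz, Option.elim_some, Int.cast_sub, mul_sub, Finset.sum_sub_distrib] at h1
      rw [Finset.sum_eq_single l (fun b _ hb => by simp [hi.ne hb]) (by simp),
        Finset.sum_eq_single l' (fun b _ hb => by simp [← h, hi'.ne hb]) (by simp)] at h1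
      simpa [h, sub_eq_zero] using h1
    have key2 : ∀ l, i' l = i l ∧ m l = m' l := by
      intro l
      obtain ⟨r, hr⟩ := (hm l).2
      obtain ⟨l', hl'⟩ : ∃ l', i' l' = i l := by
        by_contra h
        push Not at h
        have h1 := hc0 (some (i l, r))
        simp only [c, zz, Option.elim_some, h, if_false, sub_zero] at h1
        rw [Finset.sum_eq_single l (fun b _ hb => by simp [hi.ne hb]) (by simp)] at h1
        simp [hr, (ht0 l).ne'] at h1
      obtain ⟨r', hr'⟩ := (hm' l').2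
      have h1 := key l l' hl' r
      have h2 := key l l' hl' r'
      rw [hr, Int.cast_one, mul_one] at h1
      rw [hr', Int.cast_one, mul_one] at h2
      have h3 : (0 : ℝ) < m' l' r := by
        by_contra h
        nlinarith [ht0 l, ht0 l']
      have h4 : (0 : ℝ) < m l r' := by
        by_contra h
        nlinarith [ht0 l, ht0 l']
      have h3' : (1 : ℝ) ≤ m' l' r := by exact_mod_cast h3
      have h4' : (1 : ℝ) ≤ m l r' := by exact_mod_cast h4
      have h5 : l = l' := ht (le_antisymm (by nlinarith [ht0 l]) (by nlinarith [ht0 l']))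
      subst h5
      refine ⟨hl', funext fun r => ?_⟩
      exact_mod_cast mul_left_cancel₀ (ht0 l).ne' (key l l hl' r)
    exact ⟨funext fun l => (key2 l).1.symm, funext fun l => (key2 l).2⟩
  · rintro (_ | s)
    · refine Finset.mem_union_right _ (Finset.mem_image.2
        ⟨(fun l r => m l r - m' l r, ⌊x⌋ - z), ?_, ?_⟩)
      · refine Finset.mem_product.2 ⟨Fintype.mem_piFinset.2 fun l => Fintype.mem_piFinset.2
          fun r => hW _ _ ((hm l).1 r) ((hm' l).1 r), ?_⟩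
        rw [abs_lt] at hy1
        have h1 : z - 1 ≤ ⌊x⌋ := Int.le_floor.2 (by push_cast; linarith)
        have h2 : ⌊x⌋ < z + 1 := Int.floor_lt.2 (by push_cast; linarith)
        exact Finset.mem_Icc.2 ⟨by simp only; omega, by simp only; omega⟩
      · simp only [c, Option.elim_none, ← hx, Int.fract]
        push_cast
        ring
    · refine Finset.mem_union_left _ (Finset.mem_image.2 ⟨zz s, ?_, rfl⟩)
      refine Fintype.mem_piFinset.2 fun l => hW _ _ ?_ ?_
      · split_ifs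
        exacts [(hm l).1 _, by simp]
      · split_ifs
        exacts [(hm' l).1 _, by simp]
  · rintro (_ | s) hs
    · exact absurd rfl (hB2 _ hs)
    · have h1 : s.1 ∈ Bad.eraseNone.image Prod.fst :=
        Finset.mem_image.2 ⟨s, Finset.mem_eraseNone.2 hs, rfl⟩
      have h2 : ∀ l, i l ≠ s.1 := fun l h => hb l (h ▸ h1)
      have h3 : ∀ l, i' l ≠ s.1 := fun l h => hb' l (h ▸ h1)
      simp [c, zz, h2, h3]
  · rw [Fintype.sum_option, ← hz', hYs, hYs, ← Finset.sum_sub_distrib]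
    simp only [c, zz, e, Option.elim_none, Option.elim_some, mu_zero, mul_one, Int.cast_sub,
      mul_sub, Finset.sum_sub_distrib, sub_mul]

end Pool.Agent.Lib.MP_86b0a6_an
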