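import Mathlib

namespace Pool.Agent.Lib.MP_86b0a6_an

open Set Filter Topology MeasureTheory ProbabilityTheory unitInterval

lemma continuous_cdf (ν : Measure ℝ) [IsProbabilityMeasure ν] [NullSingletonClass ν] :
    Continuous (cdf ν) := by
  rw [continuous_iff_continuousAt]
  intro x
  rw [(monotone_cdf ν).continuousAt_iff_leftLim_eq_rightLim, (cdf ν).rightLim_eq]
  have h := (cdf ν).measure_singleton x
  rw [measure_cdf, measure_singleton, eq_comm, ENNReal.ofReal_eq_zero] at h
  exact le_antisymm ((monotone_cdf ν).leftLim_le le_rfl) (by linarith)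

lemma flat_null (ν : Measure ℝ) [IsProbabilityMeasure ν] [NullSingletonClass ν] (r : ℝ) :
    ν {x | r < x ∧ cdf ν x = cdf ν r} = 0 := by
  have h1 : ∀ q : ℝ, cdf ν q = cdf ν r → ν (Ioc r q) = 0 := by
    intro q hq
    have := (cdf ν).measure_Ioc r q
    rw [measure_cdf, hq, sub_self, ENNReal.ofReal_zero] at this
    exact this
  set S := {x | r < x ∧ cdf ν x = cdf ν r} with hS
  have h2 : S ⊆ (⋃ q : {q : ℚ // cdf ν q = cdf ν r}, Ioc r (q.1 : ℝ)) ∪ {sSup S} := by
    intro x hx
    by_cases h : ∃ y ∈ S, x < y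
    · obtain ⟨y, hy, hxy⟩ := h
      obtain ⟨q, hq1, hq2⟩ := exists_rat_btwn hxy
      have : cdf ν q = cdf ν r :=
        le_antisymm (hy.2 ▸ monotone_cdf ν hq2.le) (monotone_cdf ν (hx.1.trans hq1).le)
      exact Or.inl (mem_iUnion.2 ⟨⟨q, this⟩, hx.1, hq1.le⟩)
    · push Not at h
      exact Or.inr (IsGreatest.csSup_eq ⟨hx, h⟩).symm
  refine measure_mono_null h2 (measure_union_null (measure_iUnion_null fun q => h1 _ q.2) ?_)
  exact measure_singleton _

lemma measure_cdf_le (ν : Measure ℝ) [IsProbabilityMeasure ν] [NullSingletonClass ν] {a : ℝ}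
    (h0 : 0 < a) (h1 : a < 1) : ν {x | cdf ν x ≤ a} = ENNReal.ofReal a := by
  obtain ⟨x0, hx0⟩ := ((tendsto_cdf_atBot ν).eventually (gt_mem_nhds h0)).exists
  obtain ⟨x1, hx1⟩ := ((tendsto_cdf_atTop ν).eventually (lt_mem_nhds h1)).exists
  obtain ⟨q, hq⟩ := intermediate_value_univ x0 x1 (continuous_cdf ν) ⟨hx0.le, hx1.le⟩
  have h2 : {x | cdf ν x ≤ a} = Iic q ∪ {x | q < x ∧ cdf ν x = cdf ν q} := by
    ext x
    simp only [mem_ofPred_eq, mem_union, mem_Iic]
    constructor
    · intro h
      rcases le_or_gt x q with h' | h'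
      · exact Or.inl h'
      · exact Or.inr ⟨h', le_antisymm (hq ▸ h) (monotone_cdf ν h'.le)⟩
    · rintro (h | h)
      · exact hq ▸ monotone_cdf ν h
      · exact (h.2.trans hq).le
  rw [h2, ← hq, ofReal_cdf]
  refine le_antisymm ((measure_union_le _ _).trans ?_) (measure_mono subset_union_left)
  rw [flat_null, add_zero]

/-- The distribution function as a map to the unit interval. -/
noncomputable def cdfI (ν : Measure ℝ) (x : ℝ) : I := ⟨cdf ν x, cdf_nonneg ν x, cdf_le_one ν x⟩

lemma measurePreserving_cdfI (ν : Measure ℝ) [IsProbabilityMeasure ν] [NullSingletonClass ν] :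
    MeasurePreserving (cdfI ν) ν volume := by
  have hm : Measurable (cdfI ν) := (continuous_cdf ν).measurable.subtype_mk
  refine ⟨hm, Measure.ext_of_Iic _ _ fun a => ?_⟩
  rw [Measure.map_apply hm measurableSet_Iic, unitInterval.volume_Iic]
  have e : cdfI ν ⁻¹' Iic a = {x | cdf ν x ≤ a} := rfl
  rw [e]
  rcases eq_or_lt_of_le a.2.2 with h1 | h1
  · have : {x | cdf ν x ≤ a} = univ := eq_univ_of_forall fun x => by
      rw [mem_ofPred_eq, h1]; exact cdf_le_one ν x
    rw [this, measure_univ, h1, ENNReal.ofReal_one]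
  rcases eq_or_lt_of_le a.2.1 with h0 | h0
  · rw [← h0, ENNReal.ofReal_zero, ← nonpos_iff_eq_zero]
    refine ENNReal.le_of_forall_pos_le_add fun ε hε _ => ?_
    have hb : 0 < min (ε : ℝ) (1 / 2) := lt_min hε (by norm_num)
    calc ν {x | cdf ν x ≤ 0} ≤ ν {x | cdf ν x ≤ min (ε : ℝ) (1 / 2)} :=
          measure_mono fun x hx => le_trans hx hb.le
      _ = ENNReal.ofReal (min (ε : ℝ) (1 / 2)) :=
          measure_cdf_le ν hb ((min_le_right _ _).trans_lt (by norm_num))
      _ ≤ 0 + ε := by
          rw [zero_add, ← ENNReal.ofReal_coe_nnreal]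
          exact ENNReal.ofReal_le_ofReal (min_le_left _ _)
  · exact measure_cdf_le ν h0 h1

/-- A measure isomorphism modulo null sets. -/
structure Iso {A B : Type*} [MeasurableSpace A] [MeasurableSpace B] (μ : Measure A)
    (ν : Measure B) where
  toFun : A → B
  invFun : B → A
  mp : MeasurePreserving toFun μ ν
  mp_inv : MeasurePreserving invFun ν μ
  left : ∀ᵐ a ∂μ, invFun (toFun a) = a
  right : ∀ᵐ b ∂ν, toFun (invFun b) = b

lemma exists_iso_of_injOn {A B : Type*} [MeasurableSpace A] [StandardBorelSpace A]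
    [MeasurableSpace B] [StandardBorelSpace B] {μ : Measure A} {ν : Measure B} [Nonempty A]
    {g : A → B} (hg : MeasurePreserving g μ ν) {s : Set A} (hs : MeasurableSet s)
    (hae : ∀ᵐ a ∂μ, a ∈ s) (hinj : InjOn g s) : ∃ e : Iso μ ν, e.toFun = g := by
  have := hs.standardBorel
  have h1 : MeasurableEmbedding (fun a : s => g a) :=
    (hg.measurable.comp measurable_subtype_coe).measurableEmbedding
      fun a b h => Subtype.ext (hinj a.2 b.2 h)
  obtain ⟨g', hg'm, hg'⟩ := h1.exists_measurable_extend (g := ((↑) : s → A))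
    measurable_subtype_coe fun _ => inferInstance
  have hl : ∀ᵐ a ∂μ, g' (g a) = a := hae.mono fun a ha => congrFun hg' ⟨a, ha⟩
  have hmp : MeasurePreserving g' ν μ := by
    refine ⟨hg'm, ?_⟩
    rw [← hg.map_eq, Measure.map_map hg'm hg.measurable,
      Measure.map_congr (f := g' ∘ g) (g := id) hl, Measure.map_id]
  refine ⟨⟨g, g', hg, hmp, hl, ?_⟩, rfl⟩
  rw [← hg.map_eq, ae_map_iff hg.measurable.aemeasurable]
  · exact hl.mono fun a ha => by rw [ha]
  · exact measurableSet_eq_fun (hg.measurable.comp hg'm) measurable_id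

/-- Any factor map from an atomless standard probability space onto the unit interval is
uniformly approximated by isomorphisms. -/
theorem exists_iso_near {B : Type*} [MeasurableSpace B] [StandardBorelSpace B] {m : Measure B}
    [IsProbabilityMeasure m] [NullSingletonClass m] {p : B → I} (hp : MeasurePreserving p m volume)
    {δ : ℝ} (hδ : 0 < δ) :
    ∃ e : Iso m (volume : Measure I), ∀ b, |(e.toFun b : ℝ) - p b| ≤ δ := by
  have : Nonempty B := nonempty_of_isProbabilityMeasure m
  obtain ⟨N, hN⟩ := exists_nat_one_div_lt hδ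
  set n : ℝ := (N : ℝ) + 1 with hn
  have hnpos : 0 < n := by positivity
  obtain ⟨e0, he0⟩ := exists_measurableEmbedding_real B
  let e1 : B → ℝ := fun b => Real.sigmoid (e0 b)
  have he1 : ∀ b, 0 < e1 b ∧ e1 b < 1 := fun b => ⟨Real.sigmoid_pos _, Real.sigmoid_lt_one _⟩
  have he1m : Measurable e1 := continuous_sigmoid.measurable.comp he0.measurable
  have hpm : Measurable fun b => (p b : ℝ) := measurable_subtype_coe.comp hp.measurable
  have hfm : Measurable fun b => (⌊n * p b⌋ : ℝ) :=
    (measurable_from_top (f := (Int.cast : ℤ → ℝ))).comp (hpm.const_mul n).floor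
  let e : B → ℝ := fun b => ⌊n * p b⌋ + e1 b
  have hem : Measurable e := hfm.add he1m
  have hfl : ∀ b, ⌊e b⌋ = ⌊n * p b⌋ := fun b => by
    rw [Int.floor_eq_iff]
    constructor <;> simp only [e] <;> linarith [(he1 b).1, (he1 b).2]
  have hinj : Function.Injective e := by
    intro a b hab
    have h1 : ⌊n * p a⌋ = ⌊n * p b⌋ := by rw [← hfl, ← hfl, hab]
    have h2 : e1 a = e1 b := by
      simp only [e, h1] at hab
      linarith
    exact he0.injective (Real.sigmoid_injective h2)
  let ν := m.map e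
  have : IsProbabilityMeasure ν := Measure.isProbabilityMeasure_map hem.aemeasurable
  have : NullSingletonClass ν := ⟨fun x => by
    rw [Measure.map_apply hem (measurableSet_singleton x)]
    exact (subsingleton_singleton.preimage hinj).measure_zero m⟩
  have hg : MeasurePreserving (cdfI ν ∘ e) m volume :=
    (measurePreserving_cdfI ν).comp ⟨hem, rfl⟩
  let s : Set ℝ := ⋂ r : ℚ, {x | (r : ℝ) < x ∧ cdf ν x = cdf ν r}ᶜ
  have hsm : MeasurableSet s := MeasurableSet.iInter fun r =>
    ((measurableSet_lt measurable_const measurable_id).inter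
      (measurableSet_eq_fun (continuous_cdf ν).measurable measurable_const)).compl
  have hsae : ∀ᵐ x ∂ν, x ∈ s := by
    simp only [s, mem_iInter]
    exact ae_all_iff.2 fun r => measure_eq_zero_iff_ae_notMem.1 (flat_null ν r)
  have hlt : ∀ x y, y ∈ s → x < y → cdf ν x < cdf ν y := by
    intro x y hy hxy
    obtain ⟨r, h1, h2⟩ := exists_rat_btwn hxy
    have h3 := mem_iInter.1 hy r
    refine (monotone_cdf ν h1.le).trans_lt (lt_of_le_of_ne (monotone_cdf ν h2.le) fun h => ?_)
    exact h3 ⟨h2, h.symm⟩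
  obtain ⟨E, hE⟩ := exists_iso_of_injOn hg (hem hsm) (ae_of_ae_map hem.aemeasurable hsae) (by
    intro a ha b hb hab
    have h : cdf ν (e a) = cdf ν (e b) := congrArg Subtype.val hab
    rcases lt_trichotomy (e a) (e b) with h' | h' | h'
    · exact absurd h (hlt _ _ hb h').ne
    · exact hinj h'
    · exact absurd h (hlt _ _ ha h').ne')
  refine ⟨E, fun b => ?_⟩
  rw [hE]
  change |cdf ν (e b) - p b| ≤ δ
  have hmeas : ∀ c : ℤ, cdf ν c = m.real {b' | n * p b' < c} := by
    intro c
    rw [ProbabilityTheory.cdf_eq_real, map_measureReal_apply hem measurableSet_Iic]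
    congr 1
    ext b'
    simp only [mem_preimage, mem_Iic, mem_ofPred_eq, e]
    rw [← Int.floor_lt]
    constructor
    · intro h
      have : (⌊n * p b'⌋ : ℝ) < c := by linarith [(he1 b').1]
      exact_mod_cast this
    · intro h
      have : (⌊n * p b'⌋ : ℝ) + 1 ≤ c := by exact_mod_cast h
      linarith [(he1 b').2]
  have hval : ∀ c : ℝ, 0 ≤ c → m.real {b' | n * p b' < c} = min (c / n) 1 := by
    intro c hc
    have h1 : {b' | n * p b' < c} = p ⁻¹' {x : I | (x : ℝ) < c / n} := by
      ext b'
      simp only [mem_ofPred_eq, mem_preimage]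
      rw [lt_div_iff₀ hnpos, mul_comm]
    rw [h1, hp.measureReal_preimage
      (measurableSet_lt measurable_subtype_coe measurable_const).nullMeasurableSet]
    rcases le_or_gt (c / n) 1 with h | h
    · have : {x : I | (x : ℝ) < c / n} = Iio ⟨c / n, by positivity, h⟩ := rfl
      rw [this, measureReal_def, unitInterval.volume_Iio, ENNReal.toReal_ofReal (by positivity),
        min_eq_left h]
    · have : {x : I | (x : ℝ) < c / n} = univ := eq_univ_of_forall fun x => x.2.2.trans_lt h
      rw [this, probReal_univ, min_eq_right h.le]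
  have ha0 : (0 : ℝ) ≤ ⌊n * p b⌋ := by
    exact_mod_cast Int.floor_nonneg.2 (mul_nonneg hnpos.le (p b).2.1)
  have hlo := monotone_cdf ν (show ((⌊n * p b⌋ : ℤ) : ℝ) ≤ e b by
    simp only [e]; linarith [(he1 b).1])
  have hhi := monotone_cdf ν (show e b ≤ ((⌊n * p b⌋ + 1 : ℤ) : ℝ) by
    simp only [e]; push_cast; linarith [(he1 b).2])
  rw [hmeas, hval _ ha0] at hlo
  rw [hmeas, hval _ (by push_cast; linarith)] at hhi
  have h1 : (⌊n * p b⌋ : ℝ) / n ≤ p b := by
    rw [div_le_iff₀ hnpos, mul_comm]; exact Int.floor_le _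
  have h2 : (p b : ℝ) < (⌊n * p b⌋ : ℝ) / n + 1 / n := by
    rw [← add_div, lt_div_iff₀ hnpos, mul_comm]; exact Int.lt_floor_add_one _
  rw [min_eq_left (h1.trans (p b).2.2)] at hlo
  have h3 := hhi.trans (min_le_left _ _)
  push_cast at h3
  rw [add_div] at h3
  rw [abs_le]
  constructor <;> linarith

/-- A pair of measure preserving maps that are inverse almost everywhere is represented by a
measurable equivalence. -/
theorem exists_equiv_of_ae_inverse {A : Type*} [MeasurableSpace A] [StandardBorelSpace A]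
    {μ : Measure A} {f g : A → A} (hf : MeasurePreserving f μ μ) (hg : MeasurePreserving g μ μ)
    (h1 : ∀ᵐ a ∂μ, g (f a) = a) (h2 : ∀ᵐ a ∂μ, f (g a) = a) :
    ∃ T : A ≃ᵐ A, MeasurePreserving T μ μ ∧ T =ᵐ[μ] f := by
  classical
  let w : List Bool → A → A := fun l => l.foldr (fun b h => h ∘ (if b then f else g)) id
  have hw : ∀ l, MeasurePreserving (w l) μ μ := by
    intro l
    induction l with
    | nil => exact MeasurePreserving.id μ
    | cons b l ih => cases b; exacts [ih.comp hg, ih.comp hf]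
  let s0 : Set A := {a | g (f a) = a} ∩ {a | f (g a) = a}
  have hs0 : MeasurableSet s0 :=
    (measurableSet_eq_fun (hg.measurable.comp hf.measurable) measurable_id).inter
      (measurableSet_eq_fun (hf.measurable.comp hg.measurable) measurable_id)
  let s : Set A := ⋂ l, w l ⁻¹' s0
  have hs : MeasurableSet s := MeasurableSet.iInter fun l => (hw l).measurable hs0
  have hae : ∀ᵐ a ∂μ, a ∈ s := by
    simp only [s, mem_iInter]
    exact ae_all_iff.2 fun l => (hw l).quasiMeasurePreserving.ae (h1.and h2)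
  have hfs : ∀ a ∈ s, f a ∈ s := fun a ha =>
    mem_iInter.2 fun l => mem_iInter.1 ha (true :: l)
  have hgs : ∀ a ∈ s, g a ∈ s := fun a ha =>
    mem_iInter.2 fun l => mem_iInter.1 ha (false :: l)
  have h0 : ∀ a ∈ s, a ∈ s0 := fun a ha => mem_iInter.1 ha []
  let T : A ≃ᵐ A :=
    { toFun := s.piecewise f id
      invFun := s.piecewise g id
      left_inv := fun a => by
        by_cases ha : a ∈ s
        · simp [ha, hfs a ha, (h0 a ha).1.out]
        · simp [ha]
      right_inv := fun a => by
        by_cases ha : a ∈ s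
        · simp [ha, hgs a ha, (h0 a ha).2.out]
        · simp [ha]
      measurable_toFun := hf.measurable.piecewise hs measurable_id
      measurable_invFun := hg.measurable.piecewise hs measurable_id }
  have hT : T =ᵐ[μ] f := hae.mono fun a ha => piecewise_eq_of_mem _ _ _ ha
  exact ⟨T, ⟨T.measurable, by rw [Measure.map_congr hT, hf.map_eq]⟩, hT⟩

end Pool.Agent.Lib.MP_86b0a6_an
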