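import Pool.Agent.Lib.MP_86b0a6_an.Flow

namespace Pool.Agent.Lib.MP_86b0a6_an

open Set Filter Topology MeasureTheory unitInterval
open scoped ENNReal

/-- The circle. -/
abbrev TT : Type := UnitAddCircle

/-- Haar measure of the circle. -/
noncomputable abbrev hm : Measure TT := AddCircle.haarAddCircle

/-- Haar measure of a torus. -/
noncomputable abbrev tm (ι : Type) [Fintype ι] : Measure (ι → TT) := Measure.pi fun _ => hm

/-- The representative of a point of the circle. -/
noncomputable def rho (x : TT) : I :=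
  ⟨AddCircle.equivIoc 1 0 x, (AddCircle.equivIoc 1 0 x).2.1.le,
    by simpa using (AddCircle.equivIoc 1 0 x).2.2⟩

lemma rho_coe {a : ℝ} (h0 : 0 < a) (h1 : a ≤ 1) : (rho (a : TT) : ℝ) = a :=
  AddCircle.equivIoc_coe_of_mem ⟨h0, by simpa using h1⟩

lemma rho_pos (x : TT) : 0 < (rho x : ℝ) := (AddCircle.equivIoc 1 0 x).2.1

lemma coe_rho (x : TT) : (((rho x : ℝ)) : TT) = x := AddCircle.coe_equivIoc

lemma rho_add (x : TT) {a : ℝ} (h0 : 0 ≤ a) (h1 : rho x + a ≤ 1) :
    (rho (x + (a : TT)) : ℝ) = rho x + a := by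
  conv_lhs => rw [← coe_rho x, ← AddCircle.coe_add]
  exact rho_coe (by linarith [rho_pos x]) h1

lemma mp_rho : MeasurePreserving rho hm volume := by
  have hmeas : Measurable rho :=
    (measurable_subtype_coe.comp (AddCircle.measurableEquivIoc 1 0).measurable).subtype_mk
  refine ⟨hmeas, Measure.ext_of_Iic _ _ fun a => ?_⟩
  have e : hm = (volume : Measure TT) := by
    rw [AddCircle.volume_eq_smul_haarAddCircle]; simp
  rw [Measure.map_apply hmeas measurableSet_Iic, unitInterval.volume_Iic, e,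
    AddCircle.add_projection_respects_measure 1 0 (hmeas measurableSet_Iic)]
  have : (QuotientAddGroup.mk ⁻¹' (rho ⁻¹' Iic a) ∩ Ioc (0 : ℝ) (0 + 1)) = Ioc (0 : ℝ) a := by
    ext x
    simp only [mem_inter_iff, mem_preimage, mem_Iic, mem_Ioc, zero_add]
    constructor
    · rintro ⟨h, h0, h1⟩
      exact ⟨h0, (rho_coe h0 h1).symm.le.trans h⟩
    · rintro ⟨h0, h1⟩
      have h2 := h1.trans a.2.2
      exact ⟨(rho_coe h0 h2).le.trans h1, h0, h2⟩
  rw [this, Real.volume_Ioc, sub_zero]

instance : NullSingletonClass hm := ⟨fun x => by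
  refine measure_mono_null (t := rho ⁻¹' {rho x}) (by simp) ?_
  rw [mp_rho.measure_preimage (measurableSet_singleton _).nullMeasurableSet, measure_singleton]⟩

/-- The translation action on a torus. -/
noncomputable def torAct (ι : Type) [Fintype ι] : Act (ι → ℝ) (ι → TT) (tm ι) where
  tr x := ⟨fun ω => ω + fun r => (x r : TT), by fun_prop⟩
  cont := ContinuousMap.continuous_of_continuous_uncurry _ (by
    refine continuous_snd.add (continuous_pi fun r => ?_)
    exact continuous_quot_mk.comp ((continuous_apply r).comp continuous_fst))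
  mp x := measurePreserving_add_right _ _
  zero b := by ext r; simp
  add x y b := by
    ext r
    simp only [ContinuousMap.coe_mk, Pi.add_apply, AddCircle.coe_add]
    abel

lemma torAct_apply {ι : Type} [Fintype ι] (x : ι → ℝ) (ω : ι → TT) (r : ι) :
    (torAct ι).tr x ω r = ω r + (x r : TT) := rfl

lemma mk_pow {f : I → I} (hf : MP f) (n : ℕ) : mk f hf ^ n = mk f^[n] (hf.iterate n) := by
  induction n with
  | zero => rfl
  | succ n ih => rw [pow_succ, ih, mk_mul_mk]; rfl

lemma mp_skew {r : I → I} (hr : MP r) {φ : TT → ℕ} (hφ : Measurable φ) :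
    MeasurePreserving (fun ω : Fin 2 → TT => r^[φ (ω 1)] (rho (ω 0))) (tm (Fin 2)) volume := by
  have h1 : Measurable fun z : I × ℕ => r^[z.2] z.1 :=
    measurable_from_prod_countable_left fun n => hr.measurable.iterate n
  have h2 := (MeasurePreserving.id hm).skew_product (μc := hm) (μd := (volume : Measure I))
    (g := fun s y => r^[φ s] (rho y))
    (h1.comp ((mp_rho.measurable.comp measurable_snd).prodMk (hφ.comp measurable_fst)))
    (Eventually.of_forall fun s => ((hr.iterate _).comp mp_rho).map_eq)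
  exact measurePreserving_snd.comp (h2.comp (Measure.measurePreserving_swap.comp
    (measurePreserving_piFinTwo fun _ => hm)))

lemma dist_I_le (x y : I) : dist x y ≤ 1 := by
  change |(x : ℝ) - y| ≤ 1
  rw [abs_le]
  constructor <;> linarith [x.2.1, x.2.2, y.2.1, y.2.2]

lemma conj_est {B : Type*} [MeasurableSpace B] {m : Measure B} [IsProbabilityMeasure m]
    {p : B → I} (hp : MeasurePreserving p m volume) {f : I → I} (hf : MP f) {η : ℝ}
    (hη : 0 < η) : ∃ δ > 0, ∀ e : Iso m (volume : Measure I),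
      (∀ b, |(e.toFun b : ℝ) - p b| ≤ δ) → ∀ (A : B → B) (hA : MeasurePreserving A m m),
      dist (conj e A hA) (mk f hf) ≤ ∫ b, dist (p (A b)) (f (p b)) ∂m + η := by
  obtain ⟨δ, hδ, H⟩ := koop_unif (m := m) (by simp) (mk f hf).1 (show 0 < η / 2 by positivity)
  refine ⟨min (δ / 2) (η / 2), by positivity, fun e he A hA => ?_⟩
  have h0 : ∀ S : B → B, ∫ b, dist (e.toFun (S b)) (p (S b)) ∂m ≤ min (δ / 2) (η / 2) := fun S => by
    calc _ ≤ ∫ _, min (δ / 2) (η / 2) ∂m :=
          integral_mono_of_nonneg (Eventually.of_forall fun _ => dist_nonneg) (integrable_const _)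
            (Eventually.of_forall fun b => he _)
      _ = _ := by simp
  have h1 := H e.toFun p e.mp hp (((h0 id).trans (min_le_left _ _)).trans_lt (by linarith))
  have h2 : ∀ (S : B → I) (hS : MeasurePreserving S m volume),
      Lp.compMeasurePreserving S hS (mk f hf).1 =
        Lp.compMeasurePreserving (f ∘ S) (hf.comp hS) coeL := fun S hS =>
    (Lp.compMeasurePreserving_comp_apply coeL hf hS).symm
  rw [h2, h2, dist_comp_coeL] at h1
  have h3 := (h0 A).trans (min_le_right _ _)
  have i1 := integrable_dist (m := m) (e.mp.comp hA).measurable (hp.comp hA).measurable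
  have i2 := integrable_dist (m := m) (hp.comp hA).measurable (hf.comp hp).measurable
  have i3 := integrable_dist (m := m) (hf.comp e.mp).measurable (hf.comp hp).measurable
  rw [dist_conj_mk]
  have h4 := integral_mono_of_nonneg (f := fun b => dist (e.toFun (A b)) (f (e.toFun b)))
    (Eventually.of_forall fun _ => dist_nonneg) ((i1.add i2).add i3)
    (Eventually.of_forall fun b => by
      have := dist_triangle4 (e.toFun (A b)) (p (A b)) (f (p b)) (f (e.toFun b))
      rw [dist_comm (f (p b))] at this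
      exact this)
  rw [integral_add' (i1.add i2) i3, integral_add' i1 i2] at h4
  simp only [Function.comp_apply] at h1 h4
  linarith

lemma integral_le_of_good {B : Type*} [MeasurableSpace B] {m : Measure B} [IsProbabilityMeasure m]
    {φ ψ : B → ℝ} {S : Set B} (hS : MeasurableSet S) (hψ : Integrable ψ m) (h0 : ∀ b, 0 ≤ φ b)
    (h0' : ∀ b, 0 ≤ ψ b) (h1 : ∀ b, φ b ≤ 1) (h : ∀ b, b ∉ S → φ b ≤ ψ b) :
    ∫ b, φ b ∂m ≤ ∫ b, ψ b ∂m + m.real S := by
  have i1 : Integrable (S.indicator (1 : B → ℝ)) m := (integrable_const (1 : ℝ)).indicator hS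
  rw [← integral_indicator_one hS, ← integral_add hψ i1]
  refine integral_mono_of_nonneg (Eventually.of_forall h0) (hψ.add i1)
    (Eventually.of_forall fun b => ?_)
  by_cases hb : b ∈ S
  · simp only [indicator_of_mem hb, Pi.one_apply]
    linarith [h1 b, h0' b]
  · simpa [hb] using h b hb

lemma phi_succ {k : ℕ} (hk : 0 < k) (j n : ℕ) :
    (n + 1) / k + (n + 1) % k * j = j + (n / k + n % k * j) ∨
      ((n + 1) / k + (n + 1) % k * j = 1 + n / k ∧ j + (n / k + n % k * j) = k * j + n / k) := by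
  have h1 := Nat.mod_add_div n k
  have h2 := Nat.mod_lt n hk
  rcases lt_or_eq_of_le (Nat.succ_le_of_lt h2) with h | h
  · left
    obtain ⟨a, b⟩ := (Nat.div_mod_unique (a := n + 1) (d := n / k) (c := n % k + 1) hk).2
      ⟨by omega, h⟩
    rw [a, b]; ring
  · right
    obtain ⟨a, b⟩ := (Nat.div_mod_unique (a := n + 1) (d := n / k + 1) (c := 0) hk).2
      ⟨by rw [mul_add]; omega, hk⟩
    rw [a, b]
    refine ⟨by ring, ?_⟩
    have h3 : k * j = (n % k + 1) * j := by rw [show n % k + 1 = k from h]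
    rw [h3]; ring

/-- The vertical rotation flows. -/
noncomputable def vert (e : Iso (tm (Fin 2)) (volume : Measure I)) (L : ℕ) : C(ℝ, GG) :=
  (torAct (Fin 2)).flow e ![0, 1 / L]

/-- Every class has approximate roots that are approximate powers. -/
theorem king (R : GG) {k : ℕ} (hk : 0 < k) (j : ℕ) {η : ℝ} (hη : 0 < η) :
    ∃ (L : ℕ) (e : Iso (tm (Fin 2)) (volume : Measure I)), 0 < L ∧ dist (vert e L 1) R ≤ η ∧
      dist (vert e L (1 / k)) (R ^ j) ≤ dist R (R ^ (k * j)) + η ∧
      ∀ τ ∈ Icc (0 : ℝ) (1 / k),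
        dist (vert e L τ) 1 ≤ dist (R ^ j) 1 + dist R (R ^ (k * j)) + η := by
  induction R using GG.ind with
  | h r hr =>
  have hk' : (0 : ℝ) < k := by exact_mod_cast hk
  have hk1 : (1 : ℝ) / k ≤ 1 := by
    rw [div_le_one hk']; exact_mod_cast hk
  obtain ⟨L', hL'⟩ := exists_nat_one_div_lt (show 0 < η / 2 by positivity)
  set L := L' + 1 with hLdef
  have hL : (0 : ℝ) < L := by positivity
  have hL1 : (1 : ℝ) / L < η / 2 := by simpa [hLdef] using hL'
  let E : TT → ℕ := fun s => ⌊(k * L : ℝ) * rho s⌋₊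
  have hEm : Measurable E :=
    ((measurable_subtype_coe.comp mp_rho.measurable).const_mul _).nat_floor
  let φ : ℕ → ℕ := fun n => n / k + n % k * j
  let p : (Fin 2 → TT) → I := fun ω => r^[φ (E (ω 1))] (rho (ω 0))
  let p' : (Fin 2 → TT) → I := fun ω => r^[E (ω 1) / k] (rho (ω 0))
  have hp : MeasurePreserving p (tm (Fin 2)) volume :=
    mp_skew hr ((measurable_from_top (f := φ)).comp hEm)
  have hp' : MeasurePreserving p' (tm (Fin 2)) volume :=
    mp_skew hr ((measurable_from_top (f := fun n : ℕ => n / k)).comp hEm)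
  let A : ℝ → (Fin 2 → TT) → (Fin 2 → TT) := fun τ => (torAct (Fin 2)).tr (τ • ![0, 1 / (L : ℝ)])
  let S : Set (Fin 2 → TT) := {ω | 1 - 1 / (L : ℝ) < rho (ω 1)}
  have hrho1 : MeasurePreserving (fun ω : Fin 2 → TT => rho (ω 1)) (tm (Fin 2)) volume :=
    mp_rho.comp (measurePreserving_eval (fun _ : Fin 2 => hm) 1)
  have hS0 : MeasurableSet {x : I | 1 - 1 / (L : ℝ) < x} :=
    measurableSet_lt measurable_const measurable_subtype_coe
  have hS : MeasurableSet S := hrho1.measurable hS0
  have hSm : (tm (Fin 2)).real S ≤ η / 2 := by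
    have h1 : (1 : ℝ) / L ≤ 1 := by
      rw [div_le_one hL, hLdef]; push_cast; linarith [Nat.cast_nonneg (α := ℝ) L']
    have h2 : {x : I | 1 - 1 / (L : ℝ) < x} =
        Ioi ⟨1 - 1 / (L : ℝ), by linarith, by linarith [one_div_pos.2 hL]⟩ := rfl
    have h3 := hrho1.measureReal_preimage hS0.nullMeasurableSet
    rw [h2, measureReal_def volume, unitInterval.volume_Ioi,
      ENNReal.toReal_ofReal (by simp)] at h3
    exact (le_of_eq h3).trans (by simp only; linarith)
  have hA : ∀ ω ∉ S, ∀ τ ∈ Icc (0 : ℝ) 1,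
      p (A τ ω) = r^[φ ⌊(k * L : ℝ) * rho (ω 1) + k * τ⌋₊] (rho (ω 0)) := by
    intro ω hω τ hτ
    have h1 : A τ ω 0 = ω 0 := by simp [A, torAct_apply]
    have h2 : A τ ω 1 = ω 1 + ((τ / L : ℝ) : TT) := by simp [A, torAct_apply, div_eq_mul_inv]
    have h3 : τ / L ≤ 1 / L := div_le_div_of_nonneg_right hτ.2 hL.le
    have h4 : (rho (ω 1) : ℝ) ≤ 1 - 1 / L := not_lt.1 hω
    simp only [p, E, h1, h2]
    rw [rho_add _ (div_nonneg hτ.1 hL.le) (by linarith)]
    congr 3
    field_simp
  have hnn : ∀ ω : Fin 2 → TT, 0 ≤ (k * L : ℝ) * rho (ω 1) := fun ω =>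
    mul_nonneg (by positivity) (rho _).2.1
  let D : (Fin 2 → TT) → ℝ := fun ω => dist (r (p' ω)) (r^[k * j] (p' ω))
  have hD : ∫ ω, D ω ∂(tm (Fin 2)) = dist (mk r hr) (mk r hr ^ (k * j)) := by
    rw [mk_pow, dist_mk, integral_mp hp' (hr.measurable.dist (hr.measurable.iterate _))]
  have hDi : Integrable D (tm (Fin 2)) :=
    integrable_dist (hr.comp hp').measurable ((hr.iterate _).comp hp').measurable
  let D' : (Fin 2 → TT) → ℝ := fun ω => dist (r^[j] (p ω)) (p ω)
  have hD' : ∫ ω, D' ω ∂(tm (Fin 2)) = dist (mk r hr ^ j) 1 := by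
    rw [mk_pow, one_def, dist_mk,
      integral_mp hp ((hr.measurable.iterate _).dist measurable_id)]
    rfl
  have hDi' : Integrable D' (tm (Fin 2)) :=
    integrable_dist ((hr.iterate _).comp hp).measurable hp.measurable
  have hb : ∀ ω, dist (r^[φ (E (ω 1) + 1)] (rho (ω 0))) (r^[j] (p ω)) ≤ D ω := by
    intro ω
    simp only [p, D, p', ← Function.iterate_add_apply]
    rcases phi_succ hk j (E (ω 1)) with h | ⟨h, h'⟩
    · simp only [φ, h, dist_self]
      exact dist_nonneg
    · simp only [φ, h, h', Function.iterate_add_apply r 1]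
      exact le_rfl
  obtain ⟨δ1, hδ1, H1⟩ := conj_est hp hr (show 0 < η / 2 by positivity)
  obtain ⟨δ2, hδ2, H2⟩ := conj_est hp (hr.iterate j) (show 0 < η / 2 by positivity)
  obtain ⟨δ3, hδ3, H3⟩ := conj_est hp (MeasurePreserving.id _) (show 0 < η / 2 by positivity)
  obtain ⟨e, he⟩ := exists_iso_near hp (show 0 < min δ1 (min δ2 δ3) by positivity)
  refine ⟨L, e, Nat.succ_pos _, ?_, ?_, fun τ hτ => ?_⟩
  · have h1 := H1 e (fun b => (he b).trans (min_le_left _ _)) (A 1) ((torAct _).mp _)
    have h2 := integral_le_of_good (m := tm (Fin 2)) (φ := fun b => dist (p (A 1 b)) (r (p b)))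
      (ψ := fun _ => 0) hS (integrable_const _) (fun _ => dist_nonneg) (fun _ => le_rfl)
      (fun _ => dist_I_le _ _) fun b hb => by
        rw [hA b hb 1 ⟨zero_le_one, le_rfl⟩, mul_one, Nat.floor_add_natCast (hnn b)]
        simp only [p, φ, Nat.add_div_right _ hk, Nat.add_mod_right, E]
        rw [← Function.iterate_succ_apply' r, Nat.succ_eq_add_one, add_right_comm, dist_self]
    rw [integral_zero] at h2
    exact le_trans h1 (by linarith)
  · have h1 := H2 e (fun b => (he b).trans ((min_le_right _ _).trans (min_le_left _ _)))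
      (A (1 / k)) ((torAct _).mp _)
    have h2 := integral_le_of_good (m := tm (Fin 2))
      (φ := fun b => dist (p (A (1 / k) b)) (r^[j] (p b)))
      hS hDi (fun _ => dist_nonneg) (fun _ => dist_nonneg)
      (fun _ => dist_I_le _ _) fun b hb' => by
        rw [hA b hb' _ ⟨by positivity, hk1⟩, mul_one_div_cancel hk'.ne', Nat.floor_add_one (hnn b)]
        exact hb b
    rw [hD] at h2
    rw [mk_pow hr j]
    exact le_trans h1 (by linarith)
  · have h1 := H3 e (fun b => (he b).trans ((min_le_right _ _).trans (min_le_right _ _)))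
      (A τ) ((torAct _).mp _)
    have h2 := integral_le_of_good (m := tm (Fin 2))
      (φ := fun b => dist (p (A τ b)) (p b))
      hS (hDi.add hDi') (fun _ => dist_nonneg) (fun _ => add_nonneg dist_nonneg dist_nonneg)
      (fun _ => dist_I_le _ _) fun b hb' => by
        rw [hA b hb' _ ⟨hτ.1, hτ.2.trans hk1⟩]
        have a1 : k * τ ≤ 1 := by
          have := hτ.2
          rwa [le_div_iff₀ hk', mul_comm] at this
        have a2 : E (b 1) ≤ ⌊(k * L : ℝ) * rho (b 1) + k * τ⌋₊ :=
          Nat.floor_mono (le_add_of_nonneg_right (mul_nonneg hk'.le hτ.1))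
        have a3 : ⌊(k * L : ℝ) * rho (b 1) + k * τ⌋₊ ≤ E (b 1) + 1 := by
          rw [← Nat.floor_add_one (hnn b)]
          exact Nat.floor_mono (by linarith)
        rcases a2.eq_or_lt with h | h
        · rw [← h, dist_self]
          exact add_nonneg dist_nonneg dist_nonneg
        · rw [le_antisymm a3 h]
          exact (dist_triangle _ (r^[j] (p b)) _).trans (add_le_add_left (hb b) _)
    rw [integral_add' hDi hDi', hD, hD'] at h2
    simp only [id] at h1
    exact le_trans h1 (by linarith)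

end Pool.Agent.Lib.MP_86b0a6_an
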