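import Mathlib

namespace Pool.Agent.Lib.MP_86b0a6_an

open Set Filter Topology MeasureTheory Polynomial
open scoped ENNReal

section Tens

variable {α X : Type*} [Fintype α] [MeasurableSpace X] {μ : Measure X} [IsProbabilityMeasure μ]

lemma ae_pi {P : α → X → Prop} (h : ∀ a, ∀ᵐ x ∂μ, P a x) :
    ∀ᵐ x ∂(Measure.pi fun _ : α => μ), ∀ a, P a (x a) :=
  ae_all_iff.2 fun a => (measurePreserving_eval (fun _ : α => μ) a).quasiMeasurePreserving.ae (h a)

lemma memLp_tens (f : α → Lp ℂ 2 μ) :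
    MemLp (fun x : α → X => ∏ a, f a (x a)) 2 (Measure.pi fun _ => μ) := by
  have hm : AEStronglyMeasurable (fun x : α → X => ∏ a, f a (x a)) (Measure.pi fun _ => μ) :=
    (Finset.measurable_prod _ fun a _ =>
      (Lp.stronglyMeasurable (f a)).measurable.comp (measurable_pi_apply a)).aestronglyMeasurable
  rw [memLp_two_iff_integrable_sq_norm hm]
  simp only [norm_prod, ← Finset.prod_pow]
  exact Integrable.fintype_prod (f := fun a x => ‖f a x‖ ^ 2) fun a =>
    (memLp_two_iff_integrable_sq_norm (Lp.aestronglyMeasurable _)).1 (Lp.memLp _)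

/-- Tensor product of square integrable functions. -/
noncomputable def tens (μ : Measure X) [IsProbabilityMeasure μ] :
    MultilinearMap ℂ (fun _ : α => Lp ℂ 2 μ) (Lp ℂ 2 (Measure.pi fun _ : α => μ)) where
  toFun f := (memLp_tens f).toLp _
  map_update_add' f a g h := by
      apply Lp.ext
      filter_upwards [(memLp_tens (Function.update f a (g + h))).coeFn_toLp,
        (memLp_tens (Function.update f a g)).coeFn_toLp,
        (memLp_tens (Function.update f a h)).coeFn_toLp,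
        Lp.coeFn_add ((memLp_tens (Function.update f a g)).toLp _)
          ((memLp_tens (Function.update f a h)).toLp _),
        ae_pi (α := α) (fun _ => Lp.coeFn_add g h)] with x h1 h2 h3 h4 h5
      rw [h1, h4, Pi.add_apply, h2, h3]
      simp only [Function.apply_update (fun _ (u : Lp ℂ 2 μ) => (u : X → ℂ))]
      simp only [← Finset.mul_prod_erase _ _ (Finset.mem_univ a), Function.update_self]
      rw [h5 a, Pi.add_apply, add_mul]
      congr 2 <;> refine Finset.prod_congr rfl fun b hb => ?_ <;>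
        simp [Function.update_of_ne (Finset.ne_of_mem_erase hb)]
  map_update_smul' f a c g := by
      apply Lp.ext
      filter_upwards [(memLp_tens (Function.update f a (c • g))).coeFn_toLp,
        (memLp_tens (Function.update f a g)).coeFn_toLp,
        Lp.coeFn_smul c ((memLp_tens (Function.update f a g)).toLp _),
        ae_pi (α := α) (fun _ => Lp.coeFn_smul c g)] with x h1 h2 h4 h5
      rw [h1, h4, Pi.smul_apply, h2]
      simp only [Function.apply_update (fun _ (u : Lp ℂ 2 μ) => (u : X → ℂ))]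
      simp only [← Finset.mul_prod_erase _ _ (Finset.mem_univ a), Function.update_self]
      rw [h5 a, Pi.smul_apply, smul_eq_mul, smul_eq_mul, mul_assoc]
      congr 2
      refine Finset.prod_congr rfl fun b hb => ?_
      simp [Function.update_of_ne (Finset.ne_of_mem_erase hb)]

lemma coeFn_tens (f : α → Lp ℂ 2 μ) :
    tens μ f =ᵐ[Measure.pi fun _ => μ] fun x => ∏ a, f a (x a) :=
  (memLp_tens f).coeFn_toLp

lemma coeFn_tens' {f : α → Lp ℂ 2 μ} {g : α → X → ℂ} (h : ∀ a, f a =ᵐ[μ] g a) :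
    tens μ f =ᵐ[Measure.pi fun _ => μ] fun x => ∏ a, g a (x a) := by
  filter_upwards [coeFn_tens f, ae_pi h] with x h1 h2
  rw [h1]
  exact Finset.prod_congr rfl fun a _ => h2 a

lemma norm_sq_L2 {Y : Type*} [MeasurableSpace Y] {ν : Measure Y} (F : Lp ℂ 2 ν) :
    ‖F‖ ^ 2 = ∫ x, ‖F x‖ ^ 2 ∂ν := by
  rw [← inner_self_eq_norm_sq (𝕜 := ℂ), L2.inner_def, ← integral_re (L2.integrable_inner F F)]
  simp only [inner_self_eq_norm_sq]

lemma norm_tens (f : α → Lp ℂ 2 μ) : ‖tens μ f‖ = ∏ a, ‖f a‖ := by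
  rw [← sq_eq_sq₀ (norm_nonneg _) (Finset.prod_nonneg fun _ _ => norm_nonneg _), norm_sq_L2,
    ← Finset.prod_pow]
  simp only [norm_sq_L2]
  rw [← integral_fintype_prod_eq_prod (fun a x => ‖f a x‖ ^ 2)]
  refine integral_congr_ae ((coeFn_tens f).mono fun x hx => ?_)
  simp only [hx, norm_prod, Finset.prod_pow]

lemma continuous_tens : Continuous (tens (α := α) μ) :=
  (tens μ).continuous_of_bound 1 fun f => by rw [norm_tens, one_mul]

lemma norm_tens_sub_le {f g : α → Lp ℂ 2 μ} {δ : ℝ} (hδ : 0 ≤ δ) (hδ1 : δ ≤ 1)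
    (hf : ∀ a, ‖f a‖ ≤ 1) (hfg : ∀ a, ‖f a - g a‖ ≤ δ) :
    ‖tens μ f - tens μ g‖ ≤ Fintype.card α * 2 ^ (Fintype.card α - 1) * δ := by
  have h := (tens μ).norm_image_sub_le_of_bound zero_le_one
    (fun f => by rw [norm_tens, one_mul]) f g
  have h1 : ‖f‖ ≤ 1 := (pi_norm_le_iff_of_nonneg zero_le_one).2 hf
  have h2 : ‖f - g‖ ≤ δ := (pi_norm_le_iff_of_nonneg hδ).2 hfg
  have h3 : ‖g‖ ≤ 2 := by
    have := norm_sub_norm_le g f
    rw [norm_sub_rev] at this
    linarith
  refine h.trans ?_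
  rw [one_mul]
  gcongr
  exact max_le (by linarith) h3

lemma tens_mem_span {S : α → Set (Lp ℂ 2 μ)} {f : α → Lp ℂ 2 μ}
    (hf : ∀ a, f a ∈ Submodule.span ℂ (S a)) :
    tens μ f ∈ Submodule.span ℂ {F | ∃ g : α → Lp ℂ 2 μ, (∀ a, g a ∈ S a) ∧ tens μ g = F} := by
  classical
  choose c T hT _ hc using fun a => (Submodule.mem_span_iff_exists_finset_subset).1 (hf a)
  have : f = fun a => ∑ u ∈ T a, c a u • u := funext fun a => (hc a).symm
  rw [this, MultilinearMap.map_sum_finset]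
  refine Submodule.sum_mem _ fun g hg => ?_
  rw [MultilinearMap.map_smul_univ]
  exact Submodule.smul_mem _ _ (Submodule.subset_span
    ⟨g, fun a => hT a (Fintype.mem_piFinset.1 hg a), rfl⟩)

lemma comp_tens {Y : Type*} [MeasurableSpace Y] {ν : Measure Y} [IsProbabilityMeasure ν]
    {T : α → Y → X} (hT : ∀ a, MeasurePreserving (T a) ν μ) (f : α → Lp ℂ 2 μ) :
    Lp.compMeasurePreserving (fun y a => T a (y a)) (measurePreserving_pi _ _ hT) (tens μ f) =
      tens ν fun a => Lp.compMeasurePreserving (T a) (hT a) (f a) := by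
  apply Lp.ext
  refine (Lp.coeFn_compMeasurePreserving _ _).trans ?_
  refine ((measurePreserving_pi _ _ hT).quasiMeasurePreserving.ae_eq_comp (coeFn_tens f)).trans ?_
  exact (coeFn_tens' fun a => Lp.coeFn_compMeasurePreserving (f a) (hT a)).symm

end Tens

section Ind

variable {X : Type*} [MeasurableSpace X] {μ : Measure X}

/-- Multiplication by an indicator function. -/
noncomputable def indL {E : Set X} (hE : MeasurableSet E) : Lp ℂ 2 μ →ₗ[ℂ] Lp ℂ 2 μ where
  toFun F := ((Lp.memLp F).indicator hE).toLp _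
  map_add' F G := by
    apply Lp.ext
    filter_upwards [((Lp.memLp (F + G)).indicator hE).coeFn_toLp,
      ((Lp.memLp F).indicator hE).coeFn_toLp, ((Lp.memLp G).indicator hE).coeFn_toLp,
      Lp.coeFn_add (((Lp.memLp F).indicator hE).toLp _) (((Lp.memLp G).indicator hE).toLp _),
      Lp.coeFn_add F G] with x h1 h2 h3 h4 h5
    rw [h1, h4, Pi.add_apply, h2, h3]
    by_cases hx : x ∈ E
    · simp only [indicator_of_mem hx, h5, Pi.add_apply]
    · simp [hx]
  map_smul' c F := by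
    apply Lp.ext
    filter_upwards [((Lp.memLp (c • F)).indicator hE).coeFn_toLp,
      ((Lp.memLp F).indicator hE).coeFn_toLp,
      Lp.coeFn_smul c (((Lp.memLp F).indicator hE).toLp _),
      Lp.coeFn_smul c F] with x h1 h2 h4 h5
    rw [h1, RingHom.id_apply, h4, Pi.smul_apply, h2]
    by_cases hx : x ∈ E <;> simp [hx, h5]

lemma coeFn_indL {E : Set X} (hE : MeasurableSet E) (F : Lp ℂ 2 μ) :
    indL hE F =ᵐ[μ] E.indicator F := ((Lp.memLp F).indicator hE).coeFn_toLp

lemma norm_indL_le {E : Set X} (hE : MeasurableSet E) (F : Lp ℂ 2 μ) : ‖indL hE F‖ ≤ ‖F‖ :=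
  Lp.norm_le_norm_of_ae_le ((coeFn_indL hE F).mono fun x hx => by
    rw [hx]; exact norm_indicator_le_norm_self _ _)

lemma norm_sub_indL_le [IsFiniteMeasure μ] {E : Set X} (hE : MeasurableSet E) (F : Lp ℂ 2 μ)
    (hF : ∀ᵐ x ∂μ, ‖F x‖ ≤ 1) : ‖F - indL hE F‖ ^ 2 ≤ μ.real Eᶜ := by
  rw [norm_sq_L2, ← integral_indicator_one hE.compl]
  refine integral_mono_of_nonneg (Eventually.of_forall fun x => by positivity)
    ((integrable_const (1 : ℝ)).indicator hE.compl) ?_
  filter_upwards [coeFn_indL hE F, Lp.coeFn_sub F (indL hE F), hF] with x h1 h2 h3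
  rw [h2, Pi.sub_apply, h1]
  by_cases hx : x ∈ E
  · simp [hx]
  · simpa [hx] using h3

end Ind

section Cyc

variable {E : Type*} [NormedAddCommGroup E] [NormedSpace ℂ E]

lemma aeval_eigen (V : E →L[ℂ] E) {ψ : E} {θ : ℂ} (h : V ψ = θ • ψ) (q : ℂ[X]) :
    aeval V q ψ = q.eval θ • ψ := by
  have hp : ∀ n : ℕ, (V ^ n) ψ = θ ^ n • ψ := by
    intro n
    induction n with
    | zero => simp
    | succ n ih => rw [pow_succ', mul_apply_eq_comp, ih, map_smul, h, smul_smul,
        pow_succ]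
  induction q using Polynomial.induction_on' with
  | add p q hp hq => simp [hp, hq, add_smul]
  | monomial n a =>
    rw [aeval_monomial, mul_apply_eq_comp, hp, eval_monomial, mul_smul,
      Algebra.algebraMap_eq_smul_one]
    simp [smul_comm a]

/-- A span of finitely many eigenvectors with distinct eigenvalues has many cyclic vectors. -/
theorem exists_cyc (V : E →L[ℂ] E) {σ : Type*} (S : Finset σ) (ψ : σ → E) (θ : σ → ℂ)
    (hψ : ∀ s ∈ S, V (ψ s) = θ s • ψ s) (hθ : InjOn θ S) {y z : E}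
    (hy : y ∈ Submodule.span ℂ (ψ '' S)) (hz : z ∈ Submodule.span ℂ (ψ '' S)) {ε : ℝ}
    (hε : 0 < ε) :
    ∃ F ∈ Submodule.span ℂ (ψ '' S), ‖F - y‖ < ε ∧ ∃ q : ℂ[X], aeval V q F = z := by
  classical
  obtain ⟨a, rfl⟩ := (Submodule.mem_span_image_finset_iff_exists_fun' ℂ).1 hy
  obtain ⟨b, rfl⟩ := (Submodule.mem_span_image_finset_iff_exists_fun' ℂ).1 hz
  have hc : Continuous fun η : ℂ => ‖∑ s ∈ S, (a s + η) • ψ s - ∑ s ∈ S, a s • ψ s‖ := by
    fun_prop
  have hd : Dense ((fun s => -a s) '' (S : Set σ))ᶜ :=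
    (S.finite_toSet.image _).countable.dense_compl ℂ
  obtain ⟨η, hη1, hη2⟩ := hd.inter_open_nonempty _ (isOpen_lt hc continuous_const)
    ⟨0, show _ < ε by simpa using hε⟩
  have hne : ∀ s ∈ S, a s + η ≠ 0 := fun s hs h =>
    hη2 ⟨s, hs, by linear_combination -h⟩
  refine ⟨_, (Submodule.mem_span_image_finset_iff_exists_fun' ℂ).2 ⟨_, rfl⟩, hη1,
    Lagrange.interpolate S θ fun s => b s / (a s + η), ?_⟩
  rw [map_sum]
  refine Finset.sum_congr rfl fun s hs => ?_
  rw [map_smul, aeval_eigen V (hψ s hs), Lagrange.eval_interpolate_at_node _ hθ hs, smul_smul,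
    mul_div_cancel₀ _ (hne s hs)]

/-- Approximation of a vector in a span by a subspace that approximates the generators. -/
lemma near_span {σ : Type*} (S : Finset σ) (x : σ → E) {y : E}
    (hy : y ∈ Submodule.span ℂ (x '' S)) {ε : ℝ} (hε : 0 < ε) :
    ∃ δ > 0, ∀ M : Submodule ℂ E, (∀ s ∈ S, ∃ z ∈ M, ‖x s - z‖ < δ) → ∃ z ∈ M, ‖y - z‖ < ε := by
  obtain ⟨a, rfl⟩ := (Submodule.mem_span_image_finset_iff_exists_fun' ℂ).1 hy
  have hA : 0 < ∑ s ∈ S, ‖a s‖ + 1 := by positivity
  refine ⟨ε / (∑ s ∈ S, ‖a s‖ + 1), by positivity, fun M hM => ?_⟩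
  choose! z hz hz' using hM
  refine ⟨∑ s ∈ S, a s • z s, M.sum_mem fun s hs => M.smul_mem _ (hz s hs), ?_⟩
  rw [← Finset.sum_sub_distrib]
  calc _ ≤ ∑ s ∈ S, ‖a s‖ * (ε / (∑ s ∈ S, ‖a s‖ + 1)) := by
        refine norm_sum_le_of_le _ fun s hs => ?_
        rw [← smul_sub, norm_smul]
        exact mul_le_mul_of_nonneg_left (hz' s hs).le (norm_nonneg _)
    _ < ε := by
        rw [← Finset.sum_mul, ← mul_div_assoc, div_lt_iff₀ hA]
        nlinarith

end Cyc

end Pool.Agent.Lib.MP_86b0a6_an
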