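import Pool.Agent.Lib.MP_86b0a6_an.End
import Pool.Agent.Lib.MP_86b0a6_an.Tens

namespace Pool.Agent.Lib.MP_86b0a6_an

open Set Filter Topology MeasureTheory unitInterval Polynomial
open scoped ENNReal

/-- Product measure on the cube. -/
noncomputable abbrev PI (k : ℕ) : Measure (Fin k → I) := Measure.pi fun _ => volume

/-- Square integrable functions on the cube. -/
abbrev LL (k : ℕ) : Type := Lp ℂ 2 (PI k)

/-- Square integrable functions on the interval. -/
abbrev L1' : Type := Lp ℂ 2 (volume : Measure I)

/-- Composition operator of one class. -/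
noncomputable def K1 (u : GG) (F : L1') : L1' := Lp.compMeasurePreserving (rep u) (rep_mp u) F

lemma K1_mk {f : I → I} (hf : MP f) (F : L1') :
    K1 (mk f hf) F = Lp.compMeasurePreserving f hf F :=
  comp_congr _ _ (rep_mk hf) F

lemma K1_one (F : L1') : K1 1 F = F := by
  rw [one_def, K1_mk]
  exact Lp.ext (Lp.coeFn_compMeasurePreserving _ _)

variable {k : ℕ}

lemma mp_pi {f : Fin k → I → I} (hf : ∀ l, MP (f l)) :
    MeasurePreserving (fun (x : Fin k → I) l => f l (x l)) (PI k) (PI k) :=
  measurePreserving_pi _ _ hf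

/-- Composition operator of a product of classes. -/
noncomputable def koop (u : Fin k → GG) : LL k →L[ℂ] LL k :=
  (Lp.compMeasurePreservingₗᵢ ℂ (fun (x : Fin k → I) l => rep (u l) (x l))
    (mp_pi fun l => rep_mp (u l))).toContinuousLinearMap

lemma koop_apply (u : Fin k → GG) (F : LL k) :
    koop u F = Lp.compMeasurePreserving (fun (x : Fin k → I) l => rep (u l) (x l))
      (mp_pi fun l => rep_mp (u l)) F := rfl

lemma koop_mk {f : Fin k → I → I} (hf : ∀ l, MP (f l)) (F : LL k) :
    koop (fun l => mk (f l) (hf l)) F =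
      Lp.compMeasurePreserving (fun (x : Fin k → I) l => f l (x l)) (mp_pi hf) F := by
  refine comp_congr _ _ ?_ F
  filter_upwards [ae_pi (fun l => rep_mk (hf l))] with x hx
  exact funext hx

lemma koop_tens (u : Fin k → GG) (f : Fin k → L1') :
    koop u (tens volume f) = tens volume fun l => K1 (u l) (f l) :=
  comp_tens (fun l => rep_mp (u l)) f

lemma inner_koop (u : Fin k → GG) (F G : LL k) :
    inner ℂ (koop u F) (koop u G) = inner ℂ F G :=
  (Lp.compMeasurePreservingₗᵢ ℂ (fun (x : Fin k → I) l => rep (u l) (x l))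
    (mp_pi fun l => rep_mp (u l))).inner_map_map F G

lemma koop_one (F : LL k) : koop (fun _ => 1) F = F := by
  simp only [one_def]
  rw [koop_mk (f := fun _ => id)]
  exact Lp.ext (Lp.coeFn_compMeasurePreserving _ _)

lemma integral_dist_pi_le {B : Type*} [MeasurableSpace B] {m : Measure B} [IsProbabilityMeasure m]
    {f g : Fin k → B → I} (hf : ∀ l, Measurable (f l)) (hg : ∀ l, Measurable (g l)) :
    ∫ x : Fin k → B, dist (fun l => f l (x l)) (fun l => g l (x l)) ∂(Measure.pi fun _ => m) ≤
      ∑ l, ∫ b, dist (f l b) (g l b) ∂m := by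
  have h1 : ∀ l, ∫ b, dist (f l b) (g l b) ∂m =
      ∫ x : Fin k → B, dist (f l (x l)) (g l (x l)) ∂(Measure.pi fun _ => m) := fun l => by
    conv_lhs => rw [← (measurePreserving_eval (fun _ : Fin k => m) l).map_eq]
    rw [integral_map (measurable_pi_apply l).aemeasurable
      ((hf l).dist (hg l)).aestronglyMeasurable]
  have h2 : ∀ l, Integrable (fun x : Fin k → B => dist (f l (x l)) (g l (x l)))
      (Measure.pi fun _ => m) := fun l =>
    integrable_dist ((hf l).comp (measurable_pi_apply l)) ((hg l).comp (measurable_pi_apply l))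
  simp only [h1]
  rw [← integral_finsetSum _ fun l _ => h2 l]
  refine integral_mono_of_nonneg (Eventually.of_forall fun x => dist_nonneg)
    (integrable_finsetSum _ fun l _ => h2 l) (Eventually.of_forall fun x => ?_)
  refine (dist_pi_le_iff (Finset.sum_nonneg fun _ _ => dist_nonneg)).2 fun l => ?_
  exact Finset.single_le_sum (f := fun l => dist (f l (x l)) (g l (x l)))
    (fun _ _ => dist_nonneg) (Finset.mem_univ l)

lemma continuous_koop : Continuous fun p : LL k × (Fin k → GG) => koop p.2 p.1 := by
  refine continuous_prod_of_continuous_lipschitzWith _ 1 (fun F => ?_) fun u =>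
    (Lp.isometry_compMeasurePreserving (mp_pi fun l => rep_mp (u l))).lipschitz
  rw [Metric.continuous_iff]
  intro u ε hε
  obtain ⟨δ, hδ, h⟩ := koop_unif (m := PI k) (by simp) F hε
  refine ⟨δ / (k + 1), by positivity, fun v hv => h _ _ _ _ ?_⟩
  refine (integral_dist_pi_le (fun l => (rep_mp (v l)).measurable)
    fun l => (rep_mp (u l)).measurable).trans_lt ?_
  calc _ ≤ ∑ _l : Fin k, δ / (k + 1) := Finset.sum_le_sum fun l _ => by
        rw [← dist_mk (rep_mp _) (rep_mp _), mk_rep, mk_rep]
        exact ((dist_le_pi_dist v u l).trans hv.le)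
    _ < δ := by
        rw [Finset.sum_const, Finset.card_univ, Fintype.card_fin, nsmul_eq_mul, ← mul_div_assoc,
          div_lt_iff₀ (by positivity)]
        nlinarith

lemma continuous_aeval_koop (q : ℂ[X]) :
    Continuous fun p : LL k × (Fin k → GG) => aeval (koop p.2) q p.1 := by
  have hp : ∀ n : ℕ, Continuous fun p : LL k × (Fin k → GG) => (koop p.2 ^ n) p.1 := by
    intro n
    induction n with
    | zero => simpa using continuous_fst
    | succ n ih =>
      simp only [pow_succ', mul_apply_eq_comp]
      exact continuous_koop.comp (ih.prodMk continuous_snd)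
  simp only [aeval_eq_sum_range, sum_apply, smul_apply]
  exact continuous_finsetSum _ fun n _ => (hp n).const_smul (q.coeff n)

/-- The tensor power of the space of centred functions. -/
noncomputable def HH (k : ℕ) : Submodule ℂ (LL k) :=
  (Submodule.span ℂ {G | ∃ (l : Fin k) (g : (Fin k → I) → ℂ) (hg : MemLp g 2 (PI k)),
    (∀ x y, g (Function.update x l y) = g x) ∧ hg.toLp g = G})ᗮ

lemma mem_HH {F : LL k} : F ∈ HH k ↔ ∀ (l : Fin k) (g : (Fin k → I) → ℂ) (hg : MemLp g 2 (PI k)),
    (∀ x y, g (Function.update x l y) = g x) → inner ℂ (hg.toLp g) F = 0 := by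
  rw [HH, Submodule.mem_orthogonal]
  constructor
  · exact fun h l g hg hi => h _ (Submodule.subset_span ⟨l, g, hg, hi, rfl⟩)
  · intro h u hu
    induction hu using Submodule.span_induction with
    | mem x hx =>
      obtain ⟨l, g, hg, hi, rfl⟩ := hx
      exact h l g hg hi
    | zero => simp
    | add x y _ _ hx hy => rw [inner_add_left, hx, hy, add_zero]
    | smul a x _ hx => rw [inner_smul_left, hx, mul_zero]

lemma isClosed_HH : IsClosed (HH k : Set (LL k)) := Submodule.isClosed_orthogonal _

lemma tens_mem_HH {f : Fin k → L1'} (hf : ∀ l, ∃ (u : GG) (θ : ℂ), θ ≠ 1 ∧ K1 u (f l) = θ • f l) :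
    tens volume f ∈ HH k := by
  refine mem_HH.2 fun l g hg hi => ?_
  obtain ⟨u, θ, hθ, hu⟩ := hf l
  have h1 : koop (Function.update (fun _ => 1) l u) (tens volume f) = θ • tens volume f := by
    rw [koop_tens]
    have : (fun l' => K1 (Function.update (fun _ => (1 : GG)) l u l') (f l')) =
        Function.update f l (θ • f l) := by
      funext l'
      by_cases h : l' = l
      · subst h; simp [hu]
      · simp [Function.update_of_ne h, K1_one]
    rw [this, MultilinearMap.map_update_smul, Function.update_eq_self]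
  have h2 : koop (Function.update (fun _ => 1) l u) (hg.toLp g) = hg.toLp g := by
    induction u using GG.ind with
    | h w hw =>
      have hmp : ∀ l', MP (Function.update (fun _ => (id : I → I)) l w l') := fun l' => by
        by_cases h : l' = l
        · subst h; simpa using hw
        · simpa [Function.update_of_ne h] using MeasurePreserving.id _
      have : Function.update (fun _ => (1 : GG)) l (mk w hw) =
          fun l' => mk (Function.update (fun _ => (id : I → I)) l w l') (hmp l') := by
        funext l'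
        by_cases h : l' = l
        · subst h; simp
        · simp [Function.update_of_ne h, one_def]
      rw [this, koop_mk]
      apply Lp.ext
      refine (Lp.coeFn_compMeasurePreserving _ _).trans ?_
      refine ((mp_pi hmp).quasiMeasurePreserving.ae_eq_comp hg.coeFn_toLp).trans ?_
      refine EventuallyEq.trans (Eventually.of_forall fun x => ?_) hg.coeFn_toLp.symm
      rw [Function.comp_apply, ← hi x (w (x l))]
      congr 1
      funext l'
      by_cases h : l' = l
      · subst h; simp
      · simp [Function.update_of_ne h]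
  have h3 := inner_koop (Function.update (fun _ => 1) l u) (hg.toLp g) (tens volume f)
  rw [h1, h2, inner_smul_right] at h3
  have h4 : (θ - 1) * inner ℂ (hg.toLp g) (tens volume f) = 0 := by linear_combination h3
  exact (mul_eq_zero.1 h4).resolve_left (sub_ne_zero.2 hθ)

/-- The approximate cyclicity requirement. -/
def Req (u : Fin k → GG) (G h : LL k) (ε : ℝ) : Prop :=
  ∃ F ∈ HH k, ‖F - G‖ < ε ∧ ∃ q : ℂ[X], ‖h - aeval (koop u) q F‖ < ε

lemma isOpen_Req (G h : LL k) (ε : ℝ) : IsOpen {u : Fin k → GG | Req u G h ε} := by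
  simp only [Req, ofPred_exists]
  refine isOpen_iUnion fun F => ?_
  by_cases hF : F ∈ HH k ∧ ‖F - G‖ < ε
  · simp only [hF.1, hF.2, true_and, ofPred_exists]
    refine isOpen_iUnion fun q => isOpen_lt ?_ continuous_const
    exact (continuous_const.sub ((continuous_aeval_koop q).comp
      (continuous_const.prodMk continuous_id))).norm
  · convert isOpen_empty
    ext u
    simp only [mem_ofPred_eq, mem_empty_iff_false, iff_false]
    exact fun h => hF ⟨h.1, h.2.1⟩

lemma isOpen_forall_Req {K : Set (Fin k → ℝ)} (hK : IsCompact K) (G h : LL k) (ε : ℝ) :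
    IsOpen {Φ : C(ℝ, GG) | ∀ t ∈ K, Req (fun l => Φ (t l)) G h ε} := by
  rw [isOpen_iff_eventually]
  intro Φ hΦ
  refine hK.eventually_forall_of_forall_eventually fun t ht => ?_
  have hc : Continuous fun z : C(ℝ, GG) × (Fin k → ℝ) => fun l => z.1 (z.2 l) := by fun_prop
  exact ((isOpen_Req G h ε).preimage hc).mem_nhds (hΦ t ht)

/-- The requirements along a dense set give a cyclic vector. -/
theorem exists_cyclic (u : Fin k → GG) {D : Set (HH k)} (hD : Dense D) (hc : D.Countable)
    (hu : ∀ G ∈ D, ∀ h ∈ D, ∀ n : ℕ, Req u G h (1 / ((n : ℝ) + 1))) :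
    ∃ F ∈ HH k, ∀ h ∈ HH k, ∀ ε > 0, ∃ q : ℂ[X], ‖h - aeval (koop u) q F‖ < ε := by
  have : CompleteSpace (HH k) := isClosed_HH.completeSpace_coe
  have := hc.to_subtype
  let O : D × ℕ → Set (HH k) := fun z =>
    {F | ∃ q : ℂ[X], ‖(z.1.1 : LL k) - aeval (koop u) q (F : LL k)‖ < 1 / ((z.2 : ℝ) + 1)}
  have hOo : ∀ z, IsOpen (O z) := fun z => by
    simp only [O, ofPred_exists]
    exact isOpen_iUnion fun q => isOpen_lt (by fun_prop) continuous_const
  have hOd : ∀ z, Dense (O z) := fun z => by
    rw [Metric.dense_iff]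
    intro F r hr
    obtain ⟨G, hG, hGD⟩ := Metric.dense_iff.1 hD F (r / 2) (by positivity)
    obtain ⟨n, hn⟩ := exists_nat_one_div_lt (show 0 < r / 2 by positivity)
    obtain ⟨F', hF', h1, q, h2⟩ := hu G hGD z.1 z.1.2 (max n z.2)
    refine ⟨⟨F', hF'⟩, ?_, q, h2.trans_le ?_⟩
    · have h3 : (1 : ℝ) / ((max n z.2 : ℕ) + 1) ≤ 1 / (n + 1) :=
        Nat.one_div_le_one_div (le_max_left _ _)
      have h4 : dist (⟨F', hF'⟩ : HH k) G < r / 2 := by
        rw [Subtype.dist_eq, dist_eq_norm]
        exact h1.trans_le (h3.trans hn.le)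
      have := dist_triangle (⟨F', hF'⟩ : HH k) G F
      rw [Metric.mem_ball] at hG ⊢
      linarith
    · exact Nat.one_div_le_one_div (le_max_right _ _)
  obtain ⟨F, hF⟩ := (dense_iInter_of_isOpen hOo hOd).nonempty
  refine ⟨F, F.2, fun h hh ε hε => ?_⟩
  obtain ⟨h', h1, h2⟩ := Metric.dense_iff.1 hD ⟨h, hh⟩ (ε / 2) (by positivity)
  obtain ⟨n, hn⟩ := exists_nat_one_div_lt (show 0 < ε / 2 by positivity)
  obtain ⟨q, hq⟩ := mem_iInter.1 hF (⟨h', h2⟩, n)
  refine ⟨q, ?_⟩
  rw [Metric.mem_ball, Subtype.dist_eq, dist_comm, dist_eq_norm] at h1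
  have := norm_sub_le_norm_sub_add_norm_sub h (h' : LL k) (aeval (koop u) q (F : LL k))
  simp only at hq h1
  linarith

end Pool.Agent.Lib.MP_86b0a6_an
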