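import Pool.Agent.Lib.MP_86b0a6_an.King
import Pool.Agent.Lib.MP_86b0a6_an.Baire

namespace Pool.Agent.Lib.MP_86b0a6_an

open Set Filter Topology MeasureTheory unitInterval
open scoped ENNReal

lemma coe_int_TT (z : ℤ) : ((z : ℝ) : TT) = 0 :=
  (AddCircle.coe_eq_zero_iff 1).2 ⟨z, by simp⟩

lemma vert_isPer (e : Iso (tm (Fin 2)) (volume : Measure I)) {L : ℕ} (hL : 0 < L) :
    IsPer (vert e L) := by
  have hL' : (0 : ℝ) < L := by exact_mod_cast hL
  refine ⟨(torAct (Fin 2)).isFlow e _, L, hL', (torAct (Fin 2)).T_eq_one e fun b => ?_⟩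
  ext r
  rw [torAct_apply]
  fin_cases r
  · simp
  · simp [hL'.ne']

lemma exists_rescale {Φ : C(ℝ, GG)} (hΦ : IsPer Φ) (T : ℝ) {ε : ℝ} (hε : 0 < ε) {k : ℕ}
    (hk : 0 < k) : ∃ (Φ' : C(ℝ, GG)) (j : ℕ), IsFlow Φ' ∧ Φ' j = Φ' (1 / k) ∧
      ∀ t ∈ Icc (-T) T, dist (Φ' t) (Φ t) ≤ ε := by
  obtain ⟨hΦ, p, hp, hp1⟩ := hΦ
  have hk' : (1 : ℝ) ≤ k := by exact_mod_cast hk
  have hk1 : (1 : ℝ) / k ≤ 1 := by rwa [div_le_one (by linarith)]
  have hk0 : (0 : ℝ) < 1 / k := by positivity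
  have h1 : ∀ᶠ c : ℝ in 𝓝 1, ∀ t ∈ Icc (-T) T, dist (Φ (c * t)) (Φ t) < ε := by
    refine isCompact_Icc.eventually_forall_of_forall_eventually fun t _ => ?_
    have hc : Continuous fun z : ℝ × ℝ => dist (Φ (z.1 * z.2)) (Φ z.2) := by fun_prop
    exact (isOpen_lt hc continuous_const).mem_nhds (by simpa using hε)
  obtain ⟨δ, hδ, h2⟩ := Metric.eventually_nhds_iff.1 h1
  obtain ⟨a, ha⟩ := exists_nat_gt (2 / (δ * p))
  have ha' : 2 < a * p * δ := by
    rw [div_lt_iff₀ (by positivity)] at ha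
    linarith
  have hap : 0 < a * p := by
    by_contra h
    nlinarith
  set j : ℕ := ⌈a * p⌉₊ + 1 with hj
  have hj1 : a * p ≤ (j : ℝ) - 1 / k := by
    have := Nat.le_ceil (a * p)
    rw [hj]; push_cast; linarith
  have hj2 : (j : ℝ) - 1 / k ≤ a * p + 2 := by
    have := Nat.ceil_lt_add_one hap.le
    rw [hj]; push_cast; linarith
  set w : ℝ := (j : ℝ) - 1 / k with hw
  have hw0 : 0 < w := hap.trans_le hj1
  set c : ℝ := a * p / w with hc
  have hc1 : dist c 1 < δ := by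
    rw [Real.dist_eq, abs_sub_comm, abs_of_nonneg (by rw [sub_nonneg, div_le_one hw0]; exact hj1),
      hc, one_sub_div hw0.ne', div_lt_iff₀ hw0]
    nlinarith
  refine ⟨⟨fun t => Φ (c * t), by fun_prop⟩, j, ⟨by simpa using hΦ.zero, fun s t => ?_⟩, ?_,
    fun t ht => (h2 hc1 t ht).le⟩
  · simp only [ContinuousMap.coe_mk, mul_add, hΦ.add]
  · have : c * j = c * (1 / k) + a * p := by
      have : c * w = a * p := by rw [hc]; field_simp
      rw [← this, hw]; ring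
    simp only [ContinuousMap.coe_mk]
    rw [this, hΦ.add, hΦ.nat_mul, hp1, one_pow, mul_one]

/-- Local density of the time one maps. -/
theorem local_dense {Φ : C(ℝ, GG)} (hΦ : IsPer Φ) {U : Set C(ℝ, GG)} (hU : U ∈ 𝓝 Φ) :
    ∃ (R₀ : GG) (δ : ℝ), 0 < δ ∧ ∀ R, dist R R₀ < δ → ∀ η > 0,
      ∃ (L : ℕ) (e : Iso (tm (Fin 2)) (volume : Measure I)), 0 < L ∧ vert e L ∈ U ∧
        dist (vert e L 1) R ≤ η := by
  obtain ⟨T, ε, hε, H⟩ := exists_of_mem_nhds hU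
  obtain ⟨d, hd, hd'⟩ := Metric.continuous_iff.1 Φ.continuous 0 (ε / 10) (by positivity)
  obtain ⟨k', hk'⟩ := exists_nat_one_div_lt hd
  have hk : (1 : ℝ) / (k' + 1 : ℕ) < d := by simpa using hk'
  have hk1 : (1 : ℝ) / (k' + 1 : ℕ) ≤ 1 := by
    rw [div_le_one (by positivity)]; simp
  obtain ⟨Φ', j, hΦ', hj, hnear⟩ := exists_rescale hΦ (max T 1) (show 0 < ε / 10 by positivity)
    k'.succ_pos
  obtain ⟨δ, hδ, η0, hη0, hcore⟩ := core_step hΦ' k'.succ_pos T (show 0 < ε / 5 by positivity) hj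
    fun τ hτ => by
      have h1 := hnear τ ⟨by linarith [hτ.1, le_max_right T 1],
        (hτ.2.trans hk1).trans (le_max_right _ _)⟩
      have h2 := hd' τ (by
        rw [Real.dist_eq, sub_zero, abs_of_nonneg hτ.1]; exact hτ.2.trans_lt hk)
      rw [hΦ.1.zero] at h2
      linarith [dist_triangle (Φ' τ) (Φ τ) 1]
  refine ⟨Φ' 1, δ, hδ, fun R hR η hη => ?_⟩
  obtain ⟨L, e, hL, h1, h2, h3⟩ := king R k'.succ_pos j (show 0 < min η η0 by positivity)
  refine ⟨L, e, hL, H _ fun t ht => ?_, h1.trans (min_le_left _ _)⟩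
  have h4 := hcore R hR _ (vert_isPer e hL).1 (h2.trans (by gcongr; exact min_le_right _ _))
    (fun τ hτ => (h3 τ hτ).trans (by gcongr; exact min_le_right _ _)) t ht
  have h5 := hnear t ⟨by linarith [ht.1, le_max_left T 1], ht.2.trans (le_max_left _ _)⟩
  linarith [dist_triangle (vert e L t) (Φ' t) (Φ t)]

/-- The space of flows that are limits of periodic flows. -/
abbrev XX : Type := closure {Φ : C(ℝ, GG) | IsPer Φ}

lemma XX.isFlow (Φ : XX) : IsFlow Φ.1 :=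
  closure_minimal (fun _ h => h.1) isClosed_isFlow Φ.2

lemma XX.exists_per {U : Set XX} (hU : IsOpen U) (hne : U.Nonempty) :
    ∃ (V : Set C(ℝ, GG)) (Φ : C(ℝ, GG)), IsOpen V ∧ Subtype.val ⁻¹' V = U ∧ IsPer Φ ∧ Φ ∈ V := by
  obtain ⟨V, hV, rfl⟩ := isOpen_induced_iff.1 hU
  obtain ⟨Φ, hΦ⟩ := hne
  obtain ⟨Ψ, h1, h2⟩ := mem_closure_iff.1 Φ.2 V hV hΦ
  exact ⟨V, Ψ, hV, rfl, h2, h1⟩

lemma XX.exists_vert {U : Set XX} (hU : IsOpen U) (hne : U.Nonempty) :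
    ∃ (V : Set C(ℝ, GG)) (L : ℕ) (e : Iso (tm (Fin 2)) (volume : Measure I)),
      IsOpen V ∧ Subtype.val ⁻¹' V = U ∧ 0 < L ∧ vert e L ∈ V := by
  obtain ⟨V, Φ, hV, hVU, hΦ, hΦV⟩ := XX.exists_per hU hne
  obtain ⟨R, δ, hδ, H⟩ := local_dense hΦ (hV.mem_nhds hΦV)
  obtain ⟨L, e, hL, h, -⟩ := H R (by simpa using hδ) 1 one_pos
  exact ⟨V, L, e, hV, hVU, hL, h⟩

/-- Time one maps of a residual set of flows form a residual set. -/
theorem residual_time_one {G : Set XX} (hG : G ∈ residual XX) :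
    {u : GG | ∃ Φ ∈ G, Φ.1 1 = u} ∈ residual GG := by
  have : CompleteSpace XX := isClosed_closure.completeSpace_coe
  let _ : PseudoMetricSpace XX := UniformSpace.pseudoMetricSpace XX
  have : Nonempty XX := by
    obtain ⟨L, e, hL, -⟩ := king 1 one_pos 0 one_pos
    exact ⟨⟨_, subset_closure (vert_isPer e hL)⟩⟩
  have h := residual_image (X := XX) (Y := GG) (f := fun Φ => Φ.1 1) (by fun_prop) ?_ ?_ hG
  · simpa only [inseparable_iff_eq] using h
  · refine Metric.denseRange_iff.2 fun R r hr => ?_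
    obtain ⟨L, e, hL, h, -⟩ := king R one_pos 0 (show 0 < r / 2 by positivity)
    exact ⟨⟨_, subset_closure (vert_isPer e hL)⟩, by rw [dist_comm]; exact h.trans_lt (by linarith)⟩
  · intro U hU hne
    obtain ⟨V, Φ, hV, rfl, hΦ, hΦV⟩ := XX.exists_per hU hne
    obtain ⟨R₀, δ, hδ, H⟩ := local_dense hΦ (hV.mem_nhds hΦV)
    refine ⟨R₀, mem_interior.2 ⟨Metric.ball R₀ δ, fun R hR => ?_, Metric.isOpen_ball,
      Metric.mem_ball_self hδ⟩⟩
    refine Metric.mem_closure_iff.2 fun η hη => ?_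
    obtain ⟨L, e, hL, h1, h2⟩ := H R hR (η / 2) (by positivity)
    exact ⟨_, ⟨⟨_, subset_closure (vert_isPer e hL)⟩, h1, rfl⟩,
      by rw [dist_comm]; exact h2.trans_lt (by linarith)⟩

end Pool.Agent.Lib.MP_86b0a6_an
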