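import Pool.Agent.Lib.MP_86b0a6_an.Fib
import Pool.Agent.Lib.MP_86b0a6_an.Local

namespace Pool.Agent.Lib.MP_86b0a6_an

open Set Filter Topology MeasureTheory unitInterval
open scoped ENNReal

lemma common_den {β : Type*} [Fintype β] (f : β → ℝ) (hf : ∀ b, ∃ q : ℚ, f b = q) :
    ∃ p : ℕ, 0 < p ∧ ∀ b, ∃ z : ℤ, p * f b = z := by
  classical
  choose q hq using hf
  refine ⟨∏ b, (q b).den, Finset.prod_pos fun b _ => (q b).den_pos, fun b => ?_⟩
  obtain ⟨c, hc⟩ := Finset.dvd_prod_of_mem (fun b => (q b).den) (Finset.mem_univ b)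
  refine ⟨c * (q b).num, ?_⟩
  rw [hc, hq, Rat.cast_def]
  have : ((q b).den : ℝ) ≠ 0 := by exact_mod_cast (q b).den_nz
  push_cast
  field_simp

lemma near_base (e : Iso (tm (Fin 2)) (volume : Measure I)) {k : ℕ} {G : LL k}
    (hG : G ∈ HH k) {ε : ℝ} (hε : 0 < ε) :
    ∃ J : Finset (Fin k → Fin 2 → ℤ), (∀ j ∈ J, ∀ l, j l ≠ 0) ∧ ∃ δ > 0,
      ∀ M : Submodule ℂ (LL k), (∀ j ∈ J, ∃ z ∈ M, ‖tens volume (fun l => xx e (j l)) - z‖ < δ) →
        ∃ z ∈ M, ‖G - z‖ < ε := by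
  obtain ⟨J, hJ, G', hG', h1⟩ := base_expansion e hG (show 0 < ε / 2 by positivity)
  obtain ⟨δ, hδ, h2⟩ := near_span J _ hG' (show 0 < ε / 2 by positivity)
  refine ⟨J, hJ, δ, hδ, fun M hM => ?_⟩
  obtain ⟨z, hz, h3⟩ := h2 M hM
  exact ⟨z, hz, by linarith [norm_sub_le_norm_sub_add_norm_sub G G' z]⟩

lemma tendsto_speed {ι : Type} [Fintype ι] (D : ℕ) (v : ι → ℝ) :
    Tendsto (speed D v) atTop (𝓝 fun _ => v) := by
  refine tendsto_pi_nhds.2 fun a => tendsto_pi_nhds.2 fun r => ?_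
  have h : Tendsto (fun Λ : ℝ => mu Λ (Fintype.equivFin (Fin D × ι) (a, r) + 1)) atTop (𝓝 0) := by
    refine tendsto_of_tendsto_of_tendsto_of_le_of_le' tendsto_const_nhds
      (tendsto_const_nhds.div_atTop (a := 1) tendsto_id) ?_ ?_
    · filter_upwards [eventually_ge_atTop 1] with Λ hΛ using (mu_pos hΛ _).le
    · filter_upwards [eventually_ge_atTop 1] with Λ hΛ using mu_succ_le hΛ _
  simpa [speed] using h.const_add (v r)

theorem spectral (e : Iso (tm (Fin 2)) (volume : Measure I)) (L : ℕ) {U : Set C(ℝ, GG)}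
    (hU : IsOpen U) (heU : vert e L ∈ U) {k : ℕ} (M : ℝ) {G h : LL k} (hG : G ∈ HH k)
    (hh : h ∈ HH k) {ε : ℝ} (hε : 0 < ε) :
    ∃ Ψ ∈ U, IsPer Ψ ∧ ∀ t : Fin k → ℝ, (∀ l, 0 < t l) → (∀ l, t l ≤ M) → Function.Injective t →
      Req (fun l => Ψ (t l)) G h ε := by
  classical
  obtain ⟨J1, hJ1, δ1, hδ1, H1⟩ := near_base e hG (show 0 < ε / 2 by positivity)
  obtain ⟨J2, hJ2, δ2, hδ2, H2⟩ := near_base e hh hε
  have hJ : ∀ j ∈ J1 ∪ J2, ∀ l, j l ≠ 0 := fun j hj =>
    (Finset.mem_union.1 hj).elim (hJ1 j) (hJ2 j)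
  set J := J1 ∪ J2
  set δ' := min δ1 δ2 with hδ'
  have hδ'0 : 0 < δ' := by positivity
  obtain ⟨δ, hδ0, hδ1', hδ⟩ : ∃ δ : ℝ, 0 < δ ∧ δ ≤ 1 ∧ (1 + k * 2 ^ (k - 1)) * δ ≤ δ' / 2 := by
    refine ⟨min 1 (δ' / 2 / (1 + k * 2 ^ (k - 1))), by positivity, min_le_left _ _, ?_⟩
    rw [← le_div_iff₀' (by positivity)]
    exact min_le_right _ _
  obtain ⟨v, hv⟩ := exists_generic
  obtain ⟨A, hA, hA1⟩ := exists_marker_set
  have hu : ∀ j : Fin 2 → ℤ, ‖uu hA (chi j v)‖ ≤ 1 := fun j =>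
    norm_le_one_of_ae ((coeFn_uu hA _).mono fun x hx => by
      rw [hx]; simp only; split_ifs <;> simp [norm_chi])
  obtain ⟨P, hP⟩ := ((eventually_all_finset J).2 fun j hj => eventually_all.2 fun l =>
    marker_approx (j l) (hu (j l))
      (by rw [inner_uu]; exact mul_ne_zero (sub_ne_zero.2 (hv _ (hJ j hj l))) hA1) hδ0).exists
  obtain ⟨w, hw⟩ := ((eventually_all_finset J).2 fun j hj => eventually_all.2 fun l =>
    hP j hj l).exists
  choose! f' hf' hf'' using hw
  obtain ⟨N, hN⟩ := distinct k (Fin 2 ⊕ Fin P) w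
  obtain ⟨D, hD⟩ := good_mass k N (show 0 < δ ^ 2 by positivity)
  obtain ⟨η1, hη1, hnear⟩ := near_of_intertwine (hU.mem_nhds heU)
  obtain ⟨η2, hη2, hkoop⟩ : ∃ η > 0, ∀ q : GG, dist q 1 < η → ∀ j ∈ J,
      ‖tens volume (fun l => xx e (j l)) -
        koop (fun _ => q) (tens volume fun l => xx e (j l))‖ < δ' / 2 := by
    refine Metric.eventually_nhds_iff.1 ((eventually_all_finset J).2 fun j _ => ?_)
    have hc : Continuous fun q : GG => ‖tens volume (fun l => xx e (j l)) -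
        koop (fun _ : Fin k => q) (tens volume fun l => xx e (j l))‖ :=
      (continuous_const.sub (continuous_koop.comp
        (continuous_const.prodMk (continuous_pi fun _ => continuous_id)))).norm
    exact (isOpen_lt hc continuous_const).mem_nhds (by simpa [koop_one] using hδ'0)
  have hp0 : MeasurePreserving (pp A v P ∘ Prod.snd) (bm D (Fin 2 ⊕ Fin P)) (tm (Fin 2)) :=
    (mp_pp hA v P).comp measurePreserving_snd
  have hp := e.mp.comp hp0
  obtain ⟨g, hg⟩ := exists_iso_near hp (show 0 < min η1 η2 / 2 by positivity)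
  have hqm := hp.comp g.mp_inv
  set q := mk _ hqm with hq
  have hq1 : dist q 1 < min η1 η2 := by
    rw [hq, one_def, dist_mk]
    calc _ ≤ ∫ _ : I, min η1 η2 / 2 := by
          refine integral_mono_of_nonneg (Eventually.of_forall fun _ => dist_nonneg)
            (integrable_const _) (g.right.mono fun x hx => ?_)
          have := hg (g.invFun x)
          rw [hx, abs_sub_comm] at this
          exact this
      _ < _ := by
          rw [integral_const, probReal_univ, one_smul]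
          exact half_lt_self (by positivity)
  let v0 : Fin 2 ⊕ Fin P → ℝ := Sum.elim ![0, 1 / (L : ℝ)] 0
  have h0 : (fibAct D _).flow g (fun _ => v0) ∈ U := by
    refine hnear q _ (hq1.trans_le (min_le_left _ _)) fun t => ?_
    simp only [hq, vert, Act.flow_apply, Act.T, conj, mk_mul_mk]
    refine (mk_eq_iff _ _).2 ?_
    filter_upwards [(((fibAct D _).mp (t • fun _ => v0)).comp g.mp_inv).quasiMeasurePreserving.ae
      g.left, (hp0.comp g.mp_inv).quasiMeasurePreserving.ae e.left] with x h1 h2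
    simp only [Function.comp_apply] at h1 h2 ⊢
    have h3 : (t • fun _ : Fin (D + 1) => v0) (g.invFun x).1 =
        Sum.elim (t • ![0, 1 / (L : ℝ)]) 0 := by
      funext r
      cases r <;> simp only [v0, Pi.smul_apply, Sum.elim_inl, Sum.elim_inr, Pi.zero_apply,
        smul_zero]
    rw [h1, h2, fibAct_apply, ← pp_tr, h3]
  obtain ⟨Λ, hΛU, hΛ⟩ := (tendsto_natCast_atTop_atTop.eventually
    (((((fibAct D _).continuous_flow g).tendsto _).comp
      (tendsto_speed (D + 1) v0)).eventually (hU.mem_nhds h0) |>.and (hN (D + 1) v0 M))).exists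
  refine ⟨(fibAct D _).flow g (speed (D + 1) v0 Λ), hΛU,
    ⟨(fibAct D (Fin 2 ⊕ Fin P)).isFlow g _, ?_⟩, fun t ht0 htM ht => ?_⟩
  · obtain ⟨p, hp, hz⟩ := common_den
      (fun s : Fin (D + 1) × (Fin 2 ⊕ Fin P) => speed (D + 1) v0 Λ s.1 s.2) fun s => by
        obtain ⟨c, hc⟩ : ∃ c : ℚ, v0 s.2 = c := by
          rcases s with ⟨a, r | r⟩
          · fin_cases r
            · exact ⟨0, by simp [v0]⟩
            · exact ⟨1 / L, by simp [v0]⟩
          · exact ⟨0, by simp [v0]⟩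
        exact ⟨c + ((Λ : ℚ) ^ (2 ^ ((Fintype.equivFin _ s : ℕ) + 1) - 1))⁻¹,
          by simp [speed, mu, hc]⟩
    refine ⟨p, by exact_mod_cast hp, (fibAct D (Fin 2 ⊕ Fin P)).T_eq_one g fun b => ?_⟩
    refine Prod.ext rfl (funext fun r => ?_)
    obtain ⟨z, hz⟩ := hz (b.1, r)
    simp only [fibAct_apply, torAct_apply, Pi.smul_apply, smul_eq_mul, hz, coe_int_TT, add_zero]
  · obtain ⟨Bad, hB, hdist⟩ := hΛ t ht0 htM ht
    let S := goodIdx k Bad ×ˢ Fintype.piFinset fun _ : Fin k => markF (Fin 2 ⊕ Fin P) w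
    have hS : ∀ s ∈ S, (Function.Injective s.1 ∧ ∀ l, s.1 l ∉ Bad) ∧ ∀ l, Mark w (s.2 l) :=
      fun s hs => ⟨mem_goodIdx.1 (Finset.mem_product.1 hs).1,
        fun l => mem_markF.1 (Fintype.mem_piFinset.1 (Finset.mem_product.1 hs).2 l)⟩
    have key : ∀ j ∈ J, ∃ z ∈ Submodule.span ℂ (Psi g '' S),
        ‖tens volume (fun l => xx e (j l)) - z‖ < δ' := by
      intro j hj
      obtain ⟨y, hy, h1⟩ := cut g (f := fun l => ff (j l) (uu hA (chi (j l) v)) P)
        (fun l => (coeFn_ff hA v P (j l)).mono fun ω hω => by rw [hω, norm_chi])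
        hδ0.le hδ1' (fun l => (hf'' j hj l).le) (hf' j hj) _ (hD Bad hB)
      have h2 := hkoop q (hq1.trans_le (min_le_right _ _)) j hj
      have h3 : ∀ l, K1 q (xx e (j l)) = emb g (ff (j l) (uu hA (chi (j l) v)) P) := fun l => by
        rw [hq, K1_mk]
        apply Lp.ext
        filter_upwards [Lp.coeFn_compMeasurePreserving (xx e (j l)) hqm,
          hqm.quasiMeasurePreserving.ae (coeFn_xx e (j l)), coeFn_emb g (coeFn_ff hA v P (j l)),
          (hp0.comp g.mp_inv).quasiMeasurePreserving.ae e.left] with x a1 a2 a3 a4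
        rw [a1, a3, Function.comp_apply, a2]
        simp only [Function.comp_apply] at a4 ⊢
        rw [a4]
      rw [koop_tens] at h2
      simp only [h3] at h2
      have h4 := norm_sub_le_norm_sub_add_norm_sub (tens volume fun l => xx e (j l))
        (tens volume fun l => emb g (ff (j l) (uu hA (chi (j l) v)) P)) y
      exact ⟨y, hy, by linarith⟩
    obtain ⟨y, hy, hy'⟩ := H1 _ fun j hj => (key j (Finset.mem_union_left _ hj)).imp
      fun z hz => ⟨hz.1, hz.2.trans_le (min_le_left _ _)⟩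
    obtain ⟨z, hz, hz'⟩ := H2 _ fun j hj => (key j (Finset.mem_union_right _ hj)).imp
      fun z hz => ⟨hz.1, hz.2.trans_le (min_le_right _ _)⟩
    obtain ⟨F, hF, hF', c, hc⟩ := exists_cyc
      (koop fun l => (fibAct D _).flow g (speed (D + 1) v0 Λ) (t l)) S (Psi g)
      (fun s => ph (∑ l, ∑ r, s.2 l r * (t l * speed (D + 1) v0 Λ (s.1 l) r)))
      (fun s _ => by
        simp only [Psi, koop_tens, Act.flow_apply, K1_psi]
        rw [MultilinearMap.map_smul_univ, ph_sum]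
        rfl)
      (fun s hs s' hs' hss => by
        obtain ⟨n, hn⟩ := ph_eq hss
        obtain ⟨a, b⟩ := hdist _ _ (hS s hs).1.1 (hS s' hs').1.1 (hS s hs).1.2 (hS s' hs').1.2
          _ _ (hS s hs).2 (hS s' hs').2 n hn
        exact Prod.ext a b) hy hz (show 0 < ε / 2 by positivity)
    refine ⟨F, Submodule.span_le.2 ?_ hF, ?_, c, ?_⟩
    · rintro _ ⟨s, hs, rfl⟩
      exact tens_mem_HH fun l => psi_eigen g _ ((hS s hs).2 l)
    · have := norm_sub_le_norm_sub_add_norm_sub F y G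
      rw [norm_sub_rev y] at this
      linarith
    · exact (congrArg (fun x => ‖h - x‖) hc).trans_lt hz'

end Pool.Agent.Lib.MP_86b0a6_an
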