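import Pool.Agent.Lib.MP_86b0a6_an.King
import Pool.Agent.Lib.MP_86b0a6_an.Koop
import Pool.Agent.Lib.MP_86b0a6_an.Indep

namespace Pool.Agent.Lib.MP_86b0a6_an

open Set Filter Topology MeasureTheory unitInterval
open scoped ENNReal

/-- The standard character of the line. -/
noncomputable def ph (s : ℝ) : ℂ := Complex.exp (s * (2 * Real.pi * Complex.I))

lemma ph_sum {β : Type*} (S : Finset β) (f : β → ℝ) : ph (∑ s ∈ S, f s) = ∏ s ∈ S, ph (f s) := by
  simp only [ph, Complex.ofReal_sum, Finset.sum_mul, Complex.exp_sum]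

lemma ph_eq {a b : ℝ} (h : ph a = ph b) : ∃ z : ℤ, a - b = z := by
  obtain ⟨z, hz⟩ := Complex.exp_eq_exp_iff_exists_int.1 h
  refine ⟨z, ?_⟩
  rw [← add_mul] at hz
  have h1 := mul_right_cancel₀ Complex.two_pi_I_ne_zero hz
  have h2 : a = b + z := by exact_mod_cast h1
  linarith

lemma fourier_add_arg (n : ℤ) (x y : TT) : fourier n (x + y) = fourier n x * fourier n y := by
  simp only [fourier_apply, smul_add, AddCircle.toCircle_add, Circle.coe_mul]

lemma fourier_coe_ph (n : ℤ) (s : ℝ) : fourier n (s : TT) = ph (n * s) := by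
  rw [fourier_coe_apply, ph]
  congr 1
  push_cast
  ring

section Chi

variable {ι : Type} [Fintype ι]

/-- Characters of a torus. -/
noncomputable def chi (m : ι → ℤ) (ω : ι → TT) : ℂ := ∏ r, fourier (m r) (ω r)

lemma chi_add (m : ι → ℤ) (ω ω' : ι → TT) : chi m (ω + ω') = chi m ω * chi m ω' := by
  simp only [chi, Pi.add_apply, fourier_add_arg, Finset.prod_mul_distrib]

lemma chi_zero (m : ι → ℤ) : chi m 0 = 1 := by simp [chi]

lemma chi_sum {β : Type*} (m : ι → ℤ) (S : Finset β) (ω : β → ι → TT) :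
    chi m (∑ s ∈ S, ω s) = ∏ s ∈ S, chi m (ω s) := by
  classical
  induction S using Finset.induction_on with
  | empty => simp [chi_zero]
  | insert a S ha ih => rw [Finset.sum_insert ha, Finset.prod_insert ha, chi_add, ih]

lemma chi_coe (m : ι → ℤ) (x : ι → ℝ) : chi m (fun r => (x r : TT)) = ph (∑ r, m r * x r) := by
  simp only [chi, fourier_coe_ph, ph_sum]

lemma norm_chi (m : ι → ℤ) (ω : ι → TT) : ‖chi m ω‖ = 1 := by
  simp [chi, norm_prod]

/-- Characters as square integrable functions. -/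
noncomputable def ee (m : ι → ℤ) : Lp ℂ 2 (tm ι) := tens hm fun r => fourierLp 2 (m r)

lemma coeFn_ee (m : ι → ℤ) : ee m =ᵐ[tm ι] chi m :=
  coeFn_tens' fun r => coeFn_fourierLp 2 (m r)

end Chi

lemma exists_generic : ∃ v : Fin 2 → TT, ∀ j : Fin 2 → ℤ, j ≠ 0 → chi j v ≠ 1 := by
  have hx := transcendental_liouvilleNumber (m := 2) le_rfl
  set x := liouvilleNumber ((2 : ℕ) : ℝ)
  refine ⟨fun a => ((![x, x ^ 2] a : ℝ) : TT), fun j hj h => hj ?_⟩
  rw [chi_coe, show (1 : ℂ) = ph 0 by simp [ph]] at h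
  obtain ⟨z, hz⟩ := ph_eq h
  simp only [Fin.sum_univ_two, Matrix.cons_val_zero, Matrix.cons_val_one, sub_zero] at hz
  have h1 := transcendental_iff.1 hx
    (Polynomial.C (j 1) * Polynomial.X ^ 2 + Polynomial.C (j 0) * Polynomial.X + Polynomial.C (-z))
    (by simp; linarith)
  have h2 := congrArg (fun q => Polynomial.coeff q 1) h1
  have h3 := congrArg (fun q => Polynomial.coeff q 2) h1
  simp only [Polynomial.coeff_add, Polynomial.coeff_C_mul, Polynomial.coeff_X_pow,
    Polynomial.coeff_X, Polynomial.coeff_C, Polynomial.coeff_zero] at h2 h3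
  funext a
  fin_cases a
  · simpa using h2
  · simpa using h3

lemma exists_marker_set : ∃ (A : Set TT) (hA : MeasurableSet A),
    inner ℂ (fourierLp 2 1 : Lp ℂ 2 hm) (indicatorConstLp 2 hA (measure_ne_top _ _) (1 : ℂ)) ≠ 0 := by
  by_contra h
  push Not at h
  have h1 : (fourierLp 2 1 : Lp ℂ 2 hm) =ᵐ[hm] 0 := by
    refine ((Lp.memLp _).integrable one_le_two).ae_eq_zero_of_forall_setIntegral_eq_zero
      fun A hA _ => ?_
    rw [← L2.inner_indicatorConstLp_one hA (measure_ne_top _ _), ← inner_conj_symm, h A hA,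
      map_zero]
  exact orthonormal_fourier.ne_zero 1 (Lp.eq_zero_iff_ae_eq_zero.2 h1)

/-- The two valued function attached to a set. -/
noncomputable def uu {A : Set TT} (hA : MeasurableSet A) (z : ℂ) : Lp ℂ 2 hm :=
  fourierLp 2 0 + (z - 1) • indicatorConstLp 2 hA (measure_ne_top _ _) (1 : ℂ)

open Classical in
lemma coeFn_uu {A : Set TT} (hA : MeasurableSet A) (z : ℂ) :
    uu hA z =ᵐ[hm] fun x => if x ∈ A then z else 1 := by
  filter_upwards [Lp.coeFn_add (fourierLp 2 0 : Lp ℂ 2 hm)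
      ((z - 1) • indicatorConstLp 2 hA (measure_ne_top _ _) (1 : ℂ)),
    Lp.coeFn_smul (z - 1) (indicatorConstLp 2 hA (measure_ne_top hm _) (1 : ℂ)),
    indicatorConstLp_coeFn (p := 2) (hs := hA) (hμs := measure_ne_top hm _) (c := (1 : ℂ)),
    coeFn_fourierLp (T := 1) 2 0] with x h1 h2 h3 h4
  rw [uu, h1, Pi.add_apply, h2, Pi.smul_apply, h3, h4]
  by_cases hx : x ∈ A <;> simp [hx]

lemma norm_le_one_of_ae {X : Type*} [MeasurableSpace X] {μ : Measure X} [IsProbabilityMeasure μ]
    {F : Lp ℂ 2 μ} (h : ∀ᵐ x ∂μ, ‖F x‖ ≤ 1) : ‖F‖ ≤ 1 := by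
  simpa [measureUnivNNReal] using Lp.norm_le_of_ae_bound zero_le_one h

lemma inner_uu {A : Set TT} (hA : MeasurableSet A) (z : ℂ) :
    inner ℂ (fourierLp 2 1 : Lp ℂ 2 hm) (uu hA z) = (z - 1) * inner ℂ (fourierLp 2 1 : Lp ℂ 2 hm)
      (indicatorConstLp 2 hA (measure_ne_top _ _) (1 : ℂ)) := by
  rw [uu, inner_add_right, inner_smul_right, orthonormal_fourier.2 (by simp), zero_add]

/-- A character times a large tensor power. -/
noncomputable def ff (j : Fin 2 → ℤ) (u : Lp ℂ 2 hm) (P : ℕ) : Lp ℂ 2 (tm (Fin 2 ⊕ Fin P)) :=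
  tens hm (Sum.elim (fun a => fourierLp 2 (j a)) fun _ => u)

lemma continuous_ff (j : Fin 2 → ℤ) (P : ℕ) : Continuous fun u => ff j u P :=
  continuous_tens.comp (continuous_pi fun r => by
    cases r
    exacts [continuous_const, continuous_id])

theorem marker_approx (j : Fin 2 → ℤ) {u : Lp ℂ 2 hm} (hu : ‖u‖ ≤ 1)
    (hu1 : inner ℂ (fourierLp 2 1 : Lp ℂ 2 hm) u ≠ 0) {δ : ℝ} (hδ : 0 < δ) :
    ∀ᶠ P : ℕ in atTop, ∀ᶠ w : ℕ in atTop,
      ∃ f ∈ Submodule.span ℂ (ee '' {m : Fin 2 ⊕ Fin P → ℤ | Mark w m}), ‖ff j u P - f‖ < δ := by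
  classical
  let c : ℤ → ℂ := fun n => inner ℂ (fourierLp 2 n : Lp ℂ 2 hm) u
  let b : ℤ → Lp ℂ 2 hm := fourierLp 2
  have hb : ∀ n, ‖b n‖ = 1 := orthonormal_fourier.1
  have h1 : ‖u - c 1 • b 1‖ < 1 := by
    have h2 : inner ℂ (c 1 • b 1) (u - c 1 • b 1) = 0 := by
      rw [inner_smul_left, inner_sub_right, inner_smul_right, inner_self_eq_norm_sq_to_K, hb]
      simp [c, b]
    have h3 := norm_add_sq_eq_norm_sq_add_norm_sq_of_inner_eq_zero _ _ h2
    rw [add_sub_cancel, norm_smul, hb, mul_one] at h3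
    have h4 : 0 < ‖c 1‖ := norm_pos_iff.2 hu1
    by_contra h
    nlinarith [norm_nonneg u]
  filter_upwards [(tendsto_pow_atTop_nhds_zero_of_lt_one (norm_nonneg _) h1).eventually
    (gt_mem_nhds hδ)] with P hP
  have hs : Tendsto (fun w : ℕ => ∑ n ∈ Finset.Icc (-(w : ℤ)) w, c n • b n) atTop (𝓝 u) := by
    have := (fourierBasis (T := 1)).hasSum_repr u
    simp only [HilbertBasis.repr_apply_apply, coe_fourierBasis] at this
    exact Tendsto.comp (g := fun V : Finset ℤ => ∑ n ∈ V, c n • b n) (y := atTop)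
      (by simpa [HasSum] using this) Finset.tendsto_Icc_neg
  have h2 : Tendsto (fun w : ℕ => ‖ff j u P - (ff j (∑ n ∈ Finset.Icc (-(w : ℤ)) w, c n • b n) P -
      ff j (∑ n ∈ Finset.Icc (-(w : ℤ)) w, c n • b n - c 1 • b 1) P)‖) atTop
      (𝓝 ‖ff j u P - (ff j u P - ff j (u - c 1 • b 1) P)‖) :=
    (tendsto_const_nhds.sub ((((continuous_ff j P).tendsto _).comp hs).sub
      (((continuous_ff j P).tendsto _).comp (hs.sub tendsto_const_nhds)))).norm
  have h3 : ‖ff j u P - (ff j u P - ff j (u - c 1 • b 1) P)‖ < δ := by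
    rw [sub_sub_cancel, ff, norm_tens, Fintype.prod_sum_type]
    simpa [orthonormal_fourier.1] using hP
  filter_upwards [h2.eventually (gt_mem_nhds h3), eventually_ge_atTop 1,
    eventually_all.2 fun a => eventually_ge_atTop (j a).natAbs] with w hw hw1 hw2
  refine ⟨_, ?_, hw⟩
  set W := Finset.Icc (-(w : ℤ)) w with hW
  have h1W : (1 : ℤ) ∈ W := Finset.mem_Icc.2 ⟨by omega, by omega⟩
  let g : Fin 2 ⊕ Fin P → ℤ → ℂ := Sum.elim (fun _ _ => 1) fun _ => c
  have key : ∀ V : Finset ℤ, ff j (∑ n ∈ V, c n • b n) P =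
      ∑ m ∈ Fintype.piFinset (Sum.elim (fun a => {j a}) fun _ => V), (∏ r, g r (m r)) • ee m := by
    intro V
    have : (Sum.elim (fun a => fourierLp 2 (j a)) fun _ => ∑ n ∈ V, c n • b n) =
        fun r : Fin 2 ⊕ Fin P =>
          ∑ n ∈ Sum.elim (fun a => {j a}) (fun _ => V) r, g r n • b n := by
      funext r
      cases r <;> simp [g, b]
    rw [ff, this, MultilinearMap.map_sum_finset]
    exact Finset.sum_congr rfl fun m _ => MultilinearMap.map_smul_univ _ _ _
  rw [← Finset.sum_erase_eq_sub h1W, key, key, ← Finset.sum_sdiff_eq_sub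
    (Fintype.piFinset_subset _ _ fun r => by
      cases r
      exacts [subset_rfl, Finset.erase_subset _ _])]
  refine Submodule.sum_mem _ fun m hm => Submodule.smul_mem _ _
    (Submodule.subset_span ⟨m, ⟨fun r => ?_, ?_⟩, rfl⟩)
  · have := Fintype.mem_piFinset.1 (Finset.mem_sdiff.1 hm).1 r
    cases r with
    | inl a =>
      have h4 : m (Sum.inl a) = j a := by simpa using this
      rw [h4, Int.abs_eq_natAbs]
      exact_mod_cast hw2 a
    | inr a => exact abs_le.2 (Finset.mem_Icc.1 this)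
  · obtain ⟨h4, h5⟩ := Finset.mem_sdiff.1 hm
    rw [Fintype.mem_piFinset] at h4 h5
    push Not at h5
    obtain ⟨r, hr⟩ := h5
    have h6 := h4 r
    cases r with
    | inl a => exact absurd h6 hr
    | inr a =>
      refine ⟨Sum.inr a, ?_⟩
      by_contra h
      exact hr (Finset.mem_erase.2 ⟨h, h6⟩)

/-- The factor map from a large torus to the two dimensional torus. -/
noncomputable def pp (A : Set TT) (v : Fin 2 → TT) (P : ℕ) (ω : Fin 2 ⊕ Fin P → TT) :
    Fin 2 → TT := (fun a => ω (Sum.inl a)) + ∑ r, A.indicator (fun _ => v) (ω (Sum.inr r))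

lemma mp_pp {A : Set TT} (hA : MeasurableSet A) (v : Fin 2 → TT) (P : ℕ) :
    MeasurePreserving (pp A v P) (tm _) (tm _) := by
  have h1 : Measurable fun y : Fin P → TT => ∑ r, A.indicator (fun _ => v) (y r) :=
    Finset.measurable_sum _ fun r _ =>
      (measurable_const.indicator hA).comp (measurable_pi_apply r)
  have h2 := (MeasurePreserving.id (tm (Fin P))).skew_product (μc := tm (Fin 2))
    (μd := tm (Fin 2)) (g := fun y x => x + ∑ r, A.indicator (fun _ => v) (y r))
    (measurable_snd.add (h1.comp measurable_fst))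
    (Eventually.of_forall fun y => (measurePreserving_add_right _ _).map_eq)
  exact measurePreserving_snd.comp (h2.comp (Measure.measurePreserving_swap.comp
    (measurePreserving_sumPiEquivProdPi fun _ => hm)))

lemma pp_tr (A : Set TT) (v : Fin 2 → TT) (P : ℕ) (x : Fin 2 → ℝ) (ω : Fin 2 ⊕ Fin P → TT) :
    pp A v P ((torAct _).tr (Sum.elim x 0) ω) = (torAct _).tr x (pp A v P ω) := by
  funext a
  simp only [pp, Pi.add_apply, torAct_apply, Sum.elim_inl, Sum.elim_inr, Pi.zero_apply,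
    QuotientAddGroup.mk_zero, add_zero]
  abel

lemma coeFn_ff {A : Set TT} (hA : MeasurableSet A) (v : Fin 2 → TT) (P : ℕ) (j : Fin 2 → ℤ) :
    ff j (uu hA (chi j v)) P =ᵐ[tm _] fun ω => chi j (pp A v P ω) := by
  classical
  refine (coeFn_tens' (g := Sum.elim (fun a => fourier (j a))
    fun _ x => if x ∈ A then chi j v else 1) fun r => ?_).trans (Eventually.of_forall fun ω => ?_)
  · cases r
    exacts [coeFn_fourierLp 2 _, coeFn_uu hA _]
  · simp only [pp, chi_add, chi_sum, Fintype.prod_sum_type, Sum.elim_inl, Sum.elim_inr]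
    congr 1
    refine Finset.prod_congr rfl fun r _ => ?_
    by_cases h : ω (Sum.inr r) ∈ A <;> simp [h, chi_zero]

lemma mp_uncurry (k : ℕ) : MeasurePreserving (MeasurableEquiv.curry (Fin k) (Fin 2) TT).symm
    (Measure.pi fun _ => tm (Fin 2)) (tm (Fin k × Fin 2)) := by
  refine ⟨MeasurableEquiv.measurable _, (Measure.pi_eq fun s hs => ?_).symm⟩
  rw [MeasurableEquiv.map_apply]
  have : (MeasurableEquiv.curry (Fin k) (Fin 2) TT).symm ⁻¹' univ.pi s =
      univ.pi fun l => univ.pi fun a => s (l, a) := by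
    ext x
    simp [MeasurableEquiv.coe_curry_symm]
  rw [this, Measure.pi_pi, Fintype.prod_prod_type]
  simp only [Measure.pi_pi]

/-- Characters transported to the interval. -/
noncomputable def xx (e : Iso (tm (Fin 2)) (volume : Measure I)) (j : Fin 2 → ℤ) : L1' :=
  Lp.compMeasurePreserving e.invFun e.mp_inv (ee j)

lemma coeFn_xx (e : Iso (tm (Fin 2)) (volume : Measure I)) (j : Fin 2 → ℤ) :
    xx e j =ᵐ[volume] fun x => chi j (e.invFun x) :=
  (Lp.coeFn_compMeasurePreserving _ _).trans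
    (e.mp_inv.quasiMeasurePreserving.ae_eq_comp (coeFn_ee j))

theorem base_expansion (e : Iso (tm (Fin 2)) (volume : Measure I)) {k : ℕ} {G : LL k}
    (hG : G ∈ HH k) {ε : ℝ} (hε : 0 < ε) :
    ∃ J : Finset (Fin k → Fin 2 → ℤ), (∀ j ∈ J, ∀ l, j l ≠ 0) ∧
      ∃ G' ∈ Submodule.span ℂ
        ((fun j : Fin k → Fin 2 → ℤ => tens volume fun l => xx e (j l)) '' J), ‖G - G'‖ < ε := by
  classical
  let U : (Fin k → I) → (Fin k × Fin 2 → TT) := fun x z => e.invFun (x z.1) z.2
  let V : (Fin k × Fin 2 → TT) → (Fin k → I) := fun ω l => e.toFun fun a => ω (l, a)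
  have hU : MeasurePreserving U (PI k) (tm _) :=
    (mp_uncurry k).comp (measurePreserving_pi _ _ fun _ => e.mp_inv)
  have hV : MeasurePreserving V (tm _) (PI k) :=
    (measurePreserving_pi _ _ fun _ => e.mp).comp (mp_uncurry k).symm
  let CU := Lp.compMeasurePreservingₗᵢ (E := ℂ) (p := 2) ℂ U hU
  have h1 : CU (Lp.compMeasurePreserving V hV G) = G := by
    change Lp.compMeasurePreserving U hU _ = _
    rw [← Lp.compMeasurePreserving_comp_apply G hV hU,
      comp_congr _ (MeasurePreserving.id _) (g := id)]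
    · exact Lp.ext (Lp.coeFn_compMeasurePreserving _ _)
    · filter_upwards [ae_pi (α := Fin k) fun _ => e.right] with x hx
      exact funext hx
  let b : HilbertBasis (Fin k × Fin 2 → ℤ) ℂ (Lp ℂ 2 (tm (Fin k × Fin 2))) :=
    UnitAddTorus.mFourierBasis
  have hb : ∀ n, b n =ᵐ[tm _] chi n := fun n => by
    have : b n = UnitAddTorus.mFourierLp 2 n := congrFun UnitAddTorus.coe_mFourierBasis n
    rw [this]
    exact UnitAddTorus.coeFn_mFourierLp 2 n
  have hCb : ∀ n, CU (b n) =ᵐ[PI k] fun x => ∏ l, chi (fun a => n (l, a)) (e.invFun (x l)) :=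
    fun n => ((Lp.coeFn_compMeasurePreserving _ hU).trans
      (hU.quasiMeasurePreserving.ae_eq_comp (hb n))).trans (Eventually.of_forall fun x => by
        simp only [chi, Function.comp_apply, Fintype.prod_prod_type, U])
  have hCb' : ∀ n, CU (b n) = tens volume fun l => xx e fun a => n (l, a) := fun n =>
    Lp.ext ((hCb n).trans (coeFn_tens' fun l => coeFn_xx e _).symm)
  have h2 := (b.hasSum_repr (Lp.compMeasurePreserving V hV G)).mapL CU.toContinuousLinearMap
  simp only [LinearIsometry.coe_toContinuousLinearMap, h1, map_smul,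
    HilbertBasis.repr_apply_apply] at h2
  obtain ⟨s, hs⟩ := (Tendsto.eventually h2 (Metric.ball_mem_nhds G hε)).exists
  refine ⟨(s.filter fun n => ∀ l, (fun a => n (l, a)) ≠ 0).image fun n l a => n (l, a), ?_, _, ?_,
    by rwa [dist_comm, dist_eq_norm] at hs⟩
  · intro j hj
    obtain ⟨n, hn, rfl⟩ := Finset.mem_image.1 hj
    exact (Finset.mem_filter.1 hn).2
  · refine Submodule.sum_mem _ fun n hn => ?_
    by_cases h : ∀ l, (fun a => n (l, a)) ≠ 0
    · refine Submodule.smul_mem _ _ (Submodule.subset_span ⟨fun l a => n (l, a), ?_, (hCb' n).symm⟩)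
      exact Finset.mem_coe.2 (Finset.mem_image.2 ⟨n, Finset.mem_filter.2 ⟨hn, h⟩, rfl⟩)
    · push Not at h
      obtain ⟨l, hl⟩ := h
      have h3 := (memLp_congr_ae (hCb n)).1 (Lp.memLp _)
      have h4 := mem_HH.1 hG l _ h3 fun x y => Finset.prod_congr rfl fun l' _ => by
        by_cases h : l' = l
        · subst h; rw [hl]; simp [chi]
        · rw [Function.update_of_ne h]
      have h5 : h3.toLp _ = CU (b n) := Lp.ext (h3.coeFn_toLp.trans (hCb n).symm)
      rw [h5, ← h1, LinearIsometry.inner_map_map] at h4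
      rw [h4, zero_smul]
      exact Submodule.zero_mem _

end Pool.Agent.Lib.MP_86b0a6_an
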